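import Mathlib

/-! Profile curves of `O(2) × O(2)`-invariant self-shrinkers: definitions and identities. -/

set_option autoImplicit false

open Real Set Filter Topology

namespace Pool.Agent.MP_48470b_gt

/-- curvature prescribed by the shrinker equation -/
noncomputable def kap (x y c s : ℝ) : ℝ := s * (x / 2 - 1 / x) - c * (y / 2 - 1 / y)

/-- An embedded profile curve from the `x`-axis to the `y`-axis (unbundled form). -/
structure Prof (L : ℝ) (x y c s : ℝ → ℝ) : Prop where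
  L_pos : 0 < L
  cx : ContinuousOn x (Icc 0 L)
  cy : ContinuousOn y (Icc 0 L)
  cc : ContinuousOn c (Icc 0 L)
  cs : ContinuousOn s (Icc 0 L)
  unit : ∀ t ∈ Icc 0 L, c t ^ 2 + s t ^ 2 = 1
  pos : ∀ t ∈ Ioo 0 L, 0 < x t ∧ 0 < y t
  dx : ∀ t ∈ Ioo 0 L, HasDerivAt x (c t) t
  dy : ∀ t ∈ Ioo 0 L, HasDerivAt y (s t) t
  dc : ∀ t ∈ Ioo 0 L, HasDerivAt c (-(s t * kap (x t) (y t) (c t) (s t))) t
  ds : ∀ t ∈ Ioo 0 L, HasDerivAt s (c t * kap (x t) (y t) (c t) (s t)) t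
  x0 : 0 < x 0
  y0 : y 0 = 0
  c0 : c 0 = 0
  s0 : s 0 = 1
  xL : x L = 0
  yL : 0 < y L
  cL : c L = -1
  sL : s L = 0
  inj : ∀ t ∈ Icc 0 L, ∀ u ∈ Icc 0 L, x t = x u → y t = y u → t = u

/-- A planar curve with unit tangent. -/
structure Crv where
  x : ℝ → ℝ
  y : ℝ → ℝ
  c : ℝ → ℝ
  s : ℝ → ℝ

theorem hd {f g : ℝ → ℝ} {a b t : ℝ} (h : HasDerivAt f a t) (hf : ∀ t, g t = f t)
    (hab : b = a) : HasDerivAt g b t := by
  have : g = f := funext hf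
  rw [this, hab]; exact h

namespace Crv

variable (γ : Crv)

/-- curvature prescribed by the shrinker equation -/
noncomputable def k (t : ℝ) : ℝ :=
  (γ.x t / 2 - 1 / γ.x t) * γ.s t - (γ.y t / 2 - 1 / γ.y t) * γ.c t
noncomputable def u (t : ℝ) : ℝ := γ.x t * γ.s t - γ.y t * γ.c t
noncomputable def v (t : ℝ) : ℝ := γ.x t * γ.c t + γ.y t * γ.s t
/-- squared distance to the origin -/
noncomputable def z (t : ℝ) : ℝ := γ.x t ^ 2 + γ.y t ^ 2
noncomputable def E (t : ℝ) : ℝ := exp (-γ.z t / 4)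
noncomputable def w (t : ℝ) : ℝ := γ.x t * γ.y t * γ.E t
noncomputable def G (t : ℝ) : ℝ := 3 - γ.z t / 2
/-- `x y k` -/
noncomputable def n0 (t : ℝ) : ℝ :=
  (γ.x t ^ 2 / 2 - 1) * γ.y t * γ.s t - (γ.y t ^ 2 / 2 - 1) * γ.x t * γ.c t
/-- `x y (k - s / x)` -/
noncomputable def n1 (t : ℝ) : ℝ :=
  (γ.x t ^ 2 / 2 - 2) * γ.y t * γ.s t - (γ.y t ^ 2 / 2 - 1) * γ.x t * γ.c t
/-- `x y (k + c / y)` -/
noncomputable def n2 (t : ℝ) : ℝ :=
  (γ.x t ^ 2 / 2 - 1) * γ.y t * γ.s t - (γ.y t ^ 2 / 2 - 2) * γ.x t * γ.c t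
noncomputable def V (t : ℝ) : ℝ := γ.w t * γ.v t
noncomputable def K1 (t : ℝ) : ℝ := γ.w t * γ.n1 t
noncomputable def K2 (t : ℝ) : ℝ := γ.w t * γ.n2 t
noncomputable def Wn (t : ℝ) : ℝ :=
  γ.E t * (γ.u t * γ.c t * γ.n1 t - γ.s t * γ.n0 t * γ.v t)
noncomputable def W1 (t : ℝ) : ℝ := γ.Wn t / γ.x t

/-- The ODE holds at time `t`, inside the open quadrant. -/
structure Sol (t : ℝ) : Prop where
  dx : HasDerivAt γ.x (γ.c t) t
  dy : HasDerivAt γ.y (γ.s t) t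
  dc : HasDerivAt γ.c (-γ.s t * γ.k t) t
  ds : HasDerivAt γ.s (γ.c t * γ.k t) t
  cs : γ.c t ^ 2 + γ.s t ^ 2 = 1
  px : 0 < γ.x t
  py : 0 < γ.y t

/-- An embedded profile curve from the `x`-axis to the `y`-axis. -/
structure Prof (L : ℝ) : Prop where
  hL : 0 < L
  cx : ContinuousOn γ.x (Icc 0 L)
  cy : ContinuousOn γ.y (Icc 0 L)
  cc : ContinuousOn γ.c (Icc 0 L)
  cs' : ContinuousOn γ.s (Icc 0 L)
  sol : ∀ t ∈ Ioo 0 L, γ.Sol t
  y0 : γ.y 0 = 0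
  xL : γ.x L = 0
  x0 : 0 < γ.x 0
  yL : 0 < γ.y L
  c0 : γ.c 0 = 0
  s0 : γ.s 0 = 1
  cL : γ.c L = -1
  sL : γ.s L = 0
  inj : ∀ t ∈ Icc 0 L, ∀ t' ∈ Icc 0 L, γ.x t = γ.x t' → γ.y t = γ.y t' → t = t'

theorem E_pos (t : ℝ) : 0 < γ.E t := exp_pos _

theorem n2_sub_n1 (t : ℝ) : γ.n2 t - γ.n1 t = γ.v t := by
  unfold n1 n2 v; ring

variable {γ}

namespace Sol

variable {t : ℝ}

theorem w_pos (h : γ.Sol t) : 0 < γ.w t := by
  unfold w; exact mul_pos (mul_pos h.px h.py) (γ.E_pos t)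

theorem z_pos (h : γ.Sol t) : 0 < γ.z t := by
  unfold z; have := h.px; positivity

theorem k_eq (h : γ.Sol t) : γ.k t = γ.n0 t / (γ.x t * γ.y t) := by
  have hx := h.px.ne'; have hy := h.py.ne'
  unfold k n0; field_simp

theorem hk (h : γ.Sol t) : γ.k t * (γ.x t * γ.y t) = γ.n0 t := by
  rw [h.k_eq]; have hx := h.px.ne'; have hy := h.py.ne'; field_simp

theorem uv (h : γ.Sol t) : γ.u t ^ 2 + γ.v t ^ 2 = γ.z t := by
  have h := h.cs
  unfold u v z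
  linear_combination (γ.x t ^ 2 + γ.y t ^ 2) * h

theorem dx2 (h : γ.Sol t) : HasDerivAt (fun t => γ.x t ^ 2) (2 * γ.x t * γ.c t) t :=
  hd (h.dx.mul h.dx) (fun _ => by simp [sq]) (by ring)

theorem dy2 (h : γ.Sol t) : HasDerivAt (fun t => γ.y t ^ 2) (2 * γ.y t * γ.s t) t :=
  hd (h.dy.mul h.dy) (fun _ => by simp [sq]) (by ring)

theorem dz (h : γ.Sol t) : HasDerivAt γ.z (2 * γ.v t) t :=
  hd (h.dx2.add h.dy2) (fun _ => rfl) (by unfold v; ring)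

theorem dG (h : γ.Sol t) : HasDerivAt γ.G (-γ.v t) t :=
  hd ((h.dz.div_const 2).const_sub 3) (fun _ => rfl) (by ring)

theorem dE (h : γ.Sol t) : HasDerivAt γ.E (-γ.v t / 2 * γ.E t) t :=
  hd ((h.dz.neg).div_const 4).exp (fun _ => rfl) (by
    have : γ.E t = exp ((-γ.z) t / 4) := rfl
    rw [← this]; ring)

theorem du (h : γ.Sol t) : HasDerivAt γ.u (γ.k t * γ.v t) t :=
  hd ((h.dx.mul h.ds).sub (h.dy.mul h.dc)) (fun _ => rfl) (by unfold v; ring)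

theorem dv (h : γ.Sol t) : HasDerivAt γ.v (1 - γ.k t * γ.u t) t :=
  hd ((h.dx.mul h.dc).add (h.dy.mul h.ds)) (fun _ => rfl) (by
    have hcs := h.cs
    unfold u; linear_combination -hcs)

theorem dw (h : γ.Sol t) :
    HasDerivAt γ.w ((γ.c t * γ.y t + γ.x t * γ.s t - γ.x t * γ.y t * γ.v t / 2) * γ.E t) t :=
  hd ((h.dx.mul h.dy).mul h.dE) (fun _ => rfl) (by simp only [Pi.mul_apply]; ring)

theorem dn (h : γ.Sol t) (p q : ℝ) : HasDerivAt
    (fun t => (γ.x t ^ 2 / 2 - p) * γ.y t * γ.s t - (γ.y t ^ 2 / 2 - q) * γ.x t * γ.c t)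
    (γ.x t * γ.c t * γ.y t * γ.s t + (γ.x t ^ 2 / 2 - p) * γ.s t * γ.s t
      + (γ.x t ^ 2 / 2 - p) * γ.y t * (γ.c t * γ.k t)
      - (γ.y t * γ.s t * γ.x t * γ.c t + (γ.y t ^ 2 / 2 - q) * γ.c t * γ.c t
      + (γ.y t ^ 2 / 2 - q) * γ.x t * (-γ.s t * γ.k t))) t :=
  hd (((((h.dx2.div_const 2).sub_const p).mul h.dy).mul h.ds).sub
    ((((h.dy2.div_const 2).sub_const q).mul h.dx).mul h.dc)) (fun _ => rfl)
    (by simp only [Pi.mul_apply]; ring)

theorem dV (h : γ.Sol t) : HasDerivAt γ.V (γ.w t * γ.G t) t :=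
  hd (h.dw.mul h.dv) (fun _ => rfl) (by
    have hcs := h.cs
    have hk := h.hk
    unfold n0 at hk
    unfold w G z u v
    linear_combination (-γ.E t * γ.c t * γ.y t + γ.E t * γ.s t * γ.x t) * hk
      + (-2 * γ.E t * γ.x t * γ.y t + (1/2) * γ.E t * γ.x t * γ.y t ^ 3
        + (1/2) * γ.E t * γ.x t ^ 3 * γ.y t) * hcs)

theorem dK1 (h : γ.Sol t) : HasDerivAt γ.K1 (-(γ.w t * γ.s t ^ 2 * γ.G t)) t :=
  hd (h.dw.mul (h.dn 2 1)) (fun _ => rfl) (by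
    have hk := h.hk
    unfold n0 at hk
    unfold w G z v
    linear_combination ((-1/2) * γ.E t * γ.c t * γ.x t ^ 2 * γ.y t + 2 * γ.E t * γ.c t * γ.y t
      + γ.E t * γ.s t * γ.x t + (-1/2) * γ.E t * γ.s t * γ.x t * γ.y t ^ 2) * hk)

theorem dK2 (h : γ.Sol t) : HasDerivAt γ.K2 (γ.w t * γ.c t ^ 2 * γ.G t) t :=
  hd (h.dw.mul (h.dn 1 2)) (fun _ => rfl) (by
    have hk := h.hk
    unfold n0 at hk
    unfold w G z v
    linear_combination ((-1/2) * γ.E t * γ.c t * γ.x t ^ 2 * γ.y t + γ.E t * γ.c t * γ.y t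
      + 2 * γ.E t * γ.s t * γ.x t + (-1/2) * γ.E t * γ.s t * γ.x t * γ.y t ^ 2) * hk)

theorem dwu (h : γ.Sol t) :
    HasDerivAt (fun t => γ.w t * γ.u t) (γ.E t * (γ.x t ^ 2 - γ.y t ^ 2)) t :=
  hd (h.dw.mul h.du) (fun _ => rfl) (by
    have hcs := h.cs
    have hk := h.hk
    unfold n0 at hk
    unfold w u v
    linear_combination (-γ.E t * γ.c t * γ.x t - γ.E t * γ.s t * γ.y t) * hk
      + (-γ.E t * γ.x t ^ 2 + γ.E t * γ.y t ^ 2) * hcs)

theorem dW1 (h : γ.Sol t) :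
    HasDerivAt γ.W1 (-2 * γ.E t * γ.u t * γ.c t ^ 2 * γ.n1 t / γ.x t ^ 2) t := by
  have hn : HasDerivAt γ.Wn _ t := hd (h.dE.mul (((h.du.mul h.dc).mul (h.dn 2 1)).sub
    ((h.ds.mul (h.dn 1 1)).mul h.dv))) (fun _ => rfl) rfl
  refine hd (hn.div h.dx h.px.ne') (fun _ => rfl) ?_
  congr 1
  have hcs := h.cs
  have hk := h.hk
  unfold n0 at hk
  simp only [Pi.mul_apply, Pi.sub_apply]
  unfold Wn n0 n1 u v
  linear_combination ((1/2) * γ.E t * γ.c t * γ.x t ^ 2 * γ.y t + γ.E t * γ.c t * γ.y t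
    + 3 * γ.E t * γ.c t ^ 2 * γ.s t * γ.x t + (-3) * γ.E t * γ.c t ^ 3 * γ.y t
    + (-2) * γ.E t * γ.s t * γ.x t + (1/2) * γ.E t * γ.s t * γ.x t * γ.y t ^ 2) * hk
    + (γ.E t * γ.c t * γ.k t * γ.x t * γ.y t ^ 2
    + (1/2) * γ.E t * γ.c t * γ.k t * γ.x t ^ 3 * γ.y t ^ 2
    + 2 * γ.E t * γ.c t * γ.s t * γ.x t ^ 2
    + (-3/2) * γ.E t * γ.c t * γ.s t * γ.x t ^ 2 * γ.y t ^ 2
    + (1/4) * γ.E t * γ.c t * γ.s t * γ.x t ^ 2 * γ.y t ^ 4
    + (-1/4) * γ.E t * γ.c t * γ.s t * γ.x t ^ 4 * γ.y t ^ 2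
    + γ.E t * γ.c t * γ.s t * γ.y t ^ 2 + (-1) * γ.E t * γ.c t ^ 2 * γ.x t * γ.y t
    + (1/2) * γ.E t * γ.c t ^ 2 * γ.x t * γ.y t ^ 3
    + (-1/2) * γ.E t * γ.c t ^ 2 * γ.x t ^ 3 * γ.y t
    + (1/4) * γ.E t * γ.c t ^ 2 * γ.x t ^ 3 * γ.y t ^ 3
    + (-2) * γ.E t * γ.k t * γ.s t * γ.x t ^ 2 * γ.y t
    + (1/2) * γ.E t * γ.k t * γ.s t * γ.x t ^ 2 * γ.y t ^ 3
    + (-2) * γ.E t * γ.s t ^ 2 * γ.x t * γ.y t + (1/2) * γ.E t * γ.s t ^ 2 * γ.x t * γ.y t ^ 3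
    + γ.E t * γ.s t ^ 2 * γ.x t ^ 3 * γ.y t
    + (-1/4) * γ.E t * γ.s t ^ 2 * γ.x t ^ 3 * γ.y t ^ 3
    - γ.E t * γ.x t * γ.s t * ((γ.x t ^ 2 / 2 - 1) * γ.y t * γ.s t
      - (γ.y t ^ 2 / 2 - 1) * γ.x t * γ.c t)) * hcs

end Sol

/-! ### Continuity up to the ends -/

namespace Prof

variable {L : ℝ}

theorem cu (h : γ.Prof L) : ContinuousOn γ.u (Icc 0 L) :=
  (h.cx.mul h.cs').sub (h.cy.mul h.cc)
theorem cv (h : γ.Prof L) : ContinuousOn γ.v (Icc 0 L) :=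
  (h.cx.mul h.cc).add (h.cy.mul h.cs')
theorem cz (h : γ.Prof L) : ContinuousOn γ.z (Icc 0 L) :=
  (h.cx.pow 2).add (h.cy.pow 2)
theorem cG (h : γ.Prof L) : ContinuousOn γ.G (Icc 0 L) :=
  continuousOn_const.sub (h.cz.div_const 2)
theorem cE (h : γ.Prof L) : ContinuousOn γ.E (Icc 0 L) :=
  continuous_exp.comp_continuousOn (h.cz.neg.div_const 4)
theorem cw (h : γ.Prof L) : ContinuousOn γ.w (Icc 0 L) :=
  (h.cx.mul h.cy).mul h.cE
theorem cn (h : γ.Prof L) (p q : ℝ) : ContinuousOn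
    (fun t => (γ.x t ^ 2 / 2 - p) * γ.y t * γ.s t - (γ.y t ^ 2 / 2 - q) * γ.x t * γ.c t)
    (Icc 0 L) :=
  (((((h.cx.pow 2).div_const 2).sub continuousOn_const).mul h.cy).mul h.cs').sub
    (((((h.cy.pow 2).div_const 2).sub continuousOn_const).mul h.cx).mul h.cc)
theorem cn0 (h : γ.Prof L) : ContinuousOn γ.n0 (Icc 0 L) := h.cn 1 1
theorem cn1 (h : γ.Prof L) : ContinuousOn γ.n1 (Icc 0 L) := h.cn 2 1
theorem cn2 (h : γ.Prof L) : ContinuousOn γ.n2 (Icc 0 L) := h.cn 1 2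
theorem cV (h : γ.Prof L) : ContinuousOn γ.V (Icc 0 L) := h.cw.mul h.cv
theorem cK1 (h : γ.Prof L) : ContinuousOn γ.K1 (Icc 0 L) := h.cw.mul h.cn1
theorem cK2 (h : γ.Prof L) : ContinuousOn γ.K2 (Icc 0 L) := h.cw.mul h.cn2
theorem cWn (h : γ.Prof L) : ContinuousOn γ.Wn (Icc 0 L) :=
  h.cE.mul (((h.cu.mul h.cc).mul h.cn1).sub ((h.cs'.mul h.cn0).mul h.cv))

theorem x_pos (h : γ.Prof L) {t : ℝ} (ht : t ∈ Ico 0 L) : 0 < γ.x t := by
  rcases ht.1.eq_or_lt with h0 | h0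
  · rw [← h0]; exact h.x0
  · exact (h.sol t ⟨h0, ht.2⟩).px

theorem y_pos (h : γ.Prof L) {t : ℝ} (ht : t ∈ Ioc 0 L) : 0 < γ.y t := by
  rcases ht.2.eq_or_lt with h0 | h0
  · rw [h0]; exact h.yL
  · exact (h.sol t ⟨ht.1, h0⟩).py

theorem z_pos (h : γ.Prof L) {t : ℝ} (ht : t ∈ Icc 0 L) : 0 < γ.z t := by
  unfold z
  rcases ht.2.eq_or_lt with h0 | h0
  · have := h.y_pos (t := t) ⟨by rw [h0]; exact h.hL, ht.2⟩
    positivity
  · have := h.x_pos (t := t) ⟨ht.1, h0⟩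
    positivity

theorem u0 (h : γ.Prof L) : γ.u 0 = γ.x 0 := by unfold u; rw [h.s0, h.y0]; ring
theorem uL (h : γ.Prof L) : γ.u L = γ.y L := by unfold u; rw [h.xL, h.cL]; ring
theorem v0 (h : γ.Prof L) : γ.v 0 = 0 := by unfold v; rw [h.c0, h.y0]; ring
theorem vL (h : γ.Prof L) : γ.v L = 0 := by unfold v; rw [h.xL, h.sL]; ring
theorem w0 (h : γ.Prof L) : γ.w 0 = 0 := by unfold w; rw [h.y0]; ring
theorem wL (h : γ.Prof L) : γ.w L = 0 := by unfold w; rw [h.xL]; ring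

end Prof

/-! ### The mirror image -/

variable (γ)

/-- reflect in the diagonal and reverse time -/
noncomputable def mir (L : ℝ) : Crv :=
  ⟨fun t => γ.y (L - t), fun t => γ.x (L - t), fun t => -γ.s (L - t), fun t => -γ.c (L - t)⟩

theorem mir_x (L t : ℝ) : (γ.mir L).x t = γ.y (L - t) := rfl
theorem mir_y (L t : ℝ) : (γ.mir L).y t = γ.x (L - t) := rfl
theorem mir_c (L t : ℝ) : (γ.mir L).c t = -γ.s (L - t) := rfl
theorem mir_s (L t : ℝ) : (γ.mir L).s t = -γ.c (L - t) := rfl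
theorem mir_u (L t : ℝ) : (γ.mir L).u t = γ.u (L - t) := by
  unfold u; rw [mir_x, mir_y, mir_c, mir_s]; ring
theorem mir_v (L t : ℝ) : (γ.mir L).v t = -γ.v (L - t) := by
  unfold v; rw [mir_x, mir_y, mir_c, mir_s]; ring
theorem mir_z (L t : ℝ) : (γ.mir L).z t = γ.z (L - t) := by
  unfold z; rw [mir_x, mir_y]; ring
theorem mir_k (L t : ℝ) : (γ.mir L).k t = γ.k (L - t) := by
  unfold k; rw [mir_x, mir_y, mir_c, mir_s]; ring

variable {γ}

theorem Sol.mir {L t : ℝ} (h : γ.Sol (L - t)) : (γ.mir L).Sol t := by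
  have hl : HasDerivAt (fun t => L - t) (-1) t := by
    simpa using (hasDerivAt_id t).const_sub L
  refine ⟨?_, ?_, ?_, ?_, ?_, h.py, h.px⟩
  · exact hd (h.dy.comp t hl) (fun _ => rfl) (by rw [mir_c]; ring)
  · exact hd (h.dx.comp t hl) (fun _ => rfl) (by rw [mir_s]; ring)
  · exact hd ((h.ds.comp t hl).neg) (fun _ => rfl) (by rw [mir_k, mir_s]; ring)
  · exact hd ((h.dc.comp t hl).neg) (fun _ => rfl) (by rw [mir_k, mir_c]; ring)
  · rw [mir_c, mir_s]; linear_combination h.cs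

theorem Prof.mir {L : ℝ} (h : γ.Prof L) : (γ.mir L).Prof L := by
  have hm : MapsTo (fun t => L - t) (Icc 0 L) (Icc 0 L) := fun t ht =>
    ⟨by linarith [ht.2], by linarith [ht.1]⟩
  have hc : ContinuousOn (fun t : ℝ => L - t) (Icc 0 L) := by fun_prop
  refine ⟨h.hL, h.cy.comp hc hm, h.cx.comp hc hm, (h.cs'.comp hc hm).neg, (h.cc.comp hc hm).neg,
    fun t ht => (h.sol (L - t) ⟨by linarith [ht.2], by linarith [ht.1]⟩).mir, ?_, ?_, ?_, ?_,
    ?_, ?_, ?_, ?_, ?_⟩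
  · rw [mir_y, sub_zero]; exact h.xL
  · rw [mir_x, sub_self]; exact h.y0
  · rw [mir_x, sub_zero]; exact h.yL
  · rw [mir_y, sub_self]; exact h.x0
  · rw [mir_c, sub_zero, h.sL]; ring
  · rw [mir_s, sub_zero, h.cL]; ring
  · rw [mir_c, sub_self, h.s0]
  · rw [mir_s, sub_self, h.c0]; ring
  · intro t ht t' ht' h1 h2
    have := h.inj _ (hm ht) _ (hm ht') h2 h1
    linarith

end Crv

/-! ### Calculus helpers -/

theorem mono_of_deriv {f f' : ℝ → ℝ} {a b : ℝ} (hab : a ≤ b) (hc : ContinuousOn f (Icc a b))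
    (hd : ∀ t ∈ Ioo a b, HasDerivAt f (f' t) t) (h0 : ∀ t ∈ Ioo a b, 0 ≤ f' t) : f a ≤ f b := by
  rcases hab.eq_or_lt with h | h
  · rw [h]
  obtain ⟨c, hc', h2⟩ := exists_hasDerivAt_eq_slope f f' h hc hd
  have := h0 c hc'
  rw [h2] at this
  have h3 := (div_nonneg_iff.1 this)
  rcases h3 with h3 | h3 <;> linarith [h3.1, h3.2]

theorem anti_of_deriv {f f' : ℝ → ℝ} {a b : ℝ} (hab : a ≤ b) (hc : ContinuousOn f (Icc a b))
    (hd : ∀ t ∈ Ioo a b, HasDerivAt f (f' t) t) (h0 : ∀ t ∈ Ioo a b, f' t ≤ 0) : f b ≤ f a := by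
  have := mono_of_deriv (f := fun t => -f t) (f' := fun t => -f' t) hab hc.neg
    (fun t ht => (hd t ht).neg) (fun t ht => by linarith [h0 t ht])
  linarith

theorem smono_of_deriv {f f' : ℝ → ℝ} {a b : ℝ} (hab : a < b) (hc : ContinuousOn f (Icc a b))
    (hd : ∀ t ∈ Ioo a b, HasDerivAt f (f' t) t) (h0 : ∀ t ∈ Ioo a b, 0 < f' t) : f a < f b := by
  obtain ⟨c, hc', h2⟩ := exists_hasDerivAt_eq_slope f f' hab hc hd
  have := h0 c hc'
  rw [h2] at this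
  have h3 := (div_pos_iff.1 this)
  rcases h3 with h3 | h3 <;> linarith [h3.1, h3.2]

theorem santi_of_deriv {f f' : ℝ → ℝ} {a b : ℝ} (hab : a < b) (hc : ContinuousOn f (Icc a b))
    (hd : ∀ t ∈ Ioo a b, HasDerivAt f (f' t) t) (h0 : ∀ t ∈ Ioo a b, f' t < 0) : f b < f a := by
  have := smono_of_deriv (f := fun t => -f t) (f' := fun t => -f' t) hab hc.neg
    (fun t ht => (hd t ht).neg) (fun t ht => by linarith [h0 t ht])
  linarith

/-- no zero on an interval gives a constant sign -/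
theorem pos_of_ne {f : ℝ → ℝ} {I : Set ℝ} (hI : IsPreconnected I) (hc : ContinuousOn f I)
    (hne : ∀ t ∈ I, f t ≠ 0) {t0 : ℝ} (h0 : t0 ∈ I) (hp : 0 < f t0) : ∀ t ∈ I, 0 < f t := by
  intro t ht
  by_contra hn
  push Not at hn
  obtain ⟨c, hc1, hc2⟩ := hI.intermediate_value ht h0 hc ⟨hn, hp.le⟩
  exact hne c hc1 hc2

theorem neg_of_ne {f : ℝ → ℝ} {I : Set ℝ} (hI : IsPreconnected I) (hc : ContinuousOn f I)
    (hne : ∀ t ∈ I, f t ≠ 0) {t0 : ℝ} (h0 : t0 ∈ I) (hp : f t0 < 0) : ∀ t ∈ I, f t < 0 := by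
  intro t ht
  have := pos_of_ne (f := fun t => -f t) hI hc.neg (fun t ht => by simpa using hne t ht) h0
    (by simpa using hp) t ht
  simpa using this

/-- first zero after `a` -/
theorem exists_first_zero {f : ℝ → ℝ} {a b : ℝ} (hab : a < b) (hc : ContinuousOn f (Icc a b))
    (hb : f b = 0) (ha : ∀ᶠ t in 𝓝[>] a, f t ≠ 0) :
    ∃ c ∈ Ioc a b, f c = 0 ∧ ∀ t ∈ Ioo a c, f t ≠ 0 := by
  obtain ⟨d, hd, hd2⟩ := (mem_nhdsGT_iff_exists_Ioo_subset' hab).1 ha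
  have hd' : a < d := hd
  have hdb : d ≤ b := by
    by_contra hn
    push Not at hn
    exact hd2 ⟨hab, hn⟩ hb
  have hcomp : IsCompact (Icc d b ∩ f ⁻¹' {0}) :=
    (isCompact_Icc.of_isClosed_subset
      ((hc.mono (Icc_subset_Icc_left hd'.le)).preimage_isClosed_of_isClosed isClosed_Icc
        isClosed_singleton) inter_subset_left)
  obtain ⟨c, hc1, hc2⟩ := hcomp.exists_isLeast ⟨b, ⟨hdb, le_rfl⟩, hb⟩
  refine ⟨c, ⟨lt_of_lt_of_le hd' hc1.1.1, hc1.1.2⟩, hc1.2, fun t ht h0 => ?_⟩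
  by_cases htd : t < d
  · exact hd2 ⟨ht.1, htd⟩ h0
  · push Not at htd
    have := hc2 ⟨⟨htd, ht.2.le.trans hc1.1.2⟩, h0⟩
    linarith [ht.2]

/-- Uniqueness for a linear system of two equations with continuous coefficients. -/
theorem lin_unique {f g A B C D : ℝ → ℝ} {a b t0 : ℝ} (h0 : t0 ∈ Ioo a b)
    (hf : ∀ t ∈ Ioo a b, HasDerivAt f (A t * f t + B t * g t) t)
    (hg : ∀ t ∈ Ioo a b, HasDerivAt g (C t * f t + D t * g t) t)
    (hA : ContinuousOn A (Ioo a b)) (hB : ContinuousOn B (Ioo a b))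
    (hC : ContinuousOn C (Ioo a b)) (hD : ContinuousOn D (Ioo a b))
    (f0 : f t0 = 0) (g0 : g t0 = 0) : ∀ t ∈ Ioo a b, f t = 0 ∧ g t = 0 := by
  intro t ht
  set lo := min t t0
  set hi := max t t0
  have hsub : Icc lo hi ⊆ Ioo a b := fun s hs =>
    ⟨lt_of_lt_of_le (lt_min ht.1 h0.1) hs.1, lt_of_le_of_lt hs.2 (max_lt ht.2 h0.2)⟩
  have hcont : ContinuousOn (fun s => |A s| + |B s| + |C s| + |D s|) (Icc lo hi) :=
    (((hA.abs.add hB.abs).add hC.abs).add hD.abs).mono hsub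
  obtain ⟨M, hM⟩ := isCompact_Icc.exists_bound_of_continuousOn hcont
  have hq : ∀ s ∈ Ioo a b, HasDerivAt (fun s => f s ^ 2 + g s ^ 2)
      (2 * f s * (A s * f s + B s * g s) + 2 * g s * (C s * f s + D s * g s)) s := fun s hs =>
    hd (((hf s hs).mul (hf s hs)).add ((hg s hs).mul (hg s hs))) (fun _ => by simp [sq])
      (by ring)
  have hb : ∀ s ∈ Icc lo hi, |2 * f s * (A s * f s + B s * g s) + 2 * g s * (C s * f s + D s * g s)|
      ≤ 2 * M * (f s ^ 2 + g s ^ 2) := by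
    intro s hs
    have h1 := hM s hs
    rw [Real.norm_eq_abs] at h1
    have h2 : |A s| + |B s| + |C s| + |D s| ≤ M := (le_abs_self _).trans h1
    have a1 := abs_le.1 (le_refl |A s|)
    have a2 := abs_le.1 (le_refl |B s|)
    have a3 := abs_le.1 (le_refl |C s|)
    have a4 := abs_le.1 (le_refl |D s|)
    have n1 := abs_nonneg (A s)
    have n2 := abs_nonneg (B s)
    have n3 := abs_nonneg (C s)
    have n4 := abs_nonneg (D s)
    have p1 := sq_nonneg (f s)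
    have p2 := sq_nonneg (g s)
    have p3 := sq_nonneg (f s - g s)
    have p4 := sq_nonneg (f s + g s)
    have hM2 : (|A s| + |B s| + |C s| + |D s|) * (f s ^ 2 + g s ^ 2) ≤ M * (f s ^ 2 + g s ^ 2) :=
      mul_le_mul_of_nonneg_right h2 (by positivity)
    rw [abs_le]
    constructor
    · nlinarith [mul_nonneg (sub_nonneg.2 a1.1) p1, mul_nonneg (sub_nonneg.2 a4.1) p2,
        mul_nonneg (sub_nonneg.2 a2.1) p4, mul_nonneg (sub_nonneg.2 a2.2) p3,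
        mul_nonneg (sub_nonneg.2 a3.1) p4, mul_nonneg (sub_nonneg.2 a3.2) p3,
        mul_nonneg n1 p2, mul_nonneg n4 p1, mul_nonneg n2 p1, mul_nonneg n2 p2,
        mul_nonneg n3 p1, mul_nonneg n3 p2]
    · nlinarith [mul_nonneg (sub_nonneg.2 a1.2) p1, mul_nonneg (sub_nonneg.2 a4.2) p2,
        mul_nonneg (sub_nonneg.2 a2.1) p3, mul_nonneg (sub_nonneg.2 a2.2) p4,
        mul_nonneg (sub_nonneg.2 a3.1) p3, mul_nonneg (sub_nonneg.2 a3.2) p4,
        mul_nonneg n1 p2, mul_nonneg n4 p1, mul_nonneg n2 p1, mul_nonneg n2 p2,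
        mul_nonneg n3 p1, mul_nonneg n3 p2]
  have hqc : ∀ m : ℝ, ContinuousOn (fun s => (f s ^ 2 + g s ^ 2) * exp (m * s)) (Icc lo hi) :=
    fun m s hs => (((hq s (hsub hs)).continuousAt.mul (by fun_prop))).continuousWithinAt
  have hqd : ∀ m : ℝ, ∀ s ∈ Ioo a b, HasDerivAt (fun s => (f s ^ 2 + g s ^ 2) * exp (m * s))
      ((2 * f s * (A s * f s + B s * g s) + 2 * g s * (C s * f s + D s * g s)
        + m * (f s ^ 2 + g s ^ 2)) * exp (m * s)) s := fun m s hs =>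
    hd ((hq s hs).mul (((hasDerivAt_id s).const_mul m).exp)) (fun _ => rfl)
      (by simp only [id]; ring)
  have key : f t ^ 2 + g t ^ 2 ≤ 0 := by
    rcases le_total t t0 with h | h
    · have hlo : lo = t := min_eq_left h
      have hhi : hi = t0 := max_eq_right h
      rw [hlo, hhi] at hb hqc hsub
      have := mono_of_deriv h (hqc (2 * M)) (fun s hs => hqd (2 * M) s (hsub (Ioo_subset_Icc_self hs)))
        (fun s hs => mul_nonneg (by linarith [(abs_le.1 (hb s (Ioo_subset_Icc_self hs))).1])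
          (exp_pos _).le)
      simp only [f0, g0] at this
      have he := exp_pos (2 * M * t)
      nlinarith
    · have hlo : lo = t0 := min_eq_right h
      have hhi : hi = t := max_eq_left h
      rw [hlo, hhi] at hb hqc hsub
      have := anti_of_deriv h (hqc (-(2 * M)))
        (fun s hs => hqd (-(2 * M)) s (hsub (Ioo_subset_Icc_self hs)))
        (fun s hs => mul_nonpos_of_nonpos_of_nonneg
          (by linarith [(abs_le.1 (hb s (Ioo_subset_Icc_self hs))).2]) (exp_pos _).le)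
      simp only [f0, g0] at this
      have he := exp_pos (-(2 * M) * t)
      nlinarith
  constructor <;> nlinarith [sq_nonneg (f t), sq_nonneg (g t)]

/-- a continuous function vanishing on `(a,b)` vanishes on `[a,b]` -/
theorem zero_of_Ioo {f : ℝ → ℝ} {a b : ℝ} (hab : a < b) (hc : ContinuousOn f (Icc a b))
    (h : ∀ t ∈ Ioo a b, f t = 0) : ∀ t ∈ Icc a b, f t = 0 := by
  have : EqOn f (fun _ => (0 : ℝ)) (Icc a b) :=
    EqOn.of_subset_closure (s := Ioo a b) h hc continuousOn_const Ioo_subset_Icc_self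
      (by rw [closure_Ioo hab.ne])
  exact this

namespace Crv.Prof

variable {γ : Crv} {L : ℝ}

theorem cI (_h : γ.Prof L) {f : ℝ → ℝ} (hf : ContinuousOn f (Icc 0 L)) :
    ContinuousOn f (Ioo 0 L) := hf.mono Ioo_subset_Icc_self

/-- touching the circle tangentially forces the circle -/
theorem circle (h : γ.Prof L) {t0 : ℝ} (h0 : t0 ∈ Ioo 0 L) (hv : γ.v t0 = 0) (hz : γ.z t0 = 6) :
    ∀ t ∈ Icc 0 L, γ.z t = 6 := by
  have key := lin_unique (f := γ.V) (g := γ.G) (A := fun _ => 0) (B := γ.w)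
    (C := fun t => -(γ.w t)⁻¹) (D := fun _ => 0) h0
    (fun t ht => hd (h.sol t ht).dV (fun _ => rfl) (by ring))
    (fun t ht => hd (h.sol t ht).dG (fun _ => rfl) (by
      have := (h.sol t ht).w_pos.ne'
      unfold V; field_simp; ring))
    continuousOn_const (h.cI h.cw) ((h.cI h.cw).inv₀ (fun t ht => (h.sol t ht).w_pos.ne')).neg
    continuousOn_const (by unfold V; rw [hv]; ring) (by unfold G; rw [hz]; ring)
  have := zero_of_Ioo h.hL h.cG (fun t ht => (key t ht).2)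
  intro t ht
  have := this t ht
  unfold G at this; linarith

/-- a radial tangent never occurs on the diagonal -/
theorem diag (h : γ.Prof L) {t0 : ℝ} (h0 : t0 ∈ Ioo 0 L) (hu : γ.u t0 = 0) :
    γ.x t0 ≠ γ.y t0 := by
  intro hxy
  have key := lin_unique (f := fun t => γ.w t * γ.u t) (g := fun t => γ.x t - γ.y t)
    (A := fun _ => 0) (B := fun t => γ.E t * (γ.x t + γ.y t))
    (C := fun t => -(γ.w t * γ.x t)⁻¹) (D := fun t => γ.c t * (γ.x t)⁻¹) h0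
    (fun t ht => hd (h.sol t ht).dwu (fun _ => rfl) (by ring))
    (fun t ht => hd ((h.sol t ht).dx.sub (h.sol t ht).dy) (fun _ => rfl) (by
      have := (h.sol t ht).w_pos.ne'
      have := (h.sol t ht).px.ne'
      unfold u; field_simp; ring))
    continuousOn_const (h.cI (h.cE.mul (h.cx.add h.cy)))
    ((h.cI (h.cw.mul h.cx)).inv₀
      (fun t ht => (mul_pos (h.sol t ht).w_pos (h.sol t ht).px).ne')).neg
    ((h.cI h.cc).mul ((h.cI h.cx).inv₀ (fun t ht => (h.sol t ht).px.ne')))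
    (by simp [hu]) (by simp [hxy])
  have := zero_of_Ioo h.hL (h.cx.sub h.cy) (fun t ht => (key t ht).2) 0 ⟨le_rfl, h.hL.le⟩
  simp only [Pi.sub_apply, h.y0] at this
  linarith [h.x0]

/-- no vertical tangent on the line `x = √2` -/
theorem lineX (h : γ.Prof L) {t0 : ℝ} (h0 : t0 ∈ Ioo 0 L) (hc : γ.c t0 = 0) :
    γ.x t0 ^ 2 ≠ 2 := by
  intro hx
  have key := lin_unique (f := γ.c) (g := fun t => γ.x t ^ 2 - 2)
    (A := fun t => γ.s t * (γ.y t / 2 - (γ.y t)⁻¹)) (B := fun t => -(γ.s t ^ 2 / 2 * (γ.x t)⁻¹))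
    (C := fun t => 2 * γ.x t) (D := fun _ => 0) h0
    (fun t ht => hd (h.sol t ht).dc (fun _ => rfl) (by
      have := (h.sol t ht).py.ne'
      have := (h.sol t ht).px.ne'
      unfold k; field_simp; ring))
    (fun t ht => hd ((h.sol t ht).dx2.sub_const 2) (fun _ => rfl) (by ring))
    ((h.cI h.cs').mul (((h.cI h.cy).div_const 2).sub
      ((h.cI h.cy).inv₀ (fun t ht => (h.sol t ht).py.ne'))))
    ((((h.cI h.cs').pow 2).div_const 2).mul
      ((h.cI h.cx).inv₀ (fun t ht => (h.sol t ht).px.ne'))).neg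
    (continuousOn_const.mul (h.cI h.cx)) continuousOn_const hc (by simp [hx])
  have := zero_of_Ioo h.hL h.cc (fun t ht => (key t ht).1) L ⟨h.hL.le, le_rfl⟩
  rw [h.cL] at this
  norm_num at this

/-- no horizontal tangent on the line `y = √2` -/
theorem lineY (h : γ.Prof L) {t0 : ℝ} (h0 : t0 ∈ Ioo 0 L) (hs : γ.s t0 = 0) :
    γ.y t0 ^ 2 ≠ 2 := by
  have := h.mir.lineX (t0 := L - t0) ⟨by linarith [h0.2], by linarith [h0.1]⟩
    (by rw [mir_c, sub_sub_cancel, hs]; ring)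
  rwa [mir_x, sub_sub_cancel] at this

end Crv.Prof

/-- the unbundled interface gives the bundled one -/
theorem Prof.crv {L : ℝ} {x y c s : ℝ → ℝ} (h : Prof L x y c s) :
    (⟨x, y, c, s⟩ : Crv).Prof L := by
  have hk : ∀ t, (⟨x, y, c, s⟩ : Crv).k t = kap (x t) (y t) (c t) (s t) := fun t => by
    unfold Crv.k kap; ring
  refine ⟨h.L_pos, h.cx, h.cy, h.cc, h.cs, fun t ht => ⟨h.dx t ht, h.dy t ht, ?_, ?_,
    h.unit t (Ioo_subset_Icc_self ht), (h.pos t ht).1, (h.pos t ht).2⟩, h.y0, h.xL, h.x0, h.yL,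
    h.c0, h.s0, h.cL, h.sL, h.inj⟩
  · exact hd (h.dc t ht) (fun _ => rfl) (by rw [hk]; ring)
  · exact hd (h.ds t ht) (fun _ => rfl) (by rw [hk])

end Pool.Agent.MP_48470b_gt
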