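import Pool.Agent.MP_48470b_gt.Final1

/-! With `v > 0` there is no radial tangent. -/

set_option autoImplicit false

open Real Set Filter Topology

namespace Pool.Agent.MP_48470b_gt

namespace Crv

variable (γ : Crv)

noncomputable def qq (t : ℝ) : ℝ := γ.V t ^ 2 / (γ.E t ^ 2 * γ.z t ^ 3)
noncomputable def FF (t : ℝ) : ℝ := γ.E t ^ 2 * γ.z t ^ 3 - 4 * γ.V t ^ 2

variable {γ}

theorem Sol.dEz {t : ℝ} (h : γ.Sol t) : HasDerivAt (fun t => γ.E t ^ 2 * γ.z t ^ 3)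
    (2 * γ.v t * γ.E t ^ 2 * γ.z t ^ 2 * γ.G t) t :=
  hd ((h.dE.mul h.dE).mul ((h.dz.mul h.dz).mul h.dz)) (fun _ => by simp only [Pi.mul_apply]; ring)
    (by simp only [Pi.mul_apply]; unfold G; ring)

theorem Sol.dV2 {t : ℝ} (h : γ.Sol t) : HasDerivAt (fun t => γ.V t ^ 2)
    (2 * γ.V t * (γ.w t * γ.G t)) t :=
  hd (h.dV.mul h.dV) (fun _ => by simp only [Pi.mul_apply]; ring) (by ring)

theorem Sol.dqq {t : ℝ} (h : γ.Sol t) : HasDerivAt γ.qq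
    ((2 * γ.G t * γ.E t ^ 2 * γ.z t ^ 2 * γ.w t ^ 2 * γ.v t * γ.u t ^ 2)
      / (γ.E t ^ 2 * γ.z t ^ 3) ^ 2) t := by
  have hz := h.z_pos
  have hE := γ.E_pos t
  refine hd (h.dV2.div h.dEz (by positivity)) (fun _ => rfl) ?_
  congr 1
  have huv := h.uv
  unfold V
  linear_combination (2 * γ.G t * γ.E t ^ 2 * γ.z t ^ 2 * γ.w t ^ 2 * γ.v t) * huv

theorem Sol.dFF {t : ℝ} (h : γ.Sol t) : HasDerivAt γ.FF
    (2 * γ.v t * γ.G t * γ.E t ^ 2 * (γ.x t ^ 2 - γ.y t ^ 2) ^ 2) t :=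
  hd (h.dEz.sub (h.dV2.const_mul 4)) (fun _ => rfl) (by unfold V w z; ring)

theorem Sol.qq_eq {t : ℝ} (h : γ.Sol t) :
    γ.qq t * γ.z t ^ 3 = (γ.x t * γ.y t * γ.v t) ^ 2 := by
  have hz := h.z_pos.ne'
  have hE := (γ.E_pos t).ne'
  unfold qq V w
  field_simp

theorem Sol.FF_eq {t : ℝ} (h : γ.Sol t) :
    γ.FF t = exp (-γ.z t / 2) * γ.z t ^ 3 * (1 - 4 * γ.qq t) := by
  have hz := h.z_pos.ne'
  have hE := (γ.E_pos t).ne'
  have h1 : exp (-γ.z t / 2) = γ.E t ^ 2 := by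
    unfold E; rw [sq, ← exp_add]; congr 1; ring
  rw [h1]
  unfold FF qq
  field_simp

end Crv

theorem lam_le (z : ℝ) (hz : 0 < z) : exp (-z / 2) * z ^ 3 ≤ exp (-3) * 216 := by
  have h1 : z / 6 ≤ exp ((z - 6) / 6) := by linarith [add_one_le_exp ((z - 6) / 6)]
  have h2 : (z / 6) ^ 3 ≤ exp ((z - 6) / 6) ^ 3 := pow_le_pow_left₀ (by positivity) h1 3
  rw [← exp_nat_mul] at h2
  have h3 : exp (-z / 2) * exp (((3 : ℕ) : ℝ) * ((z - 6) / 6)) = exp (-3) := by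
    rw [← exp_add]; congr 1; push_cast; ring
  have h4 := exp_pos (-z / 2)
  nlinarith [mul_le_mul_of_nonneg_left h2 h4.le]

theorem lam_ge (z : ℝ) (h6 : 6 ≤ z) (h12 : z ≤ 12) : exp (-6) * 1728 ≤ exp (-z / 2) * z ^ 3 := by
  have hz : 0 < z := by linarith
  have h1 : 12 / z ≤ exp ((12 - z) / 6) := by
    have h0 : 12 / z ≤ 1 + (12 - z) / 6 := by
      rw [div_le_iff₀ hz]; nlinarith
    linarith [add_one_le_exp ((12 - z) / 6)]
  have h2 : (12 / z) ^ 3 ≤ exp ((12 - z) / 6) ^ 3 := pow_le_pow_left₀ (by positivity) h1 3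
  rw [← exp_nat_mul, div_pow, div_le_iff₀ (by positivity)] at h2
  have h3 : exp (-6) * exp (((3 : ℕ) : ℝ) * ((12 - z) / 6)) = exp (-z / 2) := by
    rw [← exp_add]; congr 1; push_cast; ring
  have h4 := exp_pos (-6)
  have h5 := mul_le_mul_of_nonneg_left h2 h4.le
  rw [← mul_assoc, h3] at h5
  linarith

theorem exp_three_lt : exp 3 < 21 := by
  have h1 : exp 3 = exp 1 ^ 3 := by rw [← exp_nat_mul]; norm_num
  have h2 := exp_one_lt_d9
  have h3 : exp 1 ^ 3 < (2.7182818286 : ℝ) ^ 3 :=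
    pow_lt_pow_left₀ h2 (exp_pos 1).le (by norm_num)
  rw [h1]; refine h3.trans (by norm_num)

/-- the algebraic inequality of step (c) -/
theorem stepc {x y c s : ℝ} (hx : 0 < x) (hy : 0 < y) (hc : 0 ≤ c) (hs : 0 ≤ s)
    (hcs : c ^ 2 + s ^ 2 = 1) (hz : 6 ≤ x ^ 2 + y ^ 2) (hM : y * c ≤ 31 / 45) :
    (x * y * (x * c + y * s)) ^ 2 < 2 / 9 * (x ^ 2 + y ^ 2) ^ 3 := by
  obtain ⟨r, hr0, hr⟩ : ∃ r : ℝ, 0 < r ∧ r ^ 2 = x ^ 2 + y ^ 2 :=
    ⟨√(x ^ 2 + y ^ 2), by positivity, sq_sqrt (by positivity)⟩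
  have hr1 : 2.449 ≤ r := by nlinarith
  set M := y * c with hMdef
  have hM0 : 0 ≤ M := by positivity
  have hM1 : M ≤ 0.2813 * r := by nlinarith
  have h1 : y * (y * s) ≤ y ^ 2 - M ^ 2 / 2 := by
    have : (y * s) ^ 2 = y ^ 2 - M ^ 2 := by rw [hMdef]; linear_combination (y ^ 2) * hcs
    nlinarith [sq_nonneg (y - y * s)]
  have hxr : x ≤ r := by nlinarith
  have h2 : x * y * (x * c + y * s) ≤ x * (x * M + (r ^ 2 - x ^ 2) - M ^ 2 / 2) := by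
    have : x * y * (x * c + y * s) = x * (x * M + y * (y * s)) := by rw [hMdef]; ring
    rw [this]
    apply mul_le_mul_of_nonneg_left _ hx.le
    linarith
  have h3 : x * (x * M + (r ^ 2 - x ^ 2) - M ^ 2 / 2) ≤ 0.4713 * r ^ 3 := by
    rcases le_total x (0.2813 * r) with h | h
    · have a1 : x * M ≤ (0.2813 * r) * (0.2813 * r) := mul_le_mul h hM1 hM0 (by positivity)
      have a2 : x * M + (r ^ 2 - x ^ 2) - M ^ 2 / 2 ≤ 1.1 * r ^ 2 := by nlinarith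
      have a3 : x * (x * M + (r ^ 2 - x ^ 2) - M ^ 2 / 2) ≤ x * (1.1 * r ^ 2) :=
        mul_le_mul_of_nonneg_left a2 hx.le
      have a4 : x * (1.1 * r ^ 2) ≤ (0.2813 * r) * (1.1 * r ^ 2) :=
        mul_le_mul_of_nonneg_right h (by positivity)
      have a5 : 0 < r ^ 3 := by positivity
      nlinarith
    · have a1 : x * M - M ^ 2 / 2 ≤ x * (0.2813 * r) - (0.2813 * r) ^ 2 / 2 := by
        nlinarith [mul_nonneg (sub_nonneg.2 hM1) (show 0 ≤ x - (0.2813 * r + M) / 2 by linarith)]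
      have a3 : x * (x * M + (r ^ 2 - x ^ 2) - M ^ 2 / 2)
          ≤ x * (x * (0.2813 * r) - (0.2813 * r) ^ 2 / 2 + (r ^ 2 - x ^ 2)) :=
        mul_le_mul_of_nonneg_left (by linarith) hx.le
      have a4 : 0 ≤ (x - 2 / 3 * r) ^ 2 * (x + 1.052 * r) := by positivity
      have a5 : 0 ≤ r ^ 2 * (r - x) := mul_nonneg (by positivity) (by linarith)
      have a6 : 0 ≤ r * x * (r - x) := mul_nonneg (by positivity) (by linarith)
      have a7 : 0 < r ^ 3 := by positivity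
      nlinarith
  have h4 : 0 ≤ x * y * (x * c + y * s) := by positivity
  have h5 : (x * y * (x * c + y * s)) ^ 2 ≤ (0.4713 * r ^ 3) ^ 2 :=
    pow_le_pow_left₀ h4 (h2.trans h3) 2
  rw [← hr]
  have h6 : 0 < r ^ 6 := by positivity
  nlinarith

/-- the algebraic inequality of step (b) -/
theorem stepb {x y c s : ℝ} (hx1 : 3 / 2 ≤ x) (hx2 : x ≤ 9 / 5) (hy : 2.95 ≤ y) (hc : c ≤ 0)
    (hn : (x ^ 2 / 2 - 2) * y * s - (y ^ 2 / 2 - 1) * x * c ≤ 0) :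
    0 ≤ ((x ^ 2 / 2 - 1) * y * s - (y ^ 2 / 2 - 1) * x * c) / (x * y)
      + 1.136 * (1.56 + 4 * (x - 1.65)) * c := by
  have hx : 0 < x := by linarith
  have hy0 : 0 < y := by linarith
  have hd : 0 < 2 - x ^ 2 / 2 := by nlinarith
  have hY : 1.136 * y ≤ y ^ 2 / 2 - 1 := by nlinarith
  have hl : (1.56 + 4 * (x - 1.65)) * (2 - x ^ 2 / 2) ≤ 1 := by
    nlinarith [mul_nonneg (sub_nonneg.2 hx1) (sub_nonneg.2 hx2), sq_nonneg (x - 1.65),
      mul_nonneg (sub_nonneg.2 hx1) (sq_nonneg (x - 1.65))]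
  have hc' : 0 ≤ -c := by linarith
  have h1 : (y ^ 2 / 2 - 1) * x * (-c)
      ≤ ((x ^ 2 / 2 - 1) * y * s - (y ^ 2 / 2 - 1) * x * c) * (2 - x ^ 2 / 2) := by
    have hp : 0 ≤ x ^ 2 / 2 - 1 := by nlinarith
    nlinarith [mul_nonneg hp (neg_nonneg.2 hn)]
  have h2 : 1.136 * y * x * (-c) ≤ (y ^ 2 / 2 - 1) * x * (-c) := by
    have : 0 ≤ x * (-c) := by positivity
    nlinarith
  have h3 : 1.136 * (1.56 + 4 * (x - 1.65)) * (-c) * (x * y) * (2 - x ^ 2 / 2)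
      ≤ 1.136 * y * x * (-c) := by
    have : 0 ≤ 1.136 * y * x * (-c) := by positivity
    nlinarith
  have h4 : 1.136 * (1.56 + 4 * (x - 1.65)) * (-c) * (x * y)
      ≤ (x ^ 2 / 2 - 1) * y * s - (y ^ 2 / 2 - 1) * x * c :=
    le_of_mul_le_mul_right (by linarith) hd
  have h5 : 1.136 * (1.56 + 4 * (x - 1.65)) * (-c)
      ≤ ((x ^ 2 / 2 - 1) * y * s - (y ^ 2 / 2 - 1) * x * c) / (x * y) := by
    rw [le_div_iff₀ (by positivity)]; exact h4
  linarith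

theorem arctan_le_self' {t : ℝ} (ht : 0 ≤ t) : arctan t ≤ t := by
  have := le_tan (arctan_nonneg.2 ht) (arctan_lt_pi_div_two t)
  rwa [tan_arctan] at this

namespace Crv.Prof

variable {γ : Crv} {L : ℝ}

/-- step (b) -/
theorem after_max (h : γ.Prof L) (hv : ∀ t ∈ Ioo 0 L, 0 < γ.v t) {T : ℝ} (hT : T ∈ Ioo 0 L)
    (hc : γ.c T = 0) (hz : 12 < γ.z T) : γ.x T ≤ 9 / 5 := by
  by_contra hn
  push Not at hn
  have hL : L ∈ Icc 0 L := ⟨h.hL.le, le_rfl⟩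
  have hT' := Ioo_subset_Icc_self hT
  have hcs := h.c_stay hv hT hc.le
  have hanti : ∀ a ∈ Icc T L, ∀ b ∈ Icc T L, a ≤ b → γ.x b ≤ γ.x a := fun a ha b hb hab =>
    anti_of_deriv hab (h.cx.mono (Icc_subset_Icc (hT'.1.trans ha.1) hb.2))
      (fun t ht => (h.sol t ⟨lt_of_lt_of_le hT.1 (ha.1.trans ht.1.le), lt_of_lt_of_le ht.2 hb.2⟩).dx)
      (fun t ht => hcs t ⟨ha.1.trans ht.1.le, ht.2.le.trans hb.2⟩)
  obtain ⟨t1, ht1, hx1⟩ := intermediate_value_Icc' hT.2.le (h.cx.mono (h.sub_Icc hT' hL))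
    (show (9 / 5 : ℝ) ∈ Icc (γ.x L) (γ.x T) by rw [h.xL]; exact ⟨by norm_num, hn.le⟩)
  have ht1' : t1 ∈ Icc 0 L := h.sub_Icc hT' hL ht1
  obtain ⟨t2, ht2, hx2⟩ := intermediate_value_Icc' ht1.2 (h.cx.mono (h.sub_Icc ht1' hL))
    (show (3 / 2 : ℝ) ∈ Icc (γ.x L) (γ.x t1) by rw [h.xL, hx1]; norm_num)
  have ht2L : t2 < L := lt_of_le_of_ne ht2.2 (fun h0 => by rw [h0, h.xL] at hx2; norm_num at hx2)
  have hI : ∀ t ∈ Icc t1 t2, t ∈ Ioo 0 L := fun t ht =>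
    ⟨lt_of_lt_of_le hT.1 (ht1.1.trans ht.1), lt_of_le_of_lt ht.2 ht2L⟩
  have hI2 : ∀ t ∈ Icc t1 t2, t ∈ Icc T L := fun t ht => ⟨ht1.1.trans ht.1, ht.2.trans ht2.2⟩
  have hxr : ∀ t ∈ Icc t1 t2, 3 / 2 ≤ γ.x t ∧ γ.x t ≤ 9 / 5 := fun t ht =>
    ⟨hx2 ▸ hanti t (hI2 t ht) t2 ⟨ht1.1.trans ht2.1, ht2.2⟩ ht.2,
      hx1 ▸ hanti t1 ht1 t (hI2 t ht) ht.1⟩
  have hyr : ∀ t ∈ Icc t1 t2, 2.95 ≤ γ.y t := fun t ht => by
    have h1 := h.z_le hv hT' (Ioo_subset_Icc_self (hI t ht)) (hI2 t ht).1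
    have h2 := hxr t ht
    have h3 := (h.sol t (hI t ht)).py
    unfold z at h1 hz
    nlinarith
  have hder : ∀ t ∈ Icc t1 t2, HasDerivAt
      (fun t => arctan (-γ.c t / γ.s t) + 1.136 * (1.56 * γ.x t + 2 * (γ.x t - 1.65) ^ 2))
      (γ.k t + 1.136 * (1.56 + 4 * (γ.x t - 1.65)) * γ.c t) t := fun t ht => by
    have hS := h.sol t (hI t ht)
    have hs := h.s_pos hv (hI t ht)
    refine hd ((hS.dc.neg.div hS.ds hs.ne').arctan.add (((hS.dx.const_mul 1.56).add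
      (((hS.dx.sub_const 1.65).mul (hS.dx.sub_const 1.65)).const_mul 2)).const_mul 1.136))
      (fun _ => by simp only [Pi.add_apply, Pi.mul_apply, Pi.div_apply, Pi.neg_apply]; ring) ?_
    simp only [Pi.div_apply, Pi.neg_apply]
    have hcs := hS.cs
    have e1 : 1 + (-γ.c t / γ.s t) ^ 2 = 1 / γ.s t ^ 2 := by
      field_simp; linarith
    rw [e1]
    field_simp
    linear_combination (-γ.k t) * hcs
  have hmono := mono_of_deriv ht2.1 (fun t ht => (hder t ht).continuousAt.continuousWithinAt)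
    (fun t ht => hder t (Ioo_subset_Icc_self ht)) (fun t ht => by
      have ht' := Ioo_subset_Icc_self ht
      have := stepb (hxr t ht').1 (hxr t ht').2 (hyr t ht') (hcs t (hI2 t ht'))
        (h.n1_nonpos hv (hI t ht'))
      rw [(h.sol t (hI t ht')).k_eq]
      exact this)
  have m1 : t1 ∈ Icc t1 t2 := ⟨le_rfl, ht2.1⟩
  have m2 : t2 ∈ Icc t1 t2 := ⟨ht2.1, le_rfl⟩
  have b1 : 0 ≤ arctan (-γ.c t1 / γ.s t1) :=
    arctan_nonneg.2 (div_nonneg (by linarith [hcs t1 ht1]) (h.s_pos hv (hI t1 m1)).le)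
  have hs2 := h.s_pos hv (hI t2 m2)
  have hc2 := hcs t2 (hI2 t2 m2)
  have b2 : arctan (-γ.c t2 / γ.s t2) ≤ -γ.c t2 / γ.s t2 :=
    arctan_le_self' (div_nonneg (by linarith) hs2.le)
  have b3 : -γ.c t2 / γ.s t2 ≤ 0.52 := by
    rw [div_le_iff₀ hs2]
    have h1 := h.n1_nonpos hv (hI t2 m2)
    unfold n1 at h1
    rw [hx2] at h1
    have hy := hyr t2 m2
    have hY : 1.136 * γ.y t2 ≤ γ.y t2 ^ 2 / 2 - 1 := by nlinarith
    have h2 : 1.136 * γ.y t2 * (-γ.c t2) ≤ (γ.y t2 ^ 2 / 2 - 1) * (-γ.c t2) :=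
      mul_le_mul_of_nonneg_right hY (by linarith)
    have h3 : γ.y t2 * (1.704 * (-γ.c t2)) ≤ γ.y t2 * (0.875 * γ.s t2) := by nlinarith
    have h4 := le_of_mul_le_mul_left h3 (by linarith)
    linarith
  simp only [hx1, hx2] at hmono
  norm_num at hmono
  linarith

/-- With `v > 0` there is no radial tangent. -/
theorem final (h : γ.Prof L) (hv : ∀ t ∈ Ioo 0 L, 0 < γ.v t) :
    ∀ P ∈ Ioo 0 L, γ.u P ≠ 0 := by
  intro P hP hu
  have hL : L ∈ Icc 0 L := ⟨h.hL.le, le_rfl⟩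
  have hP' := Ioo_subset_Icc_self hP
  have hS := h.sol P hP
  have hsP := h.s_pos hv hP
  have hcP : 0 < γ.c P := by
    have h1 := hS.px
    have h2 := hS.py
    unfold u at hu
    by_contra hn
    push Not at hn
    nlinarith [mul_pos h1 hsP, mul_nonneg h2.le (neg_nonneg.2 hn)]
  -- the value of `qq` at `P`
  have hqP : 2 / 9 ≤ γ.qq P := by
    have h1 := h.n1_nonpos hv hP
    have h2 := h.n2_nonneg hv hP
    have hx := hS.px
    have hy := hS.py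
    have hz := hS.z_pos
    have e0 : γ.x P * γ.s P = γ.y P * γ.c P := by unfold u at hu; linarith
    have e1 : γ.x P * γ.n1 P = γ.c P * (γ.x P ^ 2 - 2 * γ.y P ^ 2) := by
      unfold n1; linear_combination ((γ.x P ^ 2 / 2 - 2) * γ.y P) * e0
    have e2 : γ.x P * γ.n2 P = γ.c P * (2 * γ.x P ^ 2 - γ.y P ^ 2) := by
      unfold n2; linear_combination ((γ.x P ^ 2 / 2 - 1) * γ.y P) * e0
    have f1 : γ.x P ^ 2 - 2 * γ.y P ^ 2 ≤ 0 := by
      by_contra hn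
      push Not at hn
      nlinarith [mul_pos hcP hn, mul_nonneg hx.le (neg_nonneg.2 h1)]
    have f2 : 0 ≤ 2 * γ.x P ^ 2 - γ.y P ^ 2 := by
      by_contra hn
      push Not at hn
      nlinarith [mul_pos hcP (neg_pos.2 hn), mul_nonneg hx.le h2]
    have e3 : γ.v P ^ 2 = γ.z P := by have := hS.uv; rw [hu] at this; linarith
    have e4 := hS.qq_eq
    have e5 : 2 / 9 * γ.z P ^ 3 ≤ (γ.x P * γ.y P * γ.v P) ^ 2 := by
      rw [mul_pow, e3]
      have : 2 / 9 * γ.z P ^ 2 ≤ (γ.x P * γ.y P) ^ 2 := by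
        unfold z; nlinarith [mul_nonneg f2 (neg_nonneg.2 f1)]
      nlinarith
    rw [← e4] at e5
    exact le_of_mul_le_mul_right e5 (by positivity)
  -- the first vertical tangent after `P`
  obtain ⟨T0, hT0, hc0⟩ := intermediate_value_Icc' hP.2.le (h.cc.mono (h.sub_Icc hP' hL))
    (show (0 : ℝ) ∈ Icc (γ.c L) (γ.c P) by rw [h.cL]; exact ⟨by norm_num, hcP.le⟩)
  have hPT0 : P < T0 := lt_of_le_of_ne hT0.1 (fun h0 => by rw [← h0] at hc0; linarith)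
  obtain ⟨T, hT1, hcT, hT2⟩ := exists_first_zero hPT0
    (h.cc.mono (h.sub_Icc hP' (h.sub_Icc hP' hL hT0))) hc0
    ((hS.dc.continuousAt.eventually_ne hcP.ne').filter_mono nhdsWithin_le_nhds)
  have hT : T ∈ Ioo 0 L := ⟨hP.1.trans hT1.1, lt_of_le_of_ne (hT1.2.trans hT0.2)
    (fun h0 => by rw [h0, h.cL] at hcT; norm_num at hcT)⟩
  have hT' := Ioo_subset_Icc_self hT
  have hI : ∀ t ∈ Icc P T, t ∈ Ioo 0 L := fun t ht =>
    ⟨lt_of_lt_of_le hP.1 ht.1, lt_of_le_of_lt ht.2 hT.2⟩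
  have hcpos : ∀ t ∈ Ico P T, 0 < γ.c t :=
    pos_of_ne isPreconnected_Ico
      (h.cc.mono (fun t ht => Ioo_subset_Icc_self (hI t (Ico_subset_Icc_self ht))))
      (fun t ht => by
        rcases ht.1.eq_or_lt with h0 | h0
        · rw [← h0]; exact hcP.ne'
        · exact hT2 t ⟨h0, ht.2⟩) ⟨le_rfl, hT1.1⟩ hcP
  have hST := h.sol T hT
  obtain ⟨hsT, hxT⟩ := h.vert hv hT hcT
  have hqT : γ.qq T ≤ 4 / 27 := by
    have e4 := hST.qq_eq
    have hz := hST.z_pos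
    have e5 : (γ.x T * γ.y T * γ.v T) ^ 2 ≤ 4 / 27 * γ.z T ^ 3 := by
      unfold v z
      rw [hcT, hsT]
      nlinarith [mul_nonneg (sq_nonneg (2 * γ.x T ^ 2 - γ.y T ^ 2))
        (show 0 ≤ γ.x T ^ 2 + 4 * γ.y T ^ 2 by positivity)]
    rw [← e4] at e5
    exact le_of_mul_le_mul_right e5 (by positivity)
  have hqmono : ∀ b ∈ Icc P T, γ.z b ≤ 6 → γ.qq P ≤ γ.qq b := fun b hb hzb =>
    mono_of_deriv hb.1
      (fun t ht => (h.sol t (hI t ⟨ht.1, ht.2.trans hb.2⟩)).dqq.continuousAt.continuousWithinAt)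
      (fun t ht => (h.sol t (hI t ⟨ht.1.le, ht.2.le.trans hb.2⟩)).dqq) (fun t ht => by
        have ht' := hI t ⟨ht.1.le, ht.2.le.trans hb.2⟩
        have h1 := h.z_le hv (Ioo_subset_Icc_self ht') (Ioo_subset_Icc_self (hI b hb)) ht.2.le
        have h2 : 0 ≤ γ.G t := by unfold G; linarith
        have h3 := hv t ht'
        positivity)
  have hzT : 6 < γ.z T := by
    by_contra hn
    push Not at hn
    linarith [hqmono T ⟨hT1.1.le, le_rfl⟩ hn]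
  obtain ⟨Q, hQ, hzQ, hqQ⟩ : ∃ Q ∈ Ico P T, 6 ≤ γ.z Q ∧ 2 / 9 ≤ γ.qq Q := by
    rcases le_total 6 (γ.z P) with h6 | h6
    · exact ⟨P, ⟨le_rfl, hT1.1⟩, h6, hqP⟩
    · obtain ⟨C, hC, hzC⟩ := intermediate_value_Icc hT1.1.le (h.cz.mono (h.sub_Icc hP' hT'))
        (show (6 : ℝ) ∈ Icc (γ.z P) (γ.z T) from ⟨h6, hzT.le⟩)
      refine ⟨C, ⟨hC.1, lt_of_le_of_ne hC.2 (fun h0 => by rw [h0] at hzC; linarith)⟩, hzC.ge,
        hqP.trans (hqmono C hC hzC.le)⟩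
  have hJ : ∀ t ∈ Icc Q T, t ∈ Ioo 0 L := fun t ht => hI t ⟨hQ.1.trans ht.1, ht.2⟩
  have hQ' := hJ Q ⟨le_rfl, hQ.2.le⟩
  have hSQ := h.sol Q hQ'
  -- step (a)
  have hz12 : 12 < γ.z T := by
    by_contra hn
    push Not at hn
    have h1 := anti_of_deriv hQ.2.le
      (fun t ht => (h.sol t (hJ t ht)).dFF.continuousAt.continuousWithinAt)
      (fun t ht => (h.sol t (hJ t (Ioo_subset_Icc_self ht))).dFF) (fun t ht => by
        have ht' := hJ t (Ioo_subset_Icc_self ht)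
        have h1 := h.z_le hv (Ioo_subset_Icc_self hQ') (Ioo_subset_Icc_self ht') ht.1.le
        have h2 : 0 ≤ -γ.G t := by unfold G; linarith
        have h3 := hv t ht'
        have : 0 ≤ 2 * γ.v t * (-γ.G t) * γ.E t ^ 2 * (γ.x t ^ 2 - γ.y t ^ 2) ^ 2 := by positivity
        linarith)
    rw [hST.FF_eq, hSQ.FF_eq] at h1
    have h2 := lam_ge _ hzT.le hn
    have h3 := lam_le _ hSQ.z_pos
    have h4 : exp (-6) * 1728 * (11 / 27) ≤ exp (-γ.z T / 2) * γ.z T ^ 3 * (1 - 4 * γ.qq T) :=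
      mul_le_mul h2 (by linarith) (by norm_num) (by have := hST.z_pos; positivity)
    have h5 : exp (-γ.z Q / 2) * γ.z Q ^ 3 * (1 - 4 * γ.qq Q) ≤ exp (-3) * 216 * (1 / 9) := by
      have := hSQ.z_pos
      calc _ ≤ exp (-γ.z Q / 2) * γ.z Q ^ 3 * (1 / 9) :=
            mul_le_mul_of_nonneg_left (by linarith) (by positivity)
        _ ≤ _ := mul_le_mul_of_nonneg_right h3 (by norm_num)
    have h6 : exp (-3 : ℝ) = exp (-6) * exp 3 := by rw [← exp_add]; norm_num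
    have h7 := exp_three_lt
    have h8 := exp_pos (-6 : ℝ)
    nlinarith
  -- step (b)
  have hx95 := h.after_max hv hT hcT hz12
  -- step (c)
  have hxle : ∀ t ∈ Icc Q T, γ.x t ≤ γ.x T := fun t ht =>
    mono_of_deriv ht.2 (h.cx.mono (h.sub_Icc (Ioo_subset_Icc_self (hJ t ht)) hT'))
      (fun s hs => (h.sol s (hJ s ⟨ht.1.trans hs.1.le, hs.2.le⟩)).dx)
      (fun s hs => (hcpos s ⟨hQ.1.trans (ht.1.trans hs.1.le), hs.2⟩).le)
  have hder : ∀ t ∈ Icc Q T, HasDerivAt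
      (fun t => exp (-(γ.y t ^ 2) / 4) * (γ.y t * γ.c t - 31 / 45))
      (exp (-(γ.y t ^ 2) / 4) * (γ.y t * γ.s t)
        * (31 / 90 - (γ.x t / 2 - 1 / γ.x t) * γ.s t)) t := fun t ht => by
    have hS := h.sol t (hJ t ht)
    refine hd ((hS.dy2.neg.div_const 4).exp.mul ((hS.dy.mul hS.dc).sub_const (31 / 45)))
      (fun _ => rfl) ?_
    simp only [Pi.mul_apply, Pi.neg_apply]
    have hy := hS.py.ne'
    unfold k
    field_simp
    ring
  have hmono := mono_of_deriv hQ.2.le (fun t ht => (hder t ht).continuousAt.continuousWithinAt)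
    (fun t ht => hder t (Ioo_subset_Icc_self ht)) (fun t ht => by
      have ht' := Ioo_subset_Icc_self ht
      have hS := h.sol t (hJ t ht')
      have hs := h.s_pos hv (hJ t ht')
      have hx := hS.px
      have hy := hS.py
      have hs1 : γ.s t ≤ 1 := by nlinarith [hS.cs, sq_nonneg (γ.c t)]
      have hx2 : γ.x t ≤ 9 / 5 := (hxle t ht').trans hx95
      have hX : γ.x t / 2 - 1 / γ.x t ≤ 31 / 90 := by
        have : 5 / 9 ≤ 1 / γ.x t := by rw [le_div_iff₀ hx]; linarith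
        linarith
      have : 0 ≤ 31 / 90 - (γ.x t / 2 - 1 / γ.x t) * γ.s t := by nlinarith
      positivity)
  simp only [hcT] at hmono
  have hM : γ.y Q * γ.c Q ≤ 31 / 45 := by
    by_contra hn
    push Not at hn
    have h1 := exp_pos (-(γ.y Q ^ 2) / 4)
    have h2 := exp_pos (-(γ.y T ^ 2) / 4)
    nlinarith [mul_pos h1 (sub_pos.2 hn)]
  have hfin := stepc hSQ.px hSQ.py (hcpos Q hQ).le (h.s_pos hv hQ').le hSQ.cs hzQ hM
  have e4 := hSQ.qq_eq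
  have hz := hSQ.z_pos
  have e5 : 2 / 9 * γ.z Q ^ 3 ≤ γ.qq Q * γ.z Q ^ 3 :=
    mul_le_mul_of_nonneg_right hqQ (by positivity)
  unfold v z at e4
  unfold z at e5
  linarith

end Crv.Prof

end Pool.Agent.MP_48470b_gt
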