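import Pool.Agent.MP_48470b_gt.Snake2

/-! All radial tangents of an embedded profile curve point the same way. -/

set_option autoImplicit false

open Real Set Filter Topology

namespace Pool.Agent.MP_48470b_gt

namespace Crv

variable (γ : Crv)

noncomputable def mu (t : ℝ) : ℝ := (γ.y t ^ 2 - γ.x t ^ 2) / γ.z t
noncomputable def rho (t : ℝ) : ℝ := 4 * γ.x t * γ.y t / γ.z t ^ 2

variable {γ}

theorem Sol.dmu {t : ℝ} (h : γ.Sol t) : HasDerivAt γ.mu (γ.rho t * γ.u t) t := by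
  refine hd ((h.dy2.sub h.dx2).div h.dz h.z_pos.ne') (fun _ => rfl) ?_
  have hz := h.z_pos.ne'
  simp only [Pi.sub_apply]
  unfold rho
  field_simp
  unfold u v z
  ring

theorem Sol.rho_pos {t : ℝ} (h : γ.Sol t) : 0 < γ.rho t := by
  unfold rho
  have := h.px; have := h.py; have := h.z_pos
  positivity

theorem Sol.kz {t : ℝ} (h : γ.Sol t) : γ.k t * γ.z t * (γ.x t * γ.y t)
    = (γ.z t / 2 - 2) * γ.u t * (γ.x t * γ.y t) + (γ.x t ^ 2 - γ.y t ^ 2) * γ.v t := by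
  have hk := h.hk
  unfold n0 at hk
  unfold z u v
  linear_combination (γ.x t ^ 2 + γ.y t ^ 2) * hk

theorem Sol.v_ne {t : ℝ} (h : γ.Sol t) (hu : γ.u t = 0) : γ.v t ≠ 0 := by
  intro hv
  have := h.uv
  rw [hu, hv] at this
  linarith [h.z_pos]

/-- at a radial tangent `u'` has the sign of `-μ` -/
theorem Sol.du_mu {t : ℝ} (h : γ.Sol t) (hu : γ.u t = 0) :
    γ.k t * γ.v t = -γ.mu t * (γ.v t ^ 2 / (γ.x t * γ.y t)) := by
  have h1 := h.kz
  rw [hu] at h1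
  have hx := h.px.ne'; have hy := h.py.ne'; have hz := h.z_pos.ne'
  unfold mu
  field_simp
  linear_combination (γ.v t) * h1

theorem Sol.dp {t : ℝ} (h : γ.Sol t) (hu : γ.u t ≠ 0) : HasDerivAt (fun t => γ.v t / γ.u t)
    ((γ.G t - (γ.x t / γ.y t - (γ.x t / γ.y t)⁻¹) * (γ.v t / γ.u t)) * (1 + (γ.v t / γ.u t) ^ 2)
      * ((γ.x t / γ.y t + (γ.x t / γ.y t)⁻¹) / 4) * (γ.rho t * γ.u t)) t := by
  refine hd (h.dv.div h.du hu) (fun _ => rfl) ?_
  have h1 := h.kz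
  have h2 := h.uv
  have hx := h.px.ne'; have hy := h.py.ne'; have hz := h.z_pos.ne'
  have e1 : 1 + (γ.v t / γ.u t) ^ 2 = γ.z t / γ.u t ^ 2 := by
    field_simp; linarith
  have e2 : γ.x t / γ.y t + (γ.x t / γ.y t)⁻¹ = γ.z t / (γ.x t * γ.y t) := by
    unfold z; field_simp
  have e3 : γ.x t / γ.y t - (γ.x t / γ.y t)⁻¹ = (γ.x t ^ 2 - γ.y t ^ 2) / (γ.x t * γ.y t) := by
    field_simp
  rw [e1, e2, e3]
  unfold rho G
  field_simp
  linear_combination 2 * h1 + (2 * γ.k t * γ.x t * γ.y t) * h2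

namespace Prof

variable {L : ℝ}

theorem cmu (h : γ.Prof L) : ContinuousOn γ.mu (Icc 0 L) :=
  ((h.cy.pow 2).sub (h.cx.pow 2)).div h.cz (fun _ ht => (h.z_pos ht).ne')

theorem mu0 (h : γ.Prof L) : γ.mu 0 = -1 := by
  have := h.x0.ne'
  unfold mu z; rw [h.y0]; field_simp; ring

theorem muL (h : γ.Prof L) : γ.mu L = 1 := by
  have := h.yL.ne'
  unfold mu z; rw [h.xL]; field_simp; ring

theorem mu_lt (h : γ.Prof L) {t : ℝ} (ht : t ∈ Ico 0 L) : γ.mu t < 1 := by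
  have h1 := h.x_pos ht
  have h2 := h.z_pos (Ico_subset_Icc_self ht)
  unfold mu; rw [div_lt_one h2]; unfold z; nlinarith

theorem mu_gt (h : γ.Prof L) {t : ℝ} (ht : t ∈ Ioc 0 L) : -1 < γ.mu t := by
  have h1 := h.y_pos ht
  have h2 := h.z_pos (Ioc_subset_Icc_self ht)
  unfold mu; rw [lt_div_iff₀ h2]; unfold z; nlinarith

theorem x_nonneg (h : γ.Prof L) {t : ℝ} (ht : t ∈ Icc 0 L) : 0 ≤ γ.x t := by
  rcases ht.2.eq_or_lt with e | e
  · rw [e, h.xL]
  · exact (h.x_pos ⟨ht.1, e⟩).le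

theorem y_nonneg (h : γ.Prof L) {t : ℝ} (ht : t ∈ Icc 0 L) : 0 ≤ γ.y t := by
  rcases ht.1.eq_or_lt with e | e
  · rw [← e, h.y0]
  · exact (h.y_pos ⟨e, ht.2⟩).le

theorem mu_inj (h : γ.Prof L) {t t' : ℝ} (ht : t ∈ Icc 0 L) (ht' : t' ∈ Icc 0 L)
    (h1 : γ.mu t = γ.mu t') (h2 : γ.z t = γ.z t') : t = t' := by
  have hz := (h.z_pos ht').ne'
  unfold mu at h1
  rw [h2, div_left_inj' hz] at h1
  unfold z at h2
  exact h.inj t ht t' ht'
    ((pow_left_inj₀ (h.x_nonneg ht) (h.x_nonneg ht') two_ne_zero).1 (by linarith))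
    ((pow_left_inj₀ (h.y_nonneg ht) (h.y_nonneg ht') two_ne_zero).1 (by linarith))

theorem mu_ne (h : γ.Prof L) {t : ℝ} (ht : t ∈ Ioo 0 L) (hu : γ.u t = 0) : γ.mu t ≠ 0 := by
  intro h0
  have hS := h.sol t ht
  unfold mu at h0
  rw [div_eq_zero_iff] at h0
  rcases h0 with h0 | h0
  · exact h.diag ht hu ((pow_left_inj₀ hS.px.le hS.py.le two_ne_zero).1 (by linarith))
  · exact hS.z_pos.ne' h0

theorem du_ne (h : γ.Prof L) {t : ℝ} (ht : t ∈ Ioo 0 L) (hu : γ.u t = 0) :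
    γ.k t * γ.v t ≠ 0 := by
  have hS := h.sol t ht
  rw [hS.du_mu hu]
  have := hS.px; have := hS.py
  have h3 := sq_pos_of_ne_zero (hS.v_ne hu)
  exact mul_ne_zero (neg_ne_zero.2 (h.mu_ne ht hu)) (by positivity)

theorem zeros_finite (h : γ.Prof L) : {t ∈ Ioo 0 L | γ.u t = 0}.Finite := by
  have hc : IsCompact (Icc 0 L ∩ γ.u ⁻¹' {0}) :=
    isCompact_Icc.of_isClosed_subset
      (h.cu.preimage_isClosed_of_isClosed isClosed_Icc isClosed_singleton) inter_subset_left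
  have hmem : ∀ t ∈ Icc 0 L ∩ γ.u ⁻¹' {0}, t ∈ Ioo 0 L := fun t ht => by
    have h0 : γ.u t = 0 := ht.2
    refine ⟨lt_of_le_of_ne ht.1.1 (fun e => ?_), lt_of_le_of_ne ht.1.2 (fun e => ?_)⟩
    · rw [← e, h.u0] at h0; exact h.x0.ne' h0
    · rw [e, h.uL] at h0; exact h.yL.ne' h0
  have hf := hc.finite (isDiscrete_iff_nhdsNE.2 (fun t ht => by
    have := ((h.sol t (hmem t ht)).du.eventually_ne (c := 0) (h.du_ne (hmem t ht) ht.2))
    rw [inf_principal_eq_bot]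
    filter_upwards [this] with s hs hs2
    exact hs hs2.2))
  exact hf.subset (fun t ht => ⟨Ioo_subset_Icc_self ht.1, ht.2⟩)

/-- sign of `μ` at an interior radial tangent read off from the sign of `u` on one side -/
theorem mu_sign (h : γ.Prof L) {t : ℝ} (ht : t ∈ Ioo 0 L) (hu : γ.u t = 0) :
    ∀ᶠ s in 𝓝[≠] t, γ.u s * (s - t) * γ.mu t < 0 := by
  have hS := h.sol t ht
  have h1 := (hasDerivAt_iff_tendsto_slope.1 hS.du).mul_const (γ.mu t)
  have h2 : γ.k t * γ.v t * γ.mu t < 0 := by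
    rw [hS.du_mu hu]
    have := hS.px; have := hS.py
    have h3 := sq_pos_of_ne_zero (hS.v_ne hu)
    have h4 := sq_pos_of_ne_zero (h.mu_ne ht hu)
    have h5 : 0 < γ.v t ^ 2 / (γ.x t * γ.y t) := by positivity
    nlinarith [mul_pos h4 h5]
  filter_upwards [h1.eventually (gt_mem_nhds h2), self_mem_nhdsWithin] with s hs hs2
  have h6 : s - t ≠ 0 := sub_ne_zero.2 hs2
  rw [slope_def_field, hu, sub_zero] at hs
  have h7 : γ.u s * (s - t) * γ.mu t = γ.u s / (s - t) * γ.mu t * (s - t) ^ 2 := by field_simp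
  rw [h7]
  exact mul_neg_of_neg_of_pos hs (sq_pos_of_ne_zero h6)

/-- every strand crosses the diagonal -/
theorem cross (h : γ.Prof L) {a b : ℝ} (ha : a ∈ Icc 0 L) (hb : b ∈ Icc 0 L) (hab : a < b)
    (ha2 : a = 0 ∨ γ.u a = 0) (hb2 : b = L ∨ γ.u b = 0) (hne : ∀ t ∈ Ioo a b, γ.u t ≠ 0) :
    ∃ d ∈ Ioo a b, γ.mu d = 0 := by
  have hsub : Ioo a b ⊆ Icc 0 L := Ioo_subset_Icc_self.trans (Icc_subset_Icc ha.1 hb.2)
  obtain ⟨t0, ht0⟩ : (Ioo a b).Nonempty := nonempty_Ioo.2 hab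
  have hu0 := hne t0 ht0
  have hsame : ∀ t ∈ Ioo a b, 0 < γ.u t * γ.u t0 :=
    pos_of_ne isPreconnected_Ioo ((h.cu.mono hsub).mul continuousOn_const)
      (fun t ht => mul_ne_zero (hne t ht) hu0) ht0 (mul_self_pos.2 hu0)
  have hA : γ.mu a * γ.u t0 < 0 := by
    by_cases h0 : a = 0
    · have hcl : a ∈ closure (Ioo a b) := by rw [closure_Ioo hab.ne]; exact ⟨le_rfl, hab.le⟩
      have := ContinuousWithinAt.closure_le hcl (f := fun _ => (0 : ℝ))
        (g := fun t => γ.u t * γ.u t0) continuousWithinAt_const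
        (((h.cu a ha).mono hsub).mul continuousWithinAt_const) (fun t ht => (hsame t ht).le)
      simp only [h0, h.u0] at this
      rw [h0, h.mu0]
      have h3 : 0 ≤ γ.u t0 := nonneg_of_mul_nonneg_right this h.x0
      have := lt_of_le_of_ne h3 hu0.symm
      linarith
    · have hua : γ.u a = 0 := ha2.resolve_left h0
      have ha' : a ∈ Ioo 0 L := ⟨lt_of_le_of_ne ha.1 (Ne.symm h0), lt_of_lt_of_le hab hb.2⟩
      obtain ⟨s, hs1, hs2⟩ := (((h.mu_sign ha' hua).filter_mono (nhdsGT_le_nhdsNE a)).and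
        (Ioo_mem_nhdsGT hab)).exists
      have h4 := hsame s hs2
      by_contra hn
      push Not at hn
      have h5 := mul_nonneg (mul_nonneg hn h4.le) (sub_pos.2 hs2.1).le
      nlinarith [mul_pos (neg_pos.2 hs1) (mul_self_pos.2 hu0)]
  have hB : 0 < γ.mu b * γ.u t0 := by
    by_cases h0 : b = L
    · have hcl : b ∈ closure (Ioo a b) := by rw [closure_Ioo hab.ne]; exact ⟨hab.le, le_rfl⟩
      have := ContinuousWithinAt.closure_le hcl (f := fun _ => (0 : ℝ))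
        (g := fun t => γ.u t * γ.u t0) continuousWithinAt_const
        (((h.cu b hb).mono hsub).mul continuousWithinAt_const) (fun t ht => (hsame t ht).le)
      simp only [h0, h.uL] at this
      rw [h0, h.muL]
      have h3 : 0 ≤ γ.u t0 := nonneg_of_mul_nonneg_right this h.yL
      have := lt_of_le_of_ne h3 hu0.symm
      linarith
    · have hub : γ.u b = 0 := hb2.resolve_left h0
      have hb' : b ∈ Ioo 0 L := ⟨lt_of_le_of_lt ha.1 hab, lt_of_le_of_ne hb.2 h0⟩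
      obtain ⟨s, hs1, hs2⟩ := (((h.mu_sign hb' hub).filter_mono (nhdsLT_le_nhdsNE b)).and
        (Ioo_mem_nhdsLT hab)).exists
      have h4 := hsame s hs2
      by_contra hn
      push Not at hn
      have h5 := mul_nonneg (mul_nonneg (neg_nonneg.2 hn) h4.le) (sub_pos.2 hs2.2).le
      nlinarith [mul_pos (neg_pos.2 hs1) (mul_self_pos.2 hu0)]
  obtain ⟨d, hd, hd2⟩ := intermediate_value_Ioo hab.le
    ((h.cmu.mono (Icc_subset_Icc ha.1 hb.2)).mul (continuousOn_const (c := γ.u t0)))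
    (show (0 : ℝ) ∈ Ioo (γ.mu a * γ.u t0) (γ.mu b * γ.u t0) from ⟨hA, hB⟩)
  exact ⟨d, hd, (mul_eq_zero.1 hd2).resolve_right hu0⟩

theorem exists_Ab (h : γ.Prof L) : ∃ (n : ℕ) (τ d : ℕ → ℝ),
    Ab L γ.mu γ.z γ.u γ.v γ.rho n τ d ∧
    Ab L (fun t => -γ.mu t) γ.z (fun t => -γ.u t) γ.v γ.rho n τ d ∧
    ∀ t ∈ Ioo 0 L, γ.u t = 0 → ∃ k, 1 ≤ k ∧ k ≤ n ∧ τ k = t := by
  obtain ⟨n, τ, h0, h1, h2, h3, h4, h5⟩ := exists_enum h.zeros_finite.toFinset L h.hL
    (fun t ht => (h.zeros_finite.mem_toFinset.1 ht).1)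
  simp only [Finite.mem_toFinset, mem_ofPred_eq] at h3 h4 h5
  have hmem : ∀ k ≤ n + 1, τ k ∈ Icc 0 L := by
    intro k hk
    rcases Nat.eq_zero_or_pos k with e | e
    · rw [e, h0]; exact ⟨le_rfl, h.hL.le⟩
    · rcases hk.eq_or_lt with e2 | e2
      · rw [e2, h1]; exact ⟨h.hL.le, le_rfl⟩
      · exact Ioo_subset_Icc_self (h3 k e (by omega)).1
  have hne : ∀ k ≤ n, ∀ t ∈ Ioo (τ k) (τ (k + 1)), γ.u t ≠ 0 := fun k hk t ht e =>
    h4 k hk t ht ⟨Ioo_subset_Ioo (hmem k (by omega)).1 (hmem (k + 1) (by omega)).2 ht, e⟩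
  have hd' : ∀ k, ∃ d, k ≤ n → d ∈ Ioo (τ k) (τ (k + 1)) ∧ γ.mu d = 0 := by
    intro k
    by_cases hk : k ≤ n
    · obtain ⟨d, hd1, hd2⟩ := h.cross (hmem k (by omega)) (hmem (k + 1) (by omega)) (h2 k hk)
        (by
          rcases Nat.eq_zero_or_pos k with e | e
          · left; rw [e, h0]
          · right; exact (h3 k e hk).2)
        (by
          rcases hk.eq_or_lt with e | e
          · left; rw [e, h1]
          · right; exact (h3 (k + 1) (by omega) e).2) (hne k hk)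
      exact ⟨d, fun _ => ⟨hd1, hd2⟩⟩
    · exact ⟨0, fun e => absurd e hk⟩
  choose d hd2 using hd'
  refine ⟨n, τ, d, ⟨h.cmu, h.cz, h.cu, h.cv, fun t ht => (h.sol t ht).dmu,
    fun t ht => (h.sol t ht).rho_pos, fun t ht => (h.sol t ht).dz,
    fun t ht t' ht' => h.mu_inj ht ht', h0, h1, h2,
    fun k k1 k2 => ⟨(h3 k k1 k2).2, (h.sol _ (h3 k k1 k2).1).v_ne (h3 k k1 k2).2⟩, hne,
    fun k hk => (hd2 k hk).1, fun k hk => (hd2 k hk).2, ?_⟩,
    ⟨h.cmu.neg, h.cz, h.cu.neg, h.cv,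
    fun t ht => hd (h.sol t ht).dmu.neg (fun _ => rfl) (by ring),
    fun t ht => (h.sol t ht).rho_pos, fun t ht => (h.sol t ht).dz,
    fun t ht t' ht' e => h.mu_inj ht ht' (neg_injective e), h0, h1, h2,
    fun k k1 k2 => ⟨neg_eq_zero.2 (h3 k k1 k2).2, (h.sol _ (h3 k k1 k2).1).v_ne (h3 k k1 k2).2⟩,
    fun k hk t ht => neg_ne_zero.2 (hne k hk t ht),
    fun k hk => (hd2 k hk).1, fun k hk => neg_eq_zero.2 (hd2 k hk).2, ?_⟩,
    fun t ht hu => h5 t ⟨ht, hu⟩⟩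
  · rintro e (he | he) hpos t ht hte
    · rw [he, h.mu0] at hpos; norm_num at hpos
    · rw [he, h.muL]; exact h.mu_lt ⟨ht.1, lt_of_le_of_ne ht.2 (he ▸ hte)⟩
  · rintro e (he | he) hpos t ht hte
    · rw [he, h.mu0]
      have := h.mu_gt ⟨lt_of_le_of_ne ht.1 (he ▸ hte.symm), ht.2⟩
      linarith
    · rw [he, h.muL] at hpos; norm_num at hpos

theorem ratio_eq (h : γ.Prof L) {a b : ℝ} (ha : a ∈ Ioo 0 L) (hb : b ∈ Ioo 0 L)
    (hm : γ.mu a = γ.mu b) : γ.x a / γ.y a = γ.x b / γ.y b := by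
  have Sa := h.sol a ha
  have Sb := h.sol b hb
  have := Sa.px; have := Sa.py; have := Sb.px; have := Sb.py
  unfold mu at hm
  rw [div_eq_div_iff Sa.z_pos.ne' Sb.z_pos.ne'] at hm
  unfold z at hm
  rw [div_eq_div_iff Sa.py.ne' Sb.py.ne']
  exact (pow_left_inj₀ (by positivity) (by positivity) two_ne_zero).1 (by linarith)

/-- radially adjacent strands are consecutive -/
theorem adj (h : γ.Prof L) {n : ℕ} {τ d : ℕ → ℝ} (A : Ab L γ.mu γ.z γ.u γ.v γ.rho n τ d)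
    (B : Ab L (fun t => -γ.mu t) γ.z (fun t => -γ.u t) γ.v γ.rho n τ d) {i j : ℕ}
    (hi : i ≤ n) (hj : j ≤ n) (hlt : γ.z (d i) < γ.z (d j))
    (hadj : ∀ k ≤ n, ¬ (γ.z (d i) < γ.z (d k) ∧ γ.z (d k) < γ.z (d j))) :
    i + 1 = j ∨ j + 1 = i := by
  by_contra hnj
  have hij : i ≠ j := fun e => by rw [e] at hlt; exact lt_irrefl _ hlt
  obtain ⟨si, hsi, sj, hsj, a1, a2, a3⟩ := B.up hi hj hnj hlt hadj
  obtain ⟨ti, hti, tj, htj, b1, b2, b3⟩ := A.up hi hj hnj hlt hadj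
  have a1' : γ.mu si = γ.mu sj := neg_injective a1
  rw [div_neg, div_neg] at a3
  obtain ⟨gi, tli, thi, Gi⟩ := A.graph hi
  obtain ⟨gj, tlj, thj, Gj⟩ := A.graph hj
  have hI : ∀ m ∈ Icc (γ.mu si) (γ.mu ti),
      m ∈ Ioo (γ.mu tli) (γ.mu thi) ∧ m ∈ Ioo (γ.mu tlj) (γ.mu thj) := fun m hm =>
    ⟨⟨lt_of_lt_of_le (Gi.μmem _ hsi).1 hm.1, lt_of_le_of_lt hm.2 (Gi.μmem _ hti).2⟩,
      ⟨lt_of_lt_of_le (a1' ▸ (Gj.μmem _ hsj).1) hm.1,
        lt_of_le_of_lt hm.2 (b1 ▸ (Gj.μmem _ htj).2)⟩⟩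
  have hder : ∀ {k : ℕ} (_ : k ≤ n) {g : ℝ → ℝ} {tl th : ℝ}
      (_ : Ab.Gr γ.mu γ.u γ.rho (τ k) (τ (k + 1)) (d k) g tl th) (m : ℝ),
      m ∈ Ioo (γ.mu tl) (γ.mu th) → HasDerivAt (fun m => γ.v (g m) / γ.u (g m))
        ((γ.G (g m) - (γ.x (g m) / γ.y (g m) - (γ.x (g m) / γ.y (g m))⁻¹)
          * (γ.v (g m) / γ.u (g m))) * (1 + (γ.v (g m) / γ.u (g m)) ^ 2)
          * ((γ.x (g m) / γ.y (g m) + (γ.x (g m) / γ.y (g m))⁻¹) / 4)) m := by
    intro k hk g tl th G m hm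
    have ht := G.gmem' m hm
    have hS := h.sol _ (A.sub' hk ht)
    have hu := A.une k hk _ ht
    refine hd ((hS.dp hu).comp m (G.dg m hm)) (fun _ => rfl) ?_
    rw [mul_assoc _ (γ.rho (g m) * γ.u (g m)), mul_inv_cancel₀ (mul_ne_zero hS.rho_pos.ne' hu),
      mul_one]
  have key := image_le_of_deriv_right_lt_deriv_boundary (a := γ.mu si) (b := γ.mu ti)
    (f := fun m => γ.v (gj m) / γ.u (gj m) - γ.v (gi m) / γ.u (gi m))
    (fun m hm => ((hder hj Gj m (hI m hm).2).sub (hder hi Gi m (hI m hm).1)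
      ).continuousAt.continuousWithinAt)
    (fun m hm => ((hder hj Gj m (hI m (Ico_subset_Icc_self hm)).2).sub
      (hder hi Gi m (hI m (Ico_subset_Icc_self hm)).1)).hasDerivWithinAt)
    (B := fun _ => 0) (B' := fun _ => 0)
    (by
      have e1 := Gi.gμ _ (Ioo_subset_Icc_self hsi)
      have e2 := Gj.gμ _ (Ioo_subset_Icc_self hsj)
      rw [← a1'] at e2
      simp only [e1, e2]
      linarith)
    (fun x => hasDerivAt_const x 0)
    (fun m hm h0 => by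
      obtain ⟨mi, mj⟩ := hI m (Ico_subset_Icc_self hm)
      have ti' := A.sub' hi (Gi.gmem' m mi)
      have tj' := A.sub' hj (Gj.gmem' m mj)
      have hz := A.order hi hj hij Gi Gj ⟨Gi.lo, Gi.hi⟩ ⟨Gj.lo, Gj.hi⟩ mi mj
        (by rwa [A.g_zero hi Gi, A.g_zero hj Gj])
      have hr := h.ratio_eq ti' tj'
        (by rw [Gi.μg m (Ioo_subset_Icc_self mi), Gj.μg m (Ioo_subset_Icc_self mj)])
      have hp : γ.v (gj m) / γ.u (gj m) = γ.v (gi m) / γ.u (gi m) := by linarith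
      rw [hp, ← hr]
      have hR : 0 < γ.x (gi m) / γ.y (gi m) := div_pos (h.sol _ ti').px (h.sol _ ti').py
      have hG : γ.G (gj m) < γ.G (gi m) := by unfold G; linarith
      have hq : 0 < (1 + (γ.v (gi m) / γ.u (gi m)) ^ 2)
        * ((γ.x (gi m) / γ.y (gi m) + (γ.x (gi m) / γ.y (gi m))⁻¹) / 4) := by positivity
      nlinarith [mul_pos (sub_pos.2 hG) hq])
    (show γ.mu ti ∈ Icc (γ.mu si) (γ.mu ti) from ⟨by linarith, le_rfl⟩)
  have e1 := Gi.gμ _ (Ioo_subset_Icc_self hti)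
  have e2 := Gj.gμ _ (Ioo_subset_Icc_self htj)
  rw [← b1] at e2
  simp only [e1, e2] at key
  linarith

/-- All radial tangents point the same way. -/
theorem snake (h : γ.Prof L) : ∀ z ∈ Ioo 0 L, ∀ z' ∈ Ioo 0 L, γ.u z = 0 → γ.u z' = 0 →
    0 < γ.v z → 0 < γ.v z' := by
  obtain ⟨n, τ, d, A, B, hall⟩ := h.exists_Ab
  have hinj : ∀ i ≤ n, ∀ j ≤ n, γ.z (d i) = γ.z (d j) → i = j := fun i hi j hj e => by
    have a1 := A.dmem i hi
    have a2 := A.dmem j hj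
    have := A.inj _ (A.sub hi (Ioo_subset_Icc_self a1)) _ (A.sub hj (Ioo_subset_Icc_self a2))
      (by rw [A.dzero i hi, A.dzero j hj]) e
    rw [this] at a1
    exact A.meet' hi hj a1 a2
  have hturn : ∀ k, k + 1 ≤ n → 0 < γ.v (τ (k + 1)) * (γ.z (d (k + 1)) - γ.z (d k)) := by
    intro k hk
    have hth : τ (k + 1) ∈ Ioo 0 L :=
      ⟨A.τ0 ▸ A.τ_lt _ _ (by omega) (by omega), A.τL ▸ A.τ_lt _ _ (by omega) le_rfl⟩
    rcases lt_or_gt_of_ne (h.mu_ne hth (A.uz _ (by omega) hk).1) with e | e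
    · exact B.turn hk (by linarith)
    · exact A.turn hk e
  have hstep : ∀ k, k + 2 ≤ n → 0 < γ.v (τ (k + 1)) * γ.v (τ (k + 2)) := by
    intro k hk
    have t1 := hturn k (by omega)
    have t2 := hturn (k + 1) hk
    have v1 := (A.uz (k + 1) (by omega) (by omega)).2
    have v2 := (A.uz (k + 2) (by omega) hk).2
    rcases lt_or_gt_of_ne v1 with e1 | e1 <;> rcases lt_or_gt_of_ne v2 with e2 | e2
    · exact mul_pos_of_neg_of_neg e1 e2
    · exact (path_lemma (f := fun k => γ.z (d k)) hinj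
        (fun i hi j hj h1 h2 => h.adj A B hi hj h1 h2) hk (by nlinarith) (by nlinarith)).elim
    · exact (path_lemma (f := fun k => -γ.z (d k))
        (fun i hi j hj e => hinj i hi j hj (neg_injective e))
        (fun i hi j hj h1 h2 => (h.adj A B hj hi (by linarith)
          (fun l hl e => h2 l hl ⟨by linarith [e.2], by linarith [e.1]⟩)).symm) hk
        (by nlinarith) (by nlinarith)).elim
    · exact mul_pos e1 e2
  have hall2 : ∀ k, k + 1 ≤ n → 0 < γ.v (τ 1) * γ.v (τ (k + 1)) := by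
    intro k
    induction k with
    | zero => intro hk; exact mul_self_pos.2 (A.uz 1 le_rfl hk).2
    | succ k ih =>
      intro hk
      have a1 := ih (by omega)
      have a2 := hstep k hk
      have a3 := mul_self_pos.2 (A.uz (k + 1) (by omega) (by omega)).2
      by_contra hn
      push Not at hn
      nlinarith [mul_pos a1 a2, mul_nonneg (neg_nonneg.2 hn) a3.le]
  intro z hz z' hz' hu hu' hv
  obtain ⟨k, k1, k2, rfl⟩ := hall z hz hu
  obtain ⟨l, l1, l2, rfl⟩ := hall z' hz' hu'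
  obtain ⟨k, rfl⟩ : ∃ k', k = k' + 1 := ⟨k - 1, by omega⟩
  obtain ⟨l, rfl⟩ : ∃ l', l = l' + 1 := ⟨l - 1, by omega⟩
  have a1 := hall2 k k2
  have a2 := hall2 l l2
  have a3 : 0 < γ.v (τ 1) := (pos_iff_pos_of_mul_pos a1).2 hv
  exact (pos_iff_pos_of_mul_pos a2).1 a3

end Prof

end Crv

end Pool.Agent.MP_48470b_gt
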