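import Pool.Agent.MP_48470b_gt.LemR
import Pool.Agent.MP_48470b_gt.Final2
import Pool.Agent.MP_48470b_gt.Snake3

/-! An embedded profile curve from axis to axis is the circle of radius `√6`. -/

set_option autoImplicit false

open Real Set Filter Topology

namespace Pool.Agent.MP_48470b_gt

theorem exists_last_zero {f : ℝ → ℝ} {a b : ℝ} (hab : a < b) (hc : ContinuousOn f (Icc a b))
    (ha : f a = 0) (hb : ∀ᶠ t in 𝓝[<] b, f t ≠ 0) :
    ∃ c ∈ Ico a b, f c = 0 ∧ ∀ t ∈ Ioo c b, f t ≠ 0 := by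
  have hm : MapsTo (fun t : ℝ => -t) (Icc (-b) (-a)) (Icc a b) := fun t ht =>
    ⟨by linarith [ht.2], by linarith [ht.1]⟩
  have ht : Tendsto (fun t : ℝ => -t) (𝓝[>] (-b)) (𝓝[<] b) := by
    simpa using (tendsto_neg_nhdsGT_neg (a := b))
  obtain ⟨c, hc1, hc2, hc3⟩ := exists_first_zero (f := fun t => f (-t)) (a := -b) (b := -a)
    (by linarith) (hc.comp continuousOn_neg hm) (by simpa using ha) (ht.eventually hb)
  refine ⟨-c, ⟨by linarith [hc1.2], by linarith [hc1.1]⟩, hc2, fun t ht => ?_⟩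
  simpa using hc3 (-t) ⟨by linarith [ht.2], by linarith [ht.1]⟩

/-- The main theorem on profile curves. -/
theorem Prof.circle {L : ℝ} {x y c s : ℝ → ℝ} (h : Prof L x y c s) :
    ∀ t ∈ Icc 0 L, x t ^ 2 + y t ^ 2 = 6 := by
  by_contra hn
  set γ : Crv := ⟨x, y, c, s⟩ with hγ
  have H : γ.Prof L := h.crv
  have h0 : (0 : ℝ) ∈ Icc 0 L := ⟨le_rfl, H.hL.le⟩
  have hL : L ∈ Icc 0 L := ⟨H.hL.le, le_rfl⟩
  have hR : ∀ a ∈ Icc 0 L, ∀ b ∈ Icc 0 L, a < b → (∀ t ∈ Ioo a b, γ.v t ≠ 0) → γ.v a = 0 →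
      γ.v b = 0 → ∃ t ∈ Ioo a b, γ.u t = 0 := fun a ha b hb hab h1 h2 h3 =>
    (h.seg.sub ha.1 hab hb.2).lemR h1 h2 h3
  have hne : ∀ t ∈ Ioo 0 L, γ.v t ≠ 0 := by
    intro t ht hv
    have hS := H.sol t ht
    have ht' := Ioo_subset_Icc_self ht
    have hG : γ.G t ≠ 0 := fun e => hn (H.circle ht hv (by unfold Crv.G at e; linarith))
    have hd0 : γ.w t * γ.G t ≠ 0 := mul_ne_zero hS.w_pos.ne' hG
    have hV0 : γ.V t = 0 := by unfold Crv.V; rw [hv, mul_zero]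
    have hev : ∀ᶠ r in 𝓝[≠] t, 0 < γ.v r * (r - t) * γ.G t := by
      have h1 := (hasDerivAt_iff_tendsto_slope.1 hS.dV).mul_const (γ.G t)
      have h2 : 0 < γ.w t * γ.G t * γ.G t := by
        rw [mul_assoc]; exact mul_pos hS.w_pos (mul_self_pos.2 hG)
      filter_upwards [h1.eventually (lt_mem_nhds h2), self_mem_nhdsWithin,
        mem_nhdsWithin_of_mem_nhds (Ioo_mem_nhds ht.1 ht.2)] with r hr hr2 hr3
      have h6 : r - t ≠ 0 := sub_ne_zero.2 hr2
      rw [slope_def_field, hV0, sub_zero] at hr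
      have hw := (H.sol r hr3).w_pos
      have h7 : γ.v r * (r - t) * γ.G t = γ.V r / (r - t) * γ.G t * (r - t) ^ 2 / γ.w r := by
        unfold Crv.V; field_simp
      rw [h7]
      exact div_pos (mul_pos hr (sq_pos_of_ne_zero h6)) hw
    have hev' : ∀ᶠ r in 𝓝[≠] t, γ.v r ≠ 0 := hev.mono (fun r hr e => by rw [e] at hr; simp at hr)
    obtain ⟨b, hb1, hb2, hb3⟩ := exists_first_zero ht.2 (H.cv.mono (H.sub_Icc ht' hL)) H.vL
      (hev'.filter_mono (nhdsGT_le_nhdsNE t))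
    obtain ⟨a, ha1, ha2, ha3⟩ := exists_last_zero ht.1 (H.cv.mono (H.sub_Icc h0 ht')) H.v0
      (hev'.filter_mono (nhdsLT_le_nhdsNE t))
    have hb' : b ∈ Icc 0 L := ⟨ht'.1.trans hb1.1.le, hb1.2⟩
    have ha' : a ∈ Icc 0 L := ⟨ha1.1, ha1.2.le.trans ht'.2⟩
    obtain ⟨z2, hz2, hu2⟩ := hR t ht' b hb' hb1.1 hb3 hv hb2
    obtain ⟨z1, hz1, hu1⟩ := hR a ha' t ht' ha1.2 ha3 ha2 hv
    obtain ⟨r2, hr2, hr2'⟩ :=
      ((hev.filter_mono (nhdsGT_le_nhdsNE t)).and (Ioo_mem_nhdsGT hb1.1)).exists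
    obtain ⟨r1, hr1, hr1'⟩ :=
      ((hev.filter_mono (nhdsLT_le_nhdsNE t)).and (Ioo_mem_nhdsLT ha1.2)).exists
    have p2 : 0 < γ.v z2 * γ.G t :=
      pos_of_ne (f := fun r => γ.v r * γ.G t) isPreconnected_Ioo
        ((H.cv.mono (Ioo_subset_Icc_self.trans (H.sub_Icc ht' hb'))).mul continuousOn_const)
        (fun r hr => mul_ne_zero (hb3 r hr) hG) hr2' (by
          by_contra hc
          push Not at hc
          nlinarith [mul_nonneg (neg_nonneg.2 hc) (sub_pos.2 hr2'.1).le]) z2 hz2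
    have p1 : γ.v z1 * γ.G t < 0 :=
      neg_of_ne (f := fun r => γ.v r * γ.G t) isPreconnected_Ioo
        ((H.cv.mono (Ioo_subset_Icc_self.trans (H.sub_Icc ha' ht'))).mul continuousOn_const)
        (fun r hr => mul_ne_zero (ha3 r hr) hG) hr1' (by
          by_contra hc
          push Not at hc
          nlinarith [mul_nonneg hc (sub_pos.2 hr1'.2).le]) z1 hz1
    have m1 := H.sub_Ioo ha' ht' hz1
    have m2 := H.sub_Ioo ht' hb' hz2
    rcases lt_or_gt_of_ne hG with e | e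
    · have := H.snake z1 m1 z2 m2 hu1 hu2 (by nlinarith)
      nlinarith
    · have := H.snake z2 m2 z1 m1 hu2 hu1 (by nlinarith)
      nlinarith
  obtain ⟨z, hz, hu⟩ := hR 0 h0 L hL H.hL hne H.v0 H.vL
  rcases lt_or_gt_of_ne (hne z hz) with e | e
  · have hneg := neg_of_ne isPreconnected_Ioo (H.cI H.cv) hne hz e
    refine H.mir.final (fun t ht => ?_) (L - z) ⟨by linarith [hz.2], by linarith [hz.1]⟩ ?_
    · rw [Crv.mir_v]
      linarith [hneg (L - t) ⟨by linarith [ht.2], by linarith [ht.1]⟩]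
    · rw [Crv.mir_u, sub_sub_cancel]; exact hu
  · exact H.final (pos_of_ne isPreconnected_Ioo (H.cI H.cv) hne hz e) z hz hu

end Pool.Agent.MP_48470b_gt
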