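import Mathlib

/-! Self-shrinkers in `ℝ⁴` and the action of the torus `SO(2) × SO(2)`. -/

open scoped RealInnerProductSpace ContDiff

noncomputable section

namespace Pool.Agent.MP_48470b_gt

abbrev E4 := EuclideanSpace ℝ (Fin 4)

/-- The unit normal field `∇F / |∇F|` of the level sets of `F`. -/
def nu (F : E4 → ℝ) (p : E4) : E4 := ‖gradient F p‖⁻¹ • gradient F p

/-- Divergence at `p` of the vector field `X` along the hyperplane orthogonal to the unit
vector `n`: the trace of `DX(p)` minus its `n n` component. -/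
def divT (X : E4 → E4) (n p : E4) : ℝ :=
  ∑ i, ⟪fderiv ℝ X p (EuclideanSpace.single i 1), EuclideanSpace.single i 1⟫ -
    ⟪fderiv ℝ X p n, n⟫

/-- `S` is a smooth embedded hypersurface (near each of its points the zero set of a smooth
function with nowhere vanishing gradient) whose mean curvature `H = div_S ν` equals
`⟨x, ν⟩ / 2`. -/
def IsShrinker (S : Set E4) : Prop :=
  ∀ p ∈ S, ∃ (U : Set E4) (F : E4 → ℝ), IsOpen U ∧ p ∈ U ∧ ContDiffOn ℝ ∞ F U ∧
    (∀ q ∈ U, gradient F q ≠ 0) ∧ (∀ q ∈ U, q ∈ S ↔ F q = 0) ∧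
    ∀ q ∈ U, q ∈ S → divT (nu F) (nu F q) q = ⟪q, nu F q⟫ / 2

/-- Rotation by `α` in the plane of the first two coordinates and by `β` in the plane of the
last two. -/
def rot (α β : ℝ) (p : E4) : E4 :=
  !₂[Real.cos α * p 0 - Real.sin α * p 1, Real.sin α * p 0 + Real.cos α * p 1,
    Real.cos β * p 2 - Real.sin β * p 3, Real.sin β * p 2 + Real.cos β * p 3]

end Pool.Agent.MP_48470b_gt
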