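import Pool.Agent.MP_48470b_gt.Base

/-! Consequences of `v > 0`: ordering of the principal curvatures, signs of the tangent. -/

set_option autoImplicit false

open Real Set Filter Topology

namespace Pool.Agent.MP_48470b_gt

namespace Crv.Prof

variable {γ : Crv} {L : ℝ}

theorem sub_Icc (_h : γ.Prof L) {a b : ℝ} (ha : a ∈ Icc 0 L) (hb : b ∈ Icc 0 L) :
    Icc a b ⊆ Icc 0 L := Icc_subset_Icc ha.1 hb.2

theorem sub_Ioo (_h : γ.Prof L) {a b : ℝ} (ha : a ∈ Icc 0 L) (hb : b ∈ Icc 0 L) :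
    Ioo a b ⊆ Ioo 0 L := Ioo_subset_Ioo ha.1 hb.2

theorem z_lt (h : γ.Prof L) (hv : ∀ t ∈ Ioo 0 L, 0 < γ.v t) {a b : ℝ} (ha : a ∈ Icc 0 L)
    (hb : b ∈ Icc 0 L) (hab : a < b) : γ.z a < γ.z b :=
  smono_of_deriv hab (h.cz.mono (h.sub_Icc ha hb))
    (fun t ht => (h.sol t (h.sub_Ioo ha hb ht)).dz)
    (fun t ht => by linarith [hv t (h.sub_Ioo ha hb ht)])

theorem z_le (h : γ.Prof L) (hv : ∀ t ∈ Ioo 0 L, 0 < γ.v t) {a b : ℝ} (ha : a ∈ Icc 0 L)
    (hb : b ∈ Icc 0 L) (hab : a ≤ b) : γ.z a ≤ γ.z b := by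
  rcases hab.eq_or_lt with h1 | h1
  · rw [h1]
  · exact (h.z_lt hv ha hb h1).le

theorem K2_nonneg (h : γ.Prof L) (hv : ∀ t ∈ Ioo 0 L, 0 < γ.v t) {t : ℝ} (ht : t ∈ Icc 0 L) :
    0 ≤ γ.K2 t := by
  have h0 : (0 : ℝ) ∈ Icc 0 L := ⟨le_rfl, h.hL.le⟩
  have hL : L ∈ Icc 0 L := ⟨h.hL.le, le_rfl⟩
  rcases le_total (γ.z t) 6 with hz | hz
  · have := mono_of_deriv ht.1 (h.cK2.mono (h.sub_Icc h0 ht))
      (fun s hs => (h.sol s (h.sub_Ioo h0 ht hs)).dK2) (fun s hs => by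
        have hs' := h.sub_Ioo h0 ht hs
        have h1 := h.z_le hv (Ioo_subset_Icc_self hs') ht hs.2.le
        have h2 : 0 ≤ γ.G s := by unfold G; linarith
        have := (h.sol s hs').w_pos
        positivity)
    have h3 : γ.K2 0 = 0 := by unfold K2; rw [h.w0]; ring
    linarith
  · have := anti_of_deriv ht.2 (h.cK2.mono (h.sub_Icc ht hL))
      (fun s hs => (h.sol s (h.sub_Ioo ht hL hs)).dK2) (fun s hs => by
        have hs' := h.sub_Ioo ht hL hs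
        have h1 := h.z_le hv ht (Ioo_subset_Icc_self hs') hs.1.le
        have h2 : γ.G s ≤ 0 := by unfold G; linarith
        have := (h.sol s hs').w_pos
        exact mul_nonpos_of_nonneg_of_nonpos (by positivity) h2)
    have h3 : γ.K2 L = 0 := by unfold K2; rw [h.wL]; ring
    linarith

theorem K1_nonpos (h : γ.Prof L) (hv : ∀ t ∈ Ioo 0 L, 0 < γ.v t) {t : ℝ} (ht : t ∈ Icc 0 L) :
    γ.K1 t ≤ 0 := by
  have h0 : (0 : ℝ) ∈ Icc 0 L := ⟨le_rfl, h.hL.le⟩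
  have hL : L ∈ Icc 0 L := ⟨h.hL.le, le_rfl⟩
  rcases le_total (γ.z t) 6 with hz | hz
  · have := anti_of_deriv ht.1 (h.cK1.mono (h.sub_Icc h0 ht))
      (fun s hs => (h.sol s (h.sub_Ioo h0 ht hs)).dK1) (fun s hs => by
        have hs' := h.sub_Ioo h0 ht hs
        have h1 := h.z_le hv (Ioo_subset_Icc_self hs') ht hs.2.le
        have h2 : 0 ≤ γ.G s := by unfold G; linarith
        have := (h.sol s hs').w_pos
        have : 0 ≤ γ.w s * γ.s s ^ 2 * γ.G s := by positivity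
        linarith)
    have h3 : γ.K1 0 = 0 := by unfold K1; rw [h.w0]; ring
    linarith
  · have := mono_of_deriv ht.2 (h.cK1.mono (h.sub_Icc ht hL))
      (fun s hs => (h.sol s (h.sub_Ioo ht hL hs)).dK1) (fun s hs => by
        have hs' := h.sub_Ioo ht hL hs
        have h1 := h.z_le hv ht (Ioo_subset_Icc_self hs') hs.1.le
        have h2 : γ.G s ≤ 0 := by unfold G; linarith
        have := (h.sol s hs').w_pos
        have : γ.w s * γ.s s ^ 2 * γ.G s ≤ 0 :=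
          mul_nonpos_of_nonneg_of_nonpos (by positivity) h2
        linarith)
    have h3 : γ.K1 L = 0 := by unfold K1; rw [h.wL]; ring
    linarith

theorem n2_nonneg (h : γ.Prof L) (hv : ∀ t ∈ Ioo 0 L, 0 < γ.v t) {t : ℝ} (ht : t ∈ Ioo 0 L) :
    0 ≤ γ.n2 t := by
  have h1 := h.K2_nonneg hv (Ioo_subset_Icc_self ht)
  unfold K2 at h1
  exact nonneg_of_mul_nonneg_right h1 (h.sol t ht).w_pos

theorem n1_nonpos (h : γ.Prof L) (hv : ∀ t ∈ Ioo 0 L, 0 < γ.v t) {t : ℝ} (ht : t ∈ Ioo 0 L) :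
    γ.n1 t ≤ 0 := by
  have h1 := h.K1_nonpos hv (Ioo_subset_Icc_self ht)
  unfold K1 at h1
  by_contra hn
  push Not at hn
  linarith [mul_pos (h.sol t ht).w_pos hn]

/-- vertical tangents -/
theorem vert (h : γ.Prof L) (hv : ∀ t ∈ Ioo 0 L, 0 < γ.v t) {t : ℝ} (ht : t ∈ Ioo 0 L)
    (hc : γ.c t = 0) : γ.s t = 1 ∧ 2 < γ.x t ^ 2 := by
  have hs := h.sol t ht
  have h1 := hv t ht
  have h2 := h.n2_nonneg hv ht
  have h3 := hs.cs
  unfold v at h1
  unfold n2 at h2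
  rw [hc] at h1 h2 h3
  have hy := hs.py
  have h4 : 0 < γ.s t := by
    by_contra hn
    push Not at hn
    nlinarith
  have h5 : γ.s t = 1 := by nlinarith
  refine ⟨h5, lt_of_le_of_ne ?_ (h.lineX ht hc).symm⟩
  rw [h5] at h2
  nlinarith

/-- the barrier lemma: if `f' < 0` at zeros then `f ≤ 0` persists -/
theorem stay_nonpos (_h : γ.Prof L) {f f' : ℝ → ℝ} (hc : ContinuousOn f (Icc 0 L))
    (hd : ∀ t ∈ Ioo 0 L, HasDerivAt f (f' t) t) (hz : ∀ t ∈ Ioo 0 L, f t = 0 → f' t < 0)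
    {a : ℝ} (ha : a ∈ Ioo 0 L) (hfa : f a ≤ 0) : ∀ t ∈ Icc a L, f t ≤ 0 := by
  intro t ht
  exact image_le_of_deriv_right_lt_deriv_boundary (f := f) (f' := f') (a := a) (b := L)
    (hc.mono (Icc_subset_Icc_left ha.1.le))
    (fun x hx => (hd x ⟨lt_of_lt_of_le ha.1 hx.1, hx.2⟩).hasDerivWithinAt)
    (B := fun _ => 0) (B' := fun _ => 0) hfa (fun x => hasDerivAt_const x 0)
    (fun x hx hx0 => hz x ⟨lt_of_lt_of_le ha.1 hx.1, hx.2⟩ hx0) ht

theorem s_pos (h : γ.Prof L) (hv : ∀ t ∈ Ioo 0 L, 0 < γ.v t) {t : ℝ} (ht : t ∈ Ioo 0 L) :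
    0 < γ.s t := by
  by_contra hn
  push Not at hn
  have key := h.stay_nonpos h.cs' (fun s hs => (h.sol s hs).ds) (fun s hs h0 => by
    have hS := h.sol s hs
    have h1 := hv s hs
    have h2 := h.n1_nonpos hv hs
    have h3 := hS.cs
    have h6 := h.lineY hs h0
    unfold v at h1
    unfold n1 at h2
    rw [h0] at h1 h2 h3
    have hx := hS.px
    have hy := hS.py
    have h4 : 0 < γ.c s := by
      by_contra hn
      push Not at hn
      nlinarith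
    have h5 : γ.c s = 1 := by nlinarith
    rw [h5] at h2
    have h7 : 2 < γ.y s ^ 2 := lt_of_le_of_ne (by nlinarith) h6.symm
    rw [h5, hS.k_eq]
    unfold n0
    rw [h0, h5, one_mul]
    apply div_neg_of_neg_of_pos
    · nlinarith
    · positivity) ht hn
  have hc : ∀ s ∈ Ioo t L, 0 ≤ γ.c s := by
    intro s hs
    have hs' : s ∈ Ioo 0 L := ⟨ht.1.trans hs.1, hs.2⟩
    have h1 := hv s hs'
    have h2 := key s (Ioo_subset_Icc_self hs)
    have hx := (h.sol s hs').px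
    have hy := (h.sol s hs').py
    unfold v at h1
    by_contra hn
    push Not at hn
    nlinarith
  have hcl : L ∈ closure (Ioo t L) := by
    rw [closure_Ioo ht.2.ne]; exact ⟨ht.2.le, le_rfl⟩
  have := ContinuousWithinAt.closure_le hcl (f := fun _ => (0 : ℝ)) (g := γ.c)
    continuousWithinAt_const
    ((h.cc L ⟨h.hL.le, le_rfl⟩).mono (fun s hs => ⟨(ht.1.trans hs.1).le, hs.2.le⟩)) hc
  rw [h.cL] at this
  norm_num at this

theorem c_stay (h : γ.Prof L) (hv : ∀ t ∈ Ioo 0 L, 0 < γ.v t) {a : ℝ} (ha : a ∈ Ioo 0 L)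
    (hc : γ.c a ≤ 0) : ∀ t ∈ Icc a L, γ.c t ≤ 0 :=
  h.stay_nonpos h.cc (fun s hs => (h.sol s hs).dc) (fun s hs h0 => by
    obtain ⟨h1, h2⟩ := h.vert hv hs h0
    have hS := h.sol s hs
    have hx := hS.px
    have hy := hS.py
    rw [hS.k_eq]
    unfold n0
    rw [h0, h1]
    have : 0 < ((γ.x s ^ 2 / 2 - 1) * γ.y s * 1 - (γ.y s ^ 2 / 2 - 1) * γ.x s * 0)
        / (γ.x s * γ.y s) := by
      apply div_pos
      · nlinarith
      · positivity
    linarith) ha hc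

end Crv.Prof

end Pool.Agent.MP_48470b_gt
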