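import Pool.Agent.MP_48470b_gt.Main

/-! The shrinker equation is invariant under linear isometries. -/

open Set
open scoped Topology RealInnerProductSpace

noncomputable section

namespace Pool.Agent.MP_48470b_gt

lemma Iso_grad (A : E4 ≃ₗᵢ[ℝ] E4) (F : E4 → ℝ) (q : E4) :
    gradient (F ∘ A) q = A.symm (gradient F (A q)) := by
  refine ext_inner_right ℝ fun v => ?_
  have h := A.toContinuousLinearEquiv.comp_right_fderiv (f := F) (x := q)
  rw [← RedC_grad, ← A.inner_map_map, A.apply_symm_apply, ← RedC_grad]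
  exact congrArg (fun L : E4 →L[ℝ] ℝ => L v) h

lemma Iso_nu (A : E4 ≃ₗᵢ[ℝ] E4) (F : E4 → ℝ) : nu (F ∘ A) = A.symm ∘ (nu F ∘ A) := by
  funext q
  simp [nu, Iso_grad]

lemma Iso_div (A : E4 ≃ₗᵢ[ℝ] E4) (X : E4 → E4) (n q : E4) :
    divT (A.symm ∘ (X ∘ A)) (A.symm n) q = divT X n (A q) := by
  have h : ∀ v, fderiv ℝ (A.symm ∘ (X ∘ A)) q v = A.symm (fderiv ℝ X (A q) (A v)) := fun v => by
    rw [A.symm.comp_fderiv]
    exact congrArg (fun L : E4 →L[ℝ] E4 => A.symm (L v))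
      (A.toContinuousLinearEquiv.comp_right_fderiv (f := X) (x := q))
  have t1 := LinearMap.trace_eq_sum_inner (fderiv ℝ X (A q)).toLinearMap
    (EuclideanSpace.basisFun (Fin 4) ℝ)
  have t2 := LinearMap.trace_eq_sum_inner (fderiv ℝ X (A q)).toLinearMap
    ((EuclideanSpace.basisFun (Fin 4) ℝ).map A)
  simp only [divT, h, A.apply_symm_apply, A.symm.inner_map_map]
  congr 1
  have k : ∀ a b, ⟪A.symm a, b⟫ = ⟪A b, a⟫ := fun a b => by
    rw [← A.inner_map_map, A.apply_symm_apply, real_inner_comm]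
  simp only [k]
  simp only [OrthonormalBasis.map_apply, EuclideanSpace.basisFun_apply,
    ContinuousLinearMap.coe_coe] at t1 t2
  rw [← t2, t1]
  exact Finset.sum_congr rfl fun i _ => real_inner_comm _ _

lemma IsShrinker.iso {S : Set E4} (hS : IsShrinker S) (A : E4 ≃ₗᵢ[ℝ] E4) :
    IsShrinker (A ⁻¹' S) := by
  intro p hp
  obtain ⟨U, F, hU, hpU, hF, hg, hm, hH⟩ := hS _ hp
  refine ⟨A ⁻¹' U, F ∘ A, hU.preimage A.continuous, hpU,
    hF.comp A.contDiff.contDiffOn fun _ h => h, fun q hq => ?_, fun q hq => hm _ hq,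
    fun q hq hs => ?_⟩
  · rw [Iso_grad]
    simpa using hg _ hq
  · rw [Iso_nu, Function.comp_apply, Iso_div, Function.comp_apply, hH _ hq hs,
      A.inner_map_eq_flip]

theorem birotational_iso (S : Set E4) (hS : IsShrinker S)
    (hT : Nonempty (S ≃ₜ Metric.sphere (0 : E4) 1)) (A : E4 ≃ₗᵢ[ℝ] E4)
    (hR : ∀ α β, ∀ p ∈ S, A (rot α β (A.symm p)) ∈ S) : S = Metric.sphere 0 √6 := by
  obtain ⟨e⟩ := hT
  have h := birotational (A ⁻¹' S) (hS.iso A)
    ⟨(A.toHomeomorph.sets rfl).trans e⟩ fun α β p hp => by simpa using hR α β _ hp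
  ext p
  have := Set.ext_iff.1 h (A.symm p)
  simpa using this

end Pool.Agent.MP_48470b_gt
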