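import Pool.Agent.MP_48470b_gt.LemR0

/-! The radial derivative on arcs without radial tangent; signs of the two monotone
quantities. -/

open Set
open scoped Topology

noncomputable section

namespace Pool.Agent.MP_48470b_gt

variable {a b L : ℝ} {x y c s : ℝ → ℝ}

namespace Seg
variable (h : Seg a b x y c s)
include h

lemma P_lt (hv : ∀ t ∈ Ioo a b, 0 < x t * c t + y t * s t) {t u : ℝ} (ht : a ≤ t) (htu : t < u)
    (hu : u ≤ b) : x t ^ 2 + y t ^ 2 < x u ^ 2 + y u ^ 2 := by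
  have h' := h.sub ht htu hu
  have m : (t + u) / 2 ∈ Ioo t u := ⟨by linarith, by linarith⟩
  exact mono_lt h'.cP (fun w hw => h'.dP hw)
    (fun w hw => by have := hv w (Ioo_subset_Ioo ht hu hw); positivity) m
    (by have := hv _ (Ioo_subset_Ioo ht hu m); positivity)

lemma w_pos {t : ℝ} (ht : t ∈ Ioo a b) : 0 < x t * y t * rE (x t) (y t) := by
  have := h.pos t ht
  exact mul_pos (mul_pos this.1 this.2) (rE_pos _ _)

lemma cW : ContinuousOn (fun t => x t * y t * rE (x t) (y t)) (Icc a b) :=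
  (h.cx.mul h.cy).mul h.cE

/-- an arc with increasing radius and vanishing radial derivative at the ends crosses the
circle -/
lemma cross (hv : ∀ t ∈ Ioo a b, 0 < x t * c t + y t * s t) (ha : x a * c a + y a * s a = 0)
    (hb : x b * c b + y b * s b = 0) : ∃ m ∈ Ioo a b, x m ^ 2 + y m ^ 2 = 6 := by
  have hab := h.lt
  have m : (a + b) / 2 ∈ Ioo a b := ⟨by linarith, by linarith⟩
  have hm := mul_pos (h.w_pos m) (hv _ m)
  have h1 : x a ^ 2 + y a ^ 2 < 6 := by
    by_contra hc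
    have h' := h.sub le_rfl m.1 m.2.le
    have := anti_le m.1.le (h'.cW.mul h'.cV) (fun w hw => h'.dWV hw) fun w hw => by
      have a1 := h'.w_pos hw
      have a2 := h.P_lt hv le_rfl hw.1 (hw.2.le.trans m.2.le)
      have := mul_pos a1 (by linarith : 0 < x w ^ 2 + y w ^ 2 - 6)
      linarith
    simp only [Pi.mul_apply, ha, mul_zero] at this
    linarith
  have h2 : 6 < x b ^ 2 + y b ^ 2 := by
    by_contra hc
    have h' := h.sub m.1.le m.2 le_rfl
    have := mono_le m.2.le (h'.cW.mul h'.cV) (fun w hw => h'.dWV hw) fun w hw => by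
      have a1 := h'.w_pos hw
      have a2 := h.P_lt hv (m.1.le.trans hw.1.le) hw.2 le_rfl
      have := mul_pos a1 (by linarith : 0 < 6 - (x w ^ 2 + y w ^ 2))
      linarith
    simp only [Pi.mul_apply, hb, mul_zero] at this
    linarith
  exact intermediate_value_Ioo hab.le h.cP ⟨h1, h2⟩

/-- inside the circle `w (v - Λ)` increases -/
lemma A2_in {t : ℝ} (ht : t ∈ Ioo a b) (hp : ∀ u ∈ Ioo a t, x u ^ 2 + y u ^ 2 < 6) (hs : s a ≠ 0)
    (h0 : 0 ≤ x a * y a * rE (x a) (y a) * (x a * c a + y a * s a - rLam (x a) (y a) (c a) (s a))) :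
    rLam (x t) (y t) (c t) (s t) < x t * c t + y t * s t := by
  have h' := h.sub le_rfl ht.1 ht.2.le
  obtain ⟨v, hv, hv'⟩ := exists_ne_left ht.1 h'.cs hs
  have := mono_lt (h'.cW.mul (h'.cV.sub h'.cLam)) (fun w hw => h'.dA2 hw) (fun w hw => by
      have := mul_nonneg (mul_nonneg (h'.w_pos hw).le (sq_nonneg (s w)))
        (by linarith [hp w hw] : 0 ≤ 6 - (x w ^ 2 + y w ^ 2))
      linarith) hv (by
      have := mul_pos (mul_pos (h'.w_pos hv) (sq_pos_of_ne_zero hv'))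
        (by linarith [hp v hv] : 0 < 6 - (x v ^ 2 + y v ^ 2))
      linarith)
  have h1 : 0 < x t * y t * rE (x t) (y t) *
      (x t * c t + y t * s t - rLam (x t) (y t) (c t) (s t)) := lt_of_le_of_lt h0 this
  have := (mul_pos_iff_of_pos_left (h.w_pos ht)).1 h1
  linarith

/-- outside the circle `w Λ` decreases -/
lemma A1_out {t : ℝ} (ht : t ∈ Ioo a b) (hp : ∀ u ∈ Ioo t b, 6 < x u ^ 2 + y u ^ 2) (hc : c b ≠ 0)
    (h0 : 0 ≤ x b * y b * rE (x b) (y b) * rLam (x b) (y b) (c b) (s b)) :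
    0 < rLam (x t) (y t) (c t) (s t) := by
  have h' := h.sub ht.1.le ht.2 le_rfl
  obtain ⟨v, hv, hv'⟩ := exists_ne_right ht.2 h'.cc hc
  have := anti_lt (h'.cW.mul h'.cLam) (fun w hw => h'.dA1 hw) (fun w hw => by
      have := mul_nonneg (mul_nonneg (h'.w_pos hw).le (sq_nonneg (c w)))
        (by linarith [hp w hw] : 0 ≤ x w ^ 2 + y w ^ 2 - 6)
      linarith) hv (by
      have := mul_pos (mul_pos (h'.w_pos hv) (sq_pos_of_ne_zero hv'))
        (by linarith [hp v hv] : 0 < x v ^ 2 + y v ^ 2 - 6)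
      linarith)
  exact (mul_pos_iff_of_pos_left (h.w_pos ht)).1 (lt_of_le_of_lt h0 this)

lemma nonneg_left {f : ℝ → ℝ} (hf : ContinuousOn f (Icc a b)) (hp : ∀ t ∈ Ioo a b, 0 < f t) :
    ∀ t ∈ Icc a b, 0 ≤ f t := by
  intro t ht
  have : t ∈ closure (Ioo a b) := by rwa [closure_Ioo h.lt.ne]
  exact ContinuousWithinAt.closure_le this continuousWithinAt_const
    ((hf t ht).mono Ioo_subset_Icc_self) fun u hu => (hp u hu).le

lemma x_left (hu : ∀ t ∈ Ioo a b, 0 < x t * s t - y t * c t) : 0 < x a := by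
  have hab := h.lt
  have n := h.nn a (left_mem_Icc.2 hab.le)
  refine n.1.lt_of_ne fun h0 => ?_
  have hy : 0 < y a := n.2.1.lt_of_ne fun h1 => by
    have := n.2.2
    rw [← h0, ← h1] at this
    simp at this
  have m : (a + b) / 2 ∈ Ioo a b := ⟨by linarith, by linarith⟩
  have h' := h.sub le_rfl m.1 m.2.le
  have hy' : ∀ t ∈ Icc a ((a + b) / 2), y t ≠ 0 := fun t ht => by
    rcases ht.1.eq_or_lt with rfl | h1
    · exact hy.ne'
    · exact (h.pos t ⟨h1, lt_of_le_of_lt ht.2 m.2⟩).2.ne'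
  have := anti_le m.1.le (h'.cx.div h'.cy hy')
    (fun w hw => (h'.dx w hw).div (h'.dy w hw) (hy' w (Ioo_subset_Icc_self hw))) fun w hw => by
      have := hu w ⟨hw.1, hw.2.trans m.2⟩
      exact div_nonpos_of_nonpos_of_nonneg (by linarith) (sq_nonneg _)
  simp only [Pi.div_apply, ← h0, zero_div] at this
  have h2 := h.pos _ m
  exact absurd (div_pos h2.1 h2.2) (not_lt.2 this)

lemma y_right (hu : ∀ t ∈ Ioo a b, 0 < x t * s t - y t * c t) : 0 < y b := by
  have := h.swap.rev.x_left fun t ht => by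
    have := hu (-t) ⟨by linarith [ht.2], by linarith [ht.1]⟩
    linarith
  simpa using this

end Seg

lemma end_alg {x y c s : ℝ} (h1 : c ^ 2 + s ^ 2 = 1) (hv : x * c + y * s = 0) :
    x = s * (x * s - y * c) ∧ y = -c * (x * s - y * c) ∧
      (x * s - y * c) * rLam x y c s = x * y * (x ^ 2 + y ^ 2 - 6) / 2 := by
  have e1 : x = s * (x * s - y * c) := by linear_combination (-x) * h1 + c * hv
  have e2 : y = -c * (x * s - y * c) := by linear_combination (-y) * h1 + s * hv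
  refine ⟨e1, e2, ?_⟩
  unfold rLam
  linear_combination (-(y * (x ^ 2 - 2)) / 2) * e1 + (-(x * (y ^ 2 - 4)) / 2) * e2

theorem Seg.lemR_pp (h : Seg a b x y c s) (hu : ∀ t ∈ Ioo a b, 0 < x t * s t - y t * c t)
    (hv : ∀ t ∈ Ioo a b, 0 < x t * c t + y t * s t) (ha : x a * c a + y a * s a = 0)
    (hb : x b * c b + y b * s b = 0) : False := by
  have hab := h.lt
  have ma := left_mem_Icc.2 hab.le
  have mb := right_mem_Icc.2 hab.le
  obtain ⟨m, hm, hp⟩ := h.cross hv ha hb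
  have hxa := h.x_left hu
  have hyb := h.y_right hu
  obtain ⟨a1, -, a3⟩ := end_alg (h.unit a ma) ha
  obtain ⟨-, b2, b3⟩ := end_alg (h.unit b mb) hb
  have ua : 0 < x a * s a - y a * c a := (h.nonneg_left h.cU hu a ma).lt_of_ne fun e => by
    rw [← e, mul_zero] at a1; exact hxa.ne' a1
  have ub : 0 < x b * s b - y b * c b := (h.nonneg_left h.cU hu b mb).lt_of_ne fun e => by
    rw [← e, mul_zero] at b2; exact hyb.ne' b2
  have sa : s a ≠ 0 := fun e => by rw [e, zero_mul] at a1; exact hxa.ne' a1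
  have cb : c b ≠ 0 := fun e => by rw [e, neg_zero, zero_mul] at b2; exact hyb.ne' b2
  have pin : ∀ u ∈ Ico a m, x u ^ 2 + y u ^ 2 < 6 := fun u hu' =>
    hp ▸ h.P_lt hv hu'.1 hu'.2 hm.2.le
  have pout : ∀ u ∈ Ioc m b, 6 < x u ^ 2 + y u ^ 2 := fun u hu' =>
    hp ▸ h.P_lt hv hm.1.le hu'.1 hu'.2
  have la : rLam (x a) (y a) (c a) (s a) ≤ 0 := by
    have h1 := mul_nonneg (mul_nonneg hxa.le (h.nn a ma).2.1)
      (by linarith [pin a ⟨le_rfl, hm.1⟩] : 0 ≤ 6 - (x a ^ 2 + y a ^ 2))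
    exact nonpos_of_mul_nonpos_right (by linarith) ua
  have lb : 0 ≤ rLam (x b) (y b) (c b) (s b) := by
    have h1 := mul_nonneg (mul_nonneg (h.nn b mb).1 hyb.le)
      (by linarith [pout b ⟨hm.2, le_rfl⟩] : 0 ≤ x b ^ 2 + y b ^ 2 - 6)
    exact nonneg_of_mul_nonneg_right (by linarith) ub
  have i2 : ∀ t ∈ Ioo a m, rLam (x t) (y t) (c t) (s t) < x t * c t + y t * s t := fun t ht =>
    h.A2_in ⟨ht.1, ht.2.trans hm.2⟩ (fun u hu' => pin u ⟨hu'.1.le, hu'.2.trans ht.2⟩) sa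
      (mul_nonneg (mul_nonneg (mul_nonneg hxa.le (h.nn a ma).2.1) (rE_pos _ _).le) (by linarith))
  have i1 : ∀ t ∈ Ioo m b, 0 < rLam (x t) (y t) (c t) (s t) := fun t ht =>
    h.A1_out ⟨hm.1.trans ht.1, ht.2⟩ (fun u hu' => pout u ⟨ht.1.trans hu'.1, hu'.2.le⟩) cb
      (mul_nonneg (mul_nonneg (mul_nonneg (h.nn b mb).1 hyb.le) (rE_pos _ _).le) lb)
  have h1 := h.sub le_rfl hm.1 hm.2.le
  have h2 := h.sub hm.1.le hm.2 le_rfl
  have hx : ∀ t ∈ Icc a m, x t ≠ 0 := fun t ht => by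
    rcases ht.1.eq_or_lt with rfl | e
    · exact hxa.ne'
    · exact (h.pos t ⟨e, lt_of_le_of_lt ht.2 hm.2⟩).1.ne'
  have hy : ∀ t ∈ Icc m b, y t ≠ 0 := fun t ht => by
    rcases ht.2.eq_or_lt with rfl | e
    · exact hyb.ne'
    · exact (h.pos t ⟨lt_of_lt_of_le hm.1 ht.1, e⟩).2.ne'
  have c2 := ((h1.cy.div h1.cx hx).mul h1.cE).mul h1.cPi
  have c3 := ((h2.cx.div h2.cy hy).mul h2.cE).mul h2.cPi
  have g2 : ∀ t ∈ Ioo a m, 0 < 2 * (x t * s t - y t * c t) * rE (x t) (y t) *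
      (x t * c t + y t * s t - rLam (x t) (y t) (c t) (s t)) := fun t ht =>
    mul_pos (mul_pos (mul_pos two_pos (hu t ⟨ht.1, ht.2.trans hm.2⟩)) (rE_pos _ _))
      (sub_pos.2 (i2 t ht))
  have g3 : ∀ t ∈ Ioo m b, 0 < 2 * (x t * s t - y t * c t) * rE (x t) (y t) *
      rLam (x t) (y t) (c t) (s t) := fun t ht =>
    mul_pos (mul_pos (mul_pos two_pos (hu t ⟨hm.1.trans ht.1, ht.2⟩)) (rE_pos _ _)) (i1 t ht)
  have d2 : ∀ t ∈ Ioo a m, -(2 * (x t * s t - y t * c t) * (c t / x t) ^ 2 * rE (x t) (y t) *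
      (x t * c t + y t * s t - rLam (x t) (y t) (c t) (s t))) ≤ 0 := fun t ht => by
    have := mul_nonneg (g2 t ht).le (sq_nonneg (c t / x t)); linarith
  have d3 : ∀ t ∈ Ioo m b, -(2 * (x t * s t - y t * c t) * (s t / y t) ^ 2 * rE (x t) (y t) *
      rLam (x t) (y t) (c t) (s t)) ≤ 0 := fun t ht => by
    have := mul_nonneg (g3 t ht).le (sq_nonneg (s t / y t)); linarith
  have n2 : y a / x a * rE (x a) (y a) * rPi (x a) (y a) (c a) (s a) ≤ 0 := by
    refine mul_nonpos_of_nonneg_of_nonpos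
      (mul_nonneg (div_nonneg (h.nn a ma).2.1 hxa.le) (rE_pos _ _).le) ?_
    rw [rPi, ha]; linarith
  have n3 : 0 ≤ x b / y b * rE (x b) (y b) * rPi (x b) (y b) (c b) (s b) := by
    refine mul_nonneg (mul_nonneg (div_nonneg (h.nn b mb).1 hyb.le) (rE_pos _ _).le) ?_
    rw [rPi, hb]; linarith
  obtain ⟨hxm, hym⟩ := h.pos m hm
  have k2 : 0 < y m / x m * rE (x m) (y m) := mul_pos (div_pos hym hxm) (rE_pos _ _)
  have k3 : 0 < x m / y m * rE (x m) (y m) := mul_pos (div_pos hxm hym) (rE_pos _ _)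
  by_cases hc : c m = 0
  · have hs : s m ≠ 0 := fun e => by
      have := h.unit m (Ioo_subset_Icc_self hm)
      rw [hc, e] at this; simp at this
    obtain ⟨v, hv1, hv2⟩ := exists_ne_left hm.2 h2.cs hs
    have e3 := anti_lt c3 (fun t ht => h2.dN3 ht) d3 hv1 (by
      have := mul_pos (g3 v hv1) (sq_pos_of_ne_zero (div_ne_zero hv2 (hy v (Ioo_subset_Icc_self hv1))))
      linarith)
    have e2 := anti_le hm.1.le c2 (fun t ht => h1.dN2 ht) d2
    have f3 := (mul_pos_iff_of_pos_left k3).1 (lt_of_le_of_lt n3 e3)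
    exact absurd (mul_pos k2 f3) (not_lt.2 (le_trans e2 n2))
  · obtain ⟨v, hv1, hv2⟩ := exists_ne_right hm.1 h1.cc hc
    have e2 := anti_lt c2 (fun t ht => h1.dN2 ht) d2 hv1 (by
      have := mul_pos (g2 v hv1) (sq_pos_of_ne_zero (div_ne_zero hv2 (hx v (Ioo_subset_Icc_self hv1))))
      linarith)
    have e3 := anti_le hm.2.le c3 (fun t ht => h2.dN3 ht) d3
    have f3 : 0 ≤ rPi (x m) (y m) (c m) (s m) := nonneg_of_mul_nonneg_right (le_trans n3 e3) k3
    exact absurd (lt_of_lt_of_le e2 n2) (not_lt.2 (mul_nonneg k2.le f3))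

lemma sign_const {f : ℝ → ℝ} (hf : ContinuousOn f (Icc a b)) (hne : ∀ t ∈ Ioo a b, f t ≠ 0) :
    (∀ t ∈ Ioo a b, 0 < f t) ∨ ∀ t ∈ Ioo a b, f t < 0 := by
  by_contra hc
  rw [not_or] at hc
  obtain ⟨h1, h2⟩ := hc
  simp only [not_forall, not_lt] at h1 h2
  obtain ⟨t, ht, h1⟩ := h1
  obtain ⟨u, hu, h2⟩ := h2
  obtain ⟨v, hv, h3⟩ := isPreconnected_Ioo.intermediate_value ht hu
    (hf.mono Ioo_subset_Icc_self) ⟨h1, h2⟩
  exact hne v hv h3

/-- between two zeros of the radial derivative there is a radial tangent -/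
theorem Seg.lemR (h : Seg a b x y c s) (hv : ∀ t ∈ Ioo a b, x t * c t + y t * s t ≠ 0)
    (ha : x a * c a + y a * s a = 0) (hb : x b * c b + y b * s b = 0) :
    ∃ t ∈ Ioo a b, x t * s t - y t * c t = 0 := by
  by_contra hc
  have hu : ∀ t ∈ Ioo a b, x t * s t - y t * c t ≠ 0 := fun t ht e => hc ⟨t, ht, e⟩
  have m : ∀ t ∈ Ioo (-b) (-a), -t ∈ Ioo a b := fun t ht =>
    ⟨by linarith [ht.2], by linarith [ht.1]⟩
  rcases sign_const h.cU hu with h1 | h1 <;> rcases sign_const h.cV hv with h2 | h2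
  · exact h.lemR_pp h1 h2 ha hb
  · exact h.swap.rev.lemR_pp (fun t ht => by linarith [h1 _ (m t ht)])
      (fun t ht => by linarith [h2 _ (m t ht)]) (by simp only [neg_neg]; linarith)
      (by simp only [neg_neg]; linarith)
  · exact h.swap.lemR_pp (fun t ht => by linarith [h1 t ht]) (fun t ht => by linarith [h2 t ht])
      (by linarith) (by linarith)
  · exact h.rev.lemR_pp (fun t ht => by linarith [h1 _ (m t ht)])
      (fun t ht => by linarith [h2 _ (m t ht)]) (by simp only [neg_neg]; linarith)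
      (by simp only [neg_neg]; linarith)

end Pool.Agent.MP_48470b_gt
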