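import Pool.Agent.MP_48470b_gt.Base

/-! Segments of solutions of the profile equation and the monotone quantities. -/

open Set
open scoped Topology

noncomputable section

namespace Pool.Agent.MP_48470b_gt

lemma mono_le {f g : ℝ → ℝ} {a b : ℝ} (hab : a ≤ b) (hf : ContinuousOn f (Icc a b))
    (hd : ∀ u ∈ Ioo a b, HasDerivAt f (g u) u) (hg : ∀ u ∈ Ioo a b, 0 ≤ g u) : f a ≤ f b := by
  rcases hab.eq_or_lt with rfl | h
  · exact le_rfl
  obtain ⟨u, hu, he⟩ := exists_hasDerivAt_eq_slope f g h hf hd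
  have h1 := hg u hu
  rw [he, le_div_iff₀ (by linarith)] at h1
  linarith

lemma mono_lt {f g : ℝ → ℝ} {a b : ℝ} (hf : ContinuousOn f (Icc a b))
    (hd : ∀ u ∈ Ioo a b, HasDerivAt f (g u) u) (hg : ∀ u ∈ Ioo a b, 0 ≤ g u) {v : ℝ}
    (hv : v ∈ Ioo a b) (hv' : 0 < g v) : f a < f b := by
  by_contra hc
  have hc' := not_lt.1 hc
  have key : ∀ u ∈ Ioo a b, f u = f a := fun u hu => by
    have h1 : f a ≤ f u := mono_le hu.1.le (hf.mono (Icc_subset_Icc_right hu.2.le))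
      (fun w hw => hd w ⟨hw.1, hw.2.trans hu.2⟩) fun w hw => hg w ⟨hw.1, hw.2.trans hu.2⟩
    have h2 : f u ≤ f b := mono_le hu.2.le (hf.mono (Icc_subset_Icc_left hu.1.le))
      (fun w hw => hd w ⟨hu.1.trans hw.1, hw.2⟩) fun w hw => hg w ⟨hu.1.trans hw.1, hw.2⟩
    linarith
  have h3 : f =ᶠ[𝓝 v] fun _ => f a :=
    Filter.mem_of_superset (Ioo_mem_nhds hv.1 hv.2) key
  have h4 : HasDerivAt f 0 v := (hasDerivAt_const v (f a)).congr_of_eventuallyEq h3
  exact hv'.ne' ((hd v hv).unique h4)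

lemma anti_le {f g : ℝ → ℝ} {a b : ℝ} (hab : a ≤ b) (hf : ContinuousOn f (Icc a b))
    (hd : ∀ u ∈ Ioo a b, HasDerivAt f (g u) u) (hg : ∀ u ∈ Ioo a b, g u ≤ 0) : f b ≤ f a := by
  have := mono_le (f := fun u => -f u) (g := fun u => -g u) hab hf.neg
    (fun u hu => (hd u hu).neg) fun u hu => neg_nonneg.2 (hg u hu)
  linarith

lemma anti_lt {f g : ℝ → ℝ} {a b : ℝ} (hf : ContinuousOn f (Icc a b))
    (hd : ∀ u ∈ Ioo a b, HasDerivAt f (g u) u) (hg : ∀ u ∈ Ioo a b, g u ≤ 0) {v : ℝ}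
    (hv : v ∈ Ioo a b) (hv' : g v < 0) : f b < f a := by
  have := mono_lt (f := fun u => -f u) (g := fun u => -g u) hf.neg
    (fun u hu => (hd u hu).neg) (fun u hu => neg_nonneg.2 (hg u hu)) hv (neg_pos.2 hv')
  linarith

lemma exists_ne_left {f : ℝ → ℝ} {a b : ℝ} (hab : a < b) (hf : ContinuousOn f (Icc a b))
    (h : f a ≠ 0) : ∃ u ∈ Ioo a b, f u ≠ 0 := by
  by_contra hc
  have h1 : EqOn f (fun _ => 0) (Ioo a b) := fun u hu => by
    by_contra h2; exact hc ⟨u, hu, h2⟩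
  have h2 := h1.of_subset_closure hf continuousOn_const Ioo_subset_Icc_self
    (by rw [closure_Ioo hab.ne])
  exact h (h2 (left_mem_Icc.2 hab.le))

lemma exists_ne_right {f : ℝ → ℝ} {a b : ℝ} (hab : a < b) (hf : ContinuousOn f (Icc a b))
    (h : f b ≠ 0) : ∃ u ∈ Ioo a b, f u ≠ 0 := by
  by_contra hc
  have h1 : EqOn f (fun _ => 0) (Ioo a b) := fun u hu => by
    by_contra h2; exact hc ⟨u, hu, h2⟩
  have h2 := h1.of_subset_closure hf continuousOn_const Ioo_subset_Icc_self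
    (by rw [closure_Ioo hab.ne])
  exact h (h2 (right_mem_Icc.2 hab.le))

/-- a piece of a solution in the closed quadrant -/
structure Seg (a b : ℝ) (x y c s : ℝ → ℝ) : Prop where
  lt : a < b
  cx : ContinuousOn x (Icc a b)
  cy : ContinuousOn y (Icc a b)
  cc : ContinuousOn c (Icc a b)
  cs : ContinuousOn s (Icc a b)
  unit : ∀ t ∈ Icc a b, c t ^ 2 + s t ^ 2 = 1
  pos : ∀ t ∈ Ioo a b, 0 < x t ∧ 0 < y t
  nn : ∀ t ∈ Icc a b, 0 ≤ x t ∧ 0 ≤ y t ∧ 0 < x t ^ 2 + y t ^ 2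
  dx : ∀ t ∈ Ioo a b, HasDerivAt x (c t) t
  dy : ∀ t ∈ Ioo a b, HasDerivAt y (s t) t
  dc : ∀ t ∈ Ioo a b, HasDerivAt c (-(s t * kap (x t) (y t) (c t) (s t))) t
  ds : ∀ t ∈ Ioo a b, HasDerivAt s (c t * kap (x t) (y t) (c t) (s t)) t

variable {a b L : ℝ} {x y c s : ℝ → ℝ}

lemma Prof.seg (h : Prof L x y c s) : Seg 0 L x y c s where
  lt := h.L_pos
  cx := h.cx
  cy := h.cy
  cc := h.cc
  cs := h.cs
  unit := h.unit
  pos := h.pos
  nn := fun t ht => by
    rcases ht.1.eq_or_lt with rfl | h1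
    · have := h.x0
      exact ⟨this.le, h.y0.ge, by positivity⟩
    rcases ht.2.eq_or_lt with rfl | h2
    · have := h.yL
      exact ⟨h.xL.ge, this.le, by positivity⟩
    have := h.pos t ⟨h1, h2⟩
    exact ⟨this.1.le, this.2.le, by have := this.1; positivity⟩
  dx := h.dx
  dy := h.dy
  dc := h.dc
  ds := h.ds

lemma Seg.sub (h : Seg a b x y c s) {a' b' : ℝ} (h1 : a ≤ a') (h2 : a' < b') (h3 : b' ≤ b) :
    Seg a' b' x y c s where
  lt := h2
  cx := h.cx.mono (Icc_subset_Icc h1 h3)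
  cy := h.cy.mono (Icc_subset_Icc h1 h3)
  cc := h.cc.mono (Icc_subset_Icc h1 h3)
  cs := h.cs.mono (Icc_subset_Icc h1 h3)
  unit := fun t ht => h.unit t (Icc_subset_Icc h1 h3 ht)
  pos := fun t ht => h.pos t (Ioo_subset_Ioo h1 h3 ht)
  nn := fun t ht => h.nn t (Icc_subset_Icc h1 h3 ht)
  dx := fun t ht => h.dx t (Ioo_subset_Ioo h1 h3 ht)
  dy := fun t ht => h.dy t (Ioo_subset_Ioo h1 h3 ht)
  dc := fun t ht => h.dc t (Ioo_subset_Ioo h1 h3 ht)
  ds := fun t ht => h.ds t (Ioo_subset_Ioo h1 h3 ht)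

lemma Seg.swap (h : Seg a b x y c s) : Seg a b y x s c where
  lt := h.lt
  cx := h.cy
  cy := h.cx
  cc := h.cs
  cs := h.cc
  unit := fun t ht => by rw [add_comm]; exact h.unit t ht
  pos := fun t ht => (h.pos t ht).symm
  nn := fun t ht => ⟨(h.nn t ht).2.1, (h.nn t ht).1, by rw [add_comm]; exact (h.nn t ht).2.2⟩
  dx := h.dy
  dy := h.dx
  dc := fun t ht => by convert h.ds t ht using 1; unfold kap; ring
  ds := fun t ht => by convert h.dc t ht using 1; unfold kap; ring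

lemma Seg.rev (h : Seg a b x y c s) :
    Seg (-b) (-a) (fun t => x (-t)) (fun t => y (-t)) (fun t => -c (-t)) (fun t => -s (-t)) := by
  have m1 : MapsTo (fun t : ℝ => -t) (Icc (-b) (-a)) (Icc a b) := fun t ht =>
    ⟨by linarith [ht.2], by linarith [ht.1]⟩
  have m2 : ∀ t ∈ Ioo (-b) (-a), -t ∈ Ioo a b := fun t ht =>
    ⟨by linarith [ht.2], by linarith [ht.1]⟩
  refine ⟨by linarith [h.lt], h.cx.comp continuousOn_neg m1, h.cy.comp continuousOn_neg m1,
    (h.cc.comp continuousOn_neg m1).neg, (h.cs.comp continuousOn_neg m1).neg, fun t ht => ?_,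
    fun t ht => h.pos _ (m2 t ht), fun t ht => h.nn _ (m1 ht), fun t ht => ?_, fun t ht => ?_,
    fun t ht => ?_, fun t ht => ?_⟩
  · rw [neg_sq, neg_sq]; exact h.unit _ (m1 ht)
  · exact ((h.dx _ (m2 t ht)).comp t (hasDerivAt_neg t)).congr_deriv (by ring)
  · exact ((h.dy _ (m2 t ht)).comp t (hasDerivAt_neg t)).congr_deriv (by ring)
  · exact ((h.dc _ (m2 t ht)).comp t (hasDerivAt_neg t)).neg.congr_deriv (by unfold kap; ring)
  · exact ((h.ds _ (m2 t ht)).comp t (hasDerivAt_neg t)).neg.congr_deriv (by unfold kap; ring)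

def rE (x y : ℝ) : ℝ := Real.exp (-((x ^ 2 + y ^ 2) / 4))
def rLam (x y c s : ℝ) : ℝ := (s * y * (x ^ 2 - 2) - c * x * (y ^ 2 - 4)) / 2
def rPi (x y c s : ℝ) : ℝ := rLam x y c s - c ^ 2 * (x * c + y * s)

lemma rE_pos (x y : ℝ) : 0 < rE x y := Real.exp_pos _

namespace Seg
variable (h : Seg a b x y c s)
include h

lemma cE : ContinuousOn (fun t => rE (x t) (y t)) (Icc a b) := by
  have := h.cx; have := h.cy
  unfold rE; fun_prop
lemma cLam : ContinuousOn (fun t => rLam (x t) (y t) (c t) (s t)) (Icc a b) := by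
  have := h.cx; have := h.cy; have := h.cc; have := h.cs
  unfold rLam; fun_prop
lemma cV : ContinuousOn (fun t => x t * c t + y t * s t) (Icc a b) := by
  have := h.cx; have := h.cy; have := h.cc; have := h.cs
  fun_prop
lemma cU : ContinuousOn (fun t => x t * s t - y t * c t) (Icc a b) := by
  have := h.cx; have := h.cy; have := h.cc; have := h.cs
  fun_prop
lemma cP : ContinuousOn (fun t => x t ^ 2 + y t ^ 2) (Icc a b) := by
  have := h.cx; have := h.cy
  fun_prop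
lemma cPi : ContinuousOn (fun t => rPi (x t) (y t) (c t) (s t)) (Icc a b) :=
  h.cLam.sub ((h.cc.pow 2).mul h.cV)

variable {t : ℝ} (ht : t ∈ Ioo a b)
include ht

lemma dP : HasDerivAt (fun t => x t ^ 2 + y t ^ 2) (2 * (x t * c t + y t * s t)) t :=
  (((h.dx t ht).fun_pow 2).fun_add ((h.dy t ht).fun_pow 2)).congr_deriv (by simp; ring)

lemma dE : HasDerivAt (fun t => rE (x t) (y t))
    (-(x t * c t + y t * s t) / 2 * rE (x t) (y t)) t :=
  (((h.dP ht).div_const 4).fun_neg).exp.congr_deriv (by unfold rE; ring)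

lemma dV : HasDerivAt (fun t => x t * c t + y t * s t)
    (1 - kap (x t) (y t) (c t) (s t) * (x t * s t - y t * c t)) t := by
  refine (((h.dx t ht).fun_mul (h.dc t ht)).fun_add
    ((h.dy t ht).fun_mul (h.ds t ht))).congr_deriv ?_
  have := h.unit t (Ioo_subset_Icc_self ht)
  linear_combination this

lemma dLam : HasDerivAt (fun t => rLam (x t) (y t) (c t) (s t))
    ((c t * kap (x t) (y t) (c t) (s t) * y t * (x t ^ 2 - 2) + s t * s t * (x t ^ 2 - 2) +
      s t * y t * (2 * x t * c t) + s t * kap (x t) (y t) (c t) (s t) * x t * (y t ^ 2 - 4) -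
      c t * c t * (y t ^ 2 - 4) - c t * x t * (2 * y t * s t)) / 2) t :=
  (((((h.ds t ht).fun_mul (h.dy t ht)).fun_mul (((h.dx t ht).fun_pow 2).sub_const 2)).fun_sub
    (((h.dc t ht).fun_mul (h.dx t ht)).fun_mul
      (((h.dy t ht).fun_pow 2).sub_const 4))).div_const 2).congr_deriv (by simp; ring)

lemma dA1 : HasDerivAt (fun t => x t * y t * rE (x t) (y t) * rLam (x t) (y t) (c t) (s t))
    (-(x t * y t * rE (x t) (y t) * c t ^ 2 * (x t ^ 2 + y t ^ 2 - 6) / 2)) t := by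
  refine ((((h.dx t ht).fun_mul (h.dy t ht)).fun_mul (h.dE ht)).fun_mul (h.dLam ht)).congr_deriv ?_
  have hu := h.unit t (Ioo_subset_Icc_self ht)
  obtain ⟨hx, hy⟩ := h.pos t ht
  unfold kap rLam
  field_simp
  grind

lemma dWV : HasDerivAt (fun t => x t * y t * rE (x t) (y t) * (x t * c t + y t * s t))
    (-(x t * y t * rE (x t) (y t) * (x t ^ 2 + y t ^ 2 - 6) / 2)) t := by
  refine ((((h.dx t ht).fun_mul (h.dy t ht)).fun_mul (h.dE ht)).fun_mul (h.dV ht)).congr_deriv ?_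
  have hu := h.unit t (Ioo_subset_Icc_self ht)
  obtain ⟨hx, hy⟩ := h.pos t ht
  unfold kap
  field_simp
  grind

lemma dA2 : HasDerivAt (fun t => x t * y t * rE (x t) (y t) *
      (x t * c t + y t * s t - rLam (x t) (y t) (c t) (s t)))
    (-(x t * y t * rE (x t) (y t) * s t ^ 2 * (x t ^ 2 + y t ^ 2 - 6) / 2)) t := by
  refine ((((h.dx t ht).fun_mul (h.dy t ht)).fun_mul (h.dE ht)).fun_mul
    ((h.dV ht).fun_sub (h.dLam ht))).congr_deriv ?_
  have hu := h.unit t (Ioo_subset_Icc_self ht)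
  obtain ⟨hx, hy⟩ := h.pos t ht
  unfold kap rLam
  field_simp
  grind

lemma dPi : HasDerivAt (fun t => rPi (x t) (y t) (c t) (s t))
    ((c t * kap (x t) (y t) (c t) (s t) * y t * (x t ^ 2 - 2) + s t * s t * (x t ^ 2 - 2) +
      s t * y t * (2 * x t * c t) + s t * kap (x t) (y t) (c t) (s t) * x t * (y t ^ 2 - 4) -
      c t * c t * (y t ^ 2 - 4) - c t * x t * (2 * y t * s t)) / 2 -
      (-(2 * c t * s t * kap (x t) (y t) (c t) (s t)) * (x t * c t + y t * s t) +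
        c t ^ 2 * (1 - kap (x t) (y t) (c t) (s t) * (x t * s t - y t * c t)))) t :=
  ((h.dLam ht).fun_sub (((h.dc t ht).fun_pow 2).fun_mul (h.dV ht))).congr_deriv
    (by push_cast; ring)

lemma dN3 : HasDerivAt (fun t => x t / y t * rE (x t) (y t) * rPi (x t) (y t) (c t) (s t))
    (-(2 * (x t * s t - y t * c t) * (s t / y t) ^ 2 * rE (x t) (y t) *
      rLam (x t) (y t) (c t) (s t))) t := by
  obtain ⟨hx, hy⟩ := h.pos t ht
  refine ((((h.dx t ht).fun_div (h.dy t ht) hy.ne').fun_mul (h.dE ht)).fun_mul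
    (h.dPi ht)).congr_deriv ?_
  have hu := h.unit t (Ioo_subset_Icc_self ht)
  unfold kap rPi rLam
  field_simp
  grind

lemma dN2 : HasDerivAt (fun t => y t / x t * rE (x t) (y t) * rPi (x t) (y t) (c t) (s t))
    (-(2 * (x t * s t - y t * c t) * (c t / x t) ^ 2 * rE (x t) (y t) *
      (x t * c t + y t * s t - rLam (x t) (y t) (c t) (s t)))) t := by
  obtain ⟨hx, hy⟩ := h.pos t ht
  refine ((((h.dy t ht).fun_div (h.dx t ht) hx.ne').fun_mul (h.dE ht)).fun_mul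
    (h.dPi ht)).congr_deriv ?_
  have hu := h.unit t (Ioo_subset_Icc_self ht)
  unfold kap rPi rLam
  field_simp
  grind

end Seg

end Pool.Agent.MP_48470b_gt
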