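import Pool.Agent.MP_48470b_gt.Red0

open Set
open scoped Topology ContDiff

noncomputable section

namespace Pool.Agent.MP_48470b_gt

theorem RedD_polar (x y : ℝ) :
    ∃ a, x = Real.cos a * √(x ^ 2 + y ^ 2) ∧ y = Real.sin a * √(x ^ 2 + y ^ 2) := by
  have e : ‖(⟨x, y⟩ : ℂ)‖ = √(x ^ 2 + y ^ 2) := Complex.norm_eq_sqrt_sq_add_sq _
  refine ⟨Complex.arg ⟨x, y⟩, ?_, ?_⟩
  · rw [← e, mul_comm, Complex.norm_mul_cos_arg]
  · rw [← e, mul_comm, Complex.norm_mul_sin_arg]

theorem RedD_inv (a b : ℝ) (p : E4) : rot (-a) (-b) (rot a b p) = p := by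
  have h1 := Real.sin_sq_add_cos_sq a
  have h2 := Real.sin_sq_add_cos_sq b
  ext i
  fin_cases i <;> simp [rot]
  · linear_combination (p 0) * h1
  · linear_combination (p 1) * h1
  · linear_combination (p 2) * h2
  · linear_combination (p 3) * h2

theorem mem_iff_io {S : Set E4} (hR : ∀ α β, ∀ p ∈ S, rot α β p ∈ S) (p : E4) :
    p ∈ S ↔ (√(p 0 ^ 2 + p 1 ^ 2), √(p 2 ^ 2 + p 3 ^ 2)) ∈ Gam S := by
  obtain ⟨a, a1, a2⟩ := RedD_polar (p 0) (p 1)
  obtain ⟨b, b1, b2⟩ := RedD_polar (p 2) (p 3)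
  have e : rot a b (io (√(p 0 ^ 2 + p 1 ^ 2), √(p 2 ^ 2 + p 3 ^ 2))) = p := by
    ext i
    fin_cases i <;> simp [rot, io]
    · exact a1.symm
    · exact a2.symm
    · exact b1.symm
    · exact b2.symm
  constructor
  · intro h
    have := hR (-a) (-b) p h
    rw [← e, RedD_inv] at this
    exact this
  · intro h
    rw [← e]
    exact hR a b _ h

theorem RedD_cont : Continuous io := by
  unfold io
  refine (PiLp.continuous_toLp 2 _).comp (continuous_pi fun i => ?_)
  fin_cases i <;> simp <;> fun_prop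

theorem isCompact_Gam {S : Set E4} (hS : IsCompact S) : IsCompact (Gam S) := by
  have h : Function.LeftInverse (fun p : E4 => (p 0, p 2)) io := fun z => by simp [io]
  exact (h.isClosedEmbedding (by fun_prop) RedD_cont).isCompact_preimage hS

theorem RedD_wind {S : Set E4} (h : S ≃ₜ Metric.sphere (0 : E4) 1) (g : E4 → ℂ) (hg : Continuous g)
    (hne : ∀ p ∈ S, g p ≠ 0) (c : ℝ → E4) (hc : Continuous c) (hm : ∀ t, c t ∈ S) (q : E4)
    (hq : q ∈ S) (hd : ∀ t, c t ≠ q) (a : ℂ) (he : ∀ t : ℝ, g (c t) = a * Complex.exp (t * Complex.I))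
    (hp : c (2 * Real.pi) = c 0) : False := by
  have : Fact (Module.finrank ℝ E4 = 3 + 1) := ⟨finrank_euclideanSpace_fin⟩
  let e := stereographic' 3 (h ⟨q, hq⟩)
  have c1 : Continuous e.symm := continuousOn_univ.1 (by
    have := e.continuousOn_symm
    rwa [stereographic'_target] at this)
  let f : C(EuclideanSpace ℝ (Fin 3), {z : ℂ // z ≠ 0}) :=
    ⟨fun y => ⟨g (h.symm (e.symm y)), hne _ (h.symm (e.symm y)).2⟩, by fun_prop⟩
  obtain ⟨F, ⟨-, hF⟩, -⟩ := Complex.isCoveringMap_exp.existsUnique_continuousMap_lifts f 0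
    (Complex.log (f 0)) (Subtype.ext (Complex.exp_log (f 0).2))
  have hs : ∀ t, h ⟨c t, hm t⟩ ∈ e.source := fun t => by
    rw [stereographic'_source]
    exact fun k => hd t (congrArg Subtype.val (h.injective k))
  have c2 : Continuous fun t => e (h ⟨c t, hm t⟩) :=
    e.continuousOn.comp_continuous (by fun_prop) hs
  have k1 : ∀ t : ℝ, Complex.exp (F (e (h ⟨c t, hm t⟩)) - t * Complex.I) = a := fun t => by
    have := congrArg Subtype.val (congrFun hF (e (h ⟨c t, hm t⟩)))
    simp only [Function.comp, f, ContinuousMap.coe_mk, e.left_inv (hs t),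
      Homeomorph.symm_apply_apply, he] at this
    rw [Complex.exp_sub, this, mul_div_cancel_right₀ _ (Complex.exp_ne_zero _)]
  have k2 := Complex.isCoveringMap_exp.const_of_comp
    (g := fun t : ℝ => F (e (h ⟨c t, hm t⟩)) - t * Complex.I)
    ((F.continuous.comp c2).sub (by fun_prop))
    (fun s t => Subtype.ext ((k1 s).trans (k1 t).symm)) (2 * Real.pi) 0
  simp only [hp, sub_right_inj] at k2
  simp [Real.pi_ne_zero] at k2

theorem RedD_rot (p : E4) (a b : ℝ → ℝ) (ha : Continuous a) (hb : Continuous b) :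
    Continuous fun t => rot (a t) (b t) p := by
  unfold rot
  refine (PiLp.continuous_toLp 2 _).comp (continuous_pi fun i => ?_)
  fin_cases i <;> simp <;> fun_prop

theorem meets_planes {S : Set E4} (hT : Nonempty (S ≃ₜ Metric.sphere (0 : E4) 1))
    (hR : ∀ α β, ∀ p ∈ S, rot α β p ∈ S) (hp : ∃ z ∈ Gam S, z.1 ≠ 0 ∧ z.2 ≠ 0) :
    (∃ p ∈ S, p 0 = 0 ∧ p 1 = 0) ∧ ∃ p ∈ S, p 2 = 0 ∧ p 3 = 0 := by
  obtain ⟨h⟩ := hT
  obtain ⟨z, hz, z1, z2⟩ := hp
  constructor
  · by_contra! hc
    refine RedD_wind h (fun p => p 0 + p 1 * Complex.I) (by fun_prop) (fun p hp k => ?_)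
      (fun t => rot t 0 (io z)) (RedD_rot _ _ _ continuous_id continuous_const)
      (fun t => hR _ _ _ hz) _ (hR 0 Real.pi _ hz) (fun t k => ?_) z.1 (fun t => ?_) ?_
    · exact hc p hp (by simpa using congrArg Complex.re k) (by simpa using congrArg Complex.im k)
    · have := congrArg (fun p : E4 => p 2) k
      simp [rot, io] at this
      exact z2 (by linarith)
    · rw [Complex.exp_mul_I]
      simp [rot, io]
      ring
    · simp [rot]
  · by_contra! hc
    refine RedD_wind h (fun p => p 2 + p 3 * Complex.I) (by fun_prop) (fun p hp k => ?_)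
      (fun t => rot 0 t (io z)) (RedD_rot _ _ _ continuous_const continuous_id)
      (fun t => hR _ _ _ hz) _ (hR Real.pi 0 _ hz) (fun t k => ?_) z.2 (fun t => ?_) ?_
    · exact hc p hp (by simpa using congrArg Complex.re k) (by simpa using congrArg Complex.im k)
    · have := congrArg (fun p : E4 => p 0) k
      simp [rot, io] at this
      exact z1 (by linarith)
    · rw [Complex.exp_mul_I]
      simp [rot, io]
      ring
    · simp [rot]

end Pool.Agent.MP_48470b_gt
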