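import Pool.Agent.MP_48470b_gt.RedB

open Set
open scoped Topology ContDiff

noncomputable section

namespace Pool.Agent.MP_48470b_gt

lemma RedE_pos {f : ℝ → ℝ} {d t : ℝ} (hd : HasDerivAt f d t) (h0 : f t = 0) (hp : 0 < d) :
    ∃ δ > 0, ∀ u, |u| < δ → (0 < u → 0 < f (t + u)) ∧ (u < 0 → f (t + u) < 0) := by
  have h1 : ∀ᶠ u in 𝓝[≠] (0:ℝ), 0 < u⁻¹ • (f (t + u) - f t) :=
    hd.tendsto_slope_zero.eventually (lt_mem_nhds hp)
  rw [eventually_nhdsWithin_iff, Metric.eventually_nhds_iff] at h1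
  obtain ⟨δ, hδ, h1⟩ := h1
  refine ⟨δ, hδ, fun u hu => ⟨fun h => ?_, fun h => ?_⟩⟩
  · have := h1 (y := u) (by simpa using hu) h.ne'
    rw [h0, sub_zero, smul_eq_mul] at this
    exact (mul_pos_iff_of_pos_left (inv_pos.2 h)).1 this
  · have := h1 (y := u) (by simpa using hu) h.ne
    rw [h0, sub_zero, smul_eq_mul] at this
    exact neg_of_mul_pos_right this (inv_lt_zero.2 h).le

lemma RedE_neg {f : ℝ → ℝ} {d t : ℝ} (hd : HasDerivAt f d t) (h0 : f t = 0) (hp : d < 0) :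
    ∃ δ > 0, ∀ u, |u| < δ → (0 < u → f (t + u) < 0) ∧ (u < 0 → 0 < f (t + u)) := by
  obtain ⟨δ, hδ, h⟩ := RedE_pos (f := fun u => -f u) hd.neg (by simp [h0]) (neg_pos.2 hp)
  exact ⟨δ, hδ, fun u hu => ⟨fun e => by linarith [(h u hu).1 e],
    fun e => by linarith [(h u hu).2 e]⟩⟩

lemma RedE_ne {f : ℝ → ℝ} {d t : ℝ} (hd : HasDerivAt f d t) (h0 : f t = 0) (hp : d ≠ 0) :
    ∃ δ > 0, ∀ u, 0 < u → u < δ → f (t + u) ≠ 0 := by
  rcases hp.lt_or_gt with e | e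
  · obtain ⟨δ, hδ, h⟩ := RedE_neg hd h0 e
    exact ⟨δ, hδ, fun u h1 h2 => ((h u (by rwa [abs_of_pos h1])).1 h1).ne⟩
  · obtain ⟨δ, hδ, h⟩ := RedE_pos hd h0 e
    exact ⟨δ, hδ, fun u h1 h2 => ((h u (by rwa [abs_of_pos h1])).1 h1).ne'⟩

variable {Γ : Set (ℝ × ℝ)} {I : Set ℝ} {γ T : ℝ → ℝ × ℝ}

lemma IsArc.d1 (h : IsArc Γ I γ T) {t : ℝ} (ht : t ∈ I) :
    HasDerivAt (fun u => (γ u).1) (T t).1 t :=
  (ContinuousLinearMap.fst ℝ ℝ ℝ).hasFDerivAt.comp_hasDerivAt t (h.der t ht)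

lemma IsArc.d2 (h : IsArc Γ I γ T) {t : ℝ} (ht : t ∈ I) :
    HasDerivAt (fun u => (γ u).2) (T t).2 t :=
  (ContinuousLinearMap.snd ℝ ℝ ℝ).hasFDerivAt.comp_hasDerivAt t (h.der t ht)

lemma IsArc.not_origin (hΓ : LocAll Γ) (h : IsArc Γ I γ T) (hI : IsOpen I) {t : ℝ} (ht : t ∈ I)
    (h1 : (γ t).1 = 0) (h2 : (γ t).2 = 0) : False := by
  have := h.unit t ht
  rw [h.ax1 hΓ hI ht h1, h.ax2 hΓ hI ht h2] at this
  simp at this

/-- the product of the coordinates has non-zero derivative on the axes -/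
lemma IsArc.dprod (hΓ : LocAll Γ) (h : IsArc Γ I γ T) (hI : IsOpen I) {t : ℝ} (ht : t ∈ I)
    (h0 : (γ t).1 * (γ t).2 = 0) : (T t).1 * (γ t).2 + (γ t).1 * (T t).2 ≠ 0 := by
  have hu := h.unit t ht
  rcases mul_eq_zero.1 h0 with e | e
  · have e2 := h.ax1 hΓ hI ht e
    rw [e, zero_mul, add_zero]
    refine mul_ne_zero (fun e3 => ?_) fun e3 => h.not_origin hΓ hI ht e e3
    rw [e2, e3] at hu; simp at hu
  · have e2 := h.ax2 hΓ hI ht e
    rw [e, mul_zero, zero_add]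
    refine mul_ne_zero (fun e3 => h.not_origin hΓ hI ht e3 e) fun e3 => ?_
    rw [e2, e3] at hu; simp at hu

theorem exists_offaxis {Γ : Set (ℝ × ℝ)} (hΓ : LocAll Γ) {z : ℝ × ℝ} (hz : z ∈ Γ) :
    ∃ z' ∈ Γ, z'.1 ≠ 0 ∧ z'.2 ≠ 0 := by
  by_cases h0 : z.1 * z.2 = 0
  · obtain ⟨ε, hε, α, τ, h, rfl⟩ := exists_arc hΓ hz
    have m : (0:ℝ) ∈ Ioo (-ε) ε := ⟨by linarith, hε⟩
    obtain ⟨δ, hδ, h1⟩ := RedE_ne ((h.d1 m).fun_mul (h.d2 m)) h0 (h.dprod hΓ isOpen_Ioo m h0)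
    have p : 0 < min δ ε := lt_min hδ hε
    have := h1 (min δ ε / 2) (by linarith) (by linarith [min_le_left δ ε])
    rw [zero_add] at this
    exact ⟨_, h.mem _ ⟨by linarith, by linarith [min_le_right δ ε]⟩, mul_ne_zero_iff.1 this⟩
  · exact ⟨z, hz, mul_ne_zero_iff.1 h0⟩

variable {ε : ℝ}

/-- a double point forces a return to the starting point -/
lemma RedE_return (hΓ : LocAll Γ) (hε : 0 < ε) (h : IsArc Γ (Ioi (-ε)) γ T) {t u : ℝ}
    (ht : 0 ≤ t) (htu : t < u) (he : γ t = γ u) : γ (u - t) = γ 0 := by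
  have mt : t ∈ Ioi (-ε) := by simp only [mem_Ioi]; linarith
  have mu : u ∈ Ioi (-ε) := by simp only [mem_Ioi]; linarith
  obtain ⟨σ, hσ, h1⟩ := h.follow hΓ isOpen_Ioi ordConnected_Ioi h isOpen_Ioi ordConnected_Ioi
    mt mu he
  rcases hσ with rfl | rfl
  · have := (h1 (-t) (by simp only [mem_Ioi]; linarith) (by simp only [mem_Ioi]; linarith)).1
    rw [add_neg_cancel, one_mul, ← sub_eq_add_neg] at this
    exact this.symm
  · have m : t + (u - t) / 2 ∈ Ioi (-ε) := by simp only [mem_Ioi]; linarith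
    have e : u + -1 * ((u - t) / 2) = t + (u - t) / 2 := by ring
    have h2 := (h1 ((u - t) / 2) m (e ▸ m)).2
    rw [e] at h2
    have h3 := h.unit _ m
    have a1 := congrArg Prod.fst h2
    have a2 := congrArg Prod.snd h2
    simp only [Prod.smul_fst, Prod.smul_snd, smul_eq_mul] at a1 a2
    have b1 : (T (t + (u - t) / 2)).1 = 0 := by linarith
    have b2 : (T (t + (u - t) / 2)).2 = 0 := by linarith
    rw [b1, b2] at h3
    simp at h3

lemma RedE_double (hΓ : LocAll Γ) (hc : IsCompact Γ) (hε : 0 < ε) (h : IsArc Γ (Ioi (-ε)) γ T) :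
    ∃ t u, 0 ≤ t ∧ t < u ∧ γ t = γ u := by
  have mem : ∀ n : ℕ, γ (n + 1) ∈ Γ := fun n => h.mem _ (by
    have : (0:ℝ) ≤ n := Nat.cast_nonneg n
    simp only [mem_Ioi]; linarith)
  obtain ⟨z, hz, φ, hφ, hlim⟩ := hc.tendsto_subseq mem
  obtain ⟨η, hη, α, τ, ha, rfl⟩ := exists_arc hΓ hz
  have m : (0:ℝ) ∈ Ioo (-η) η := ⟨by linarith, hη⟩
  have hcov := hlim.eventually (ha.cover hΓ isOpen_Ioo m (lt_min hη (by norm_num : (0:ℝ) < 1/4)))
  obtain ⟨N, hN⟩ := Filter.eventually_atTop.1 hcov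
  have key : ∀ n, N ≤ n → ∃ v, |v| < 1/4 ∧ γ (φ n + 1 + v) = α 0 := by
    intro n hn
    obtain ⟨s, hs, he⟩ := hN n hn (mem _)
    rw [zero_add] at he
    have s1 := abs_lt.1 (hs.trans_le (min_le_left _ _))
    have s2 := abs_lt.1 (hs.trans_le (min_le_right _ _))
    have n0 : (0:ℝ) ≤ φ n := Nat.cast_nonneg _
    obtain ⟨σ, hσ, h1⟩ := h.follow hΓ isOpen_Ioi ordConnected_Ioi ha isOpen_Ioo ordConnected_Ioo
      (a := φ n + 1) (b := s) (by simp only [mem_Ioi]; linarith) ⟨s1.1, s1.2⟩ he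
    rcases hσ with rfl | rfl
    · refine ⟨-s, by rw [abs_neg]; exact abs_lt.2 s2, ?_⟩
      have := (h1 (-s) (by simp only [mem_Ioi]; linarith) (by simpa using hη)).1
      simpa using this
    · refine ⟨s, abs_lt.2 s2, ?_⟩
      have := (h1 s (by simp only [mem_Ioi]; linarith) (by simpa using hη)).1
      simpa using this
  obtain ⟨v, hv, e1⟩ := key N le_rfl
  obtain ⟨w, hw, e2⟩ := key (N + 1) (Nat.le_succ N)
  have a1 := abs_lt.1 hv
  have a2 := abs_lt.1 hw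
  have n0 : (0:ℝ) ≤ φ N := Nat.cast_nonneg _
  have n1 : (φ N : ℝ) + 1 ≤ φ (N + 1) := by exact_mod_cast hφ (Nat.lt_succ_self N)
  exact ⟨_, _, by linarith, by linarith, e1.trans e2.symm⟩

theorem exists_profile {Γ : Set (ℝ × ℝ)} (hΓ : LocAll Γ) (hc : IsCompact Γ) {a : ℝ} (ha : 0 < a)
    (hA : (a, 0) ∈ Γ) : ∃ (L : ℝ) (x y c s : ℝ → ℝ), 0 < L ∧ ContinuousOn x (Icc 0 L) ∧
      ContinuousOn y (Icc 0 L) ∧ (∀ t ∈ Icc 0 L, (x t, y t) ∈ Γ) ∧ (x 0, y 0) = (a, 0) ∧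
      (∀ t ∈ Icc 0 L, ∀ᶠ z in 𝓝 (x t, y t), z ∈ Γ → 0 ≤ z.1 → 0 ≤ z.2 →
        ∃ u ∈ Icc 0 L, z = (x u, y u)) ∧
      ((∃ t ∈ Icc 0 L, x t = 0) → Prof L x y c s) := by
  obtain ⟨ε, hε, α, τ, h0, e0⟩ := exists_arc hΓ hA
  have m0 : (0:ℝ) ∈ Ioo (-ε) ε := ⟨by linarith, hε⟩
  have t1 : (τ 0).1 = 0 := h0.ax2 hΓ isOpen_Ioo m0 (by rw [e0])
  have t2 : (τ 0).2 = 1 ∨ (τ 0).2 = -1 := by
    have := h0.unit 0 m0
    rw [t1] at this
    exact mul_self_eq_one_iff.1 (by linarith)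
  have h1 : IsArc Γ (Ioo (-ε) ε) (fun u => α (0 + (τ 0).2 * u))
      (fun u => (τ 0).2 • τ (0 + (τ 0).2 * u)) := (h0.shift 0 t2).mono fun u hu => by
    rcases t2 with e | e <;> rw [e] <;> constructor <;> linarith [hu.1, hu.2]
  obtain ⟨γ, T, h, g0, T0⟩ := exists_global hΓ hc hε h1
  simp only [mul_zero, add_zero, e0] at g0 T0
  have T01 : (T 0).1 = 0 := by rw [T0]; simp [t1]
  have T02 : (T 0).2 = 1 := by rw [T0]; rcases t2 with e | e <;> simp [e]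
  have mI : ∀ t, 0 ≤ t → t ∈ Ioi (-ε) := fun t ht => by simp only [mem_Ioi]; linarith
  have x0 : (γ 0).1 = a := by rw [g0]
  have y0 : (γ 0).2 = 0 := by rw [g0]
  have cx : ∀ t, 0 ≤ t → ContinuousAt (fun u => (γ u).1) t := fun t ht => (h.d1 (mI t ht)).continuousAt
  have cy : ∀ t, 0 ≤ t → ContinuousAt (fun u => (γ u).2) t := fun t ht => (h.d2 (mI t ht)).continuousAt
  obtain ⟨t, u, ht, htu, he⟩ := RedE_double hΓ hc hε h
  have hb : (γ (u - t)).1 * (γ (u - t)).2 = 0 := by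
    rw [RedE_return hΓ hε h ht htu he, y0, mul_zero]
  obtain ⟨δ₀, hδ₀, d0⟩ := RedE_pos (h.d2 (mI 0 le_rfl)) y0 (by rw [T02]; exact one_pos)
  obtain ⟨δ₁, hδ₁, d1⟩ := RedE_ne ((h.d1 (mI 0 le_rfl)).fun_mul (h.d2 (mI 0 le_rfl)))
    (by rw [y0, mul_zero]) (h.dprod hΓ isOpen_Ioi (mI 0 le_rfl) (by rw [y0, mul_zero]))
  obtain ⟨L, hL, hL0, hLne⟩ := exists_first_zero (f := fun t => (γ t).1 * (γ t).2)
    (sub_pos.2 htu) (fun w hw => ((cx w hw.1).mul (cy w hw.1)).continuousWithinAt) hb (by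
      filter_upwards [Ioo_mem_nhdsGT hδ₁] with w hw
      simpa using d1 w hw.1 hw.2)
  have Lp := hL.1
  have cX : ContinuousOn (fun u => (γ u).1) (Icc 0 L) := fun w hw => (cx w hw.1).continuousWithinAt
  have cY : ContinuousOn (fun u => (γ u).2) (Icc 0 L) := fun w hw => (cy w hw.1).continuousWithinAt
  have xp : ∀ w ∈ Ico 0 L, 0 < (γ w).1 :=
    pos_of_ne isPreconnected_Ico (cX.mono Ico_subset_Icc_self) (fun w hw => by
      rcases hw.1.eq_or_lt with rfl | e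
      · rw [x0]; exact ha.ne'
      · exact left_ne_zero_of_mul (hLne w ⟨e, hw.2⟩)) ⟨le_rfl, Lp⟩ (by rw [x0]; exact ha)
  have yp : ∀ w ∈ Ioo 0 L, 0 < (γ w).2 := by
    have p : 0 < min δ₀ L := lt_min hδ₀ Lp
    refine pos_of_ne isPreconnected_Ioo (cY.mono Ioo_subset_Icc_self)
      (fun w hw => right_ne_zero_of_mul (hLne w hw)) (t0 := min δ₀ L / 2)
      ⟨by linarith, by linarith [min_le_right δ₀ L]⟩ ?_
    have := (d0 (min δ₀ L / 2) (by
      rw [abs_of_pos (by linarith)]; linarith [min_le_left δ₀ L])).1 (by linarith)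
    simpa using this
  have mL := mI L Lp.le
  have before : ∀ {f : ℝ → ℝ} {d : ℝ}, HasDerivAt f d L → f L = 0 → (∀ w ∈ Ioo 0 L, 0 < f w) →
      d ≠ 0 → d < 0 := by
    intro f d hd hf hp hne
    refine hne.lt_or_gt.resolve_right fun e => ?_
    obtain ⟨δ, hδ, k⟩ := RedE_pos hd hf e
    have p : 0 < min δ L := lt_min hδ Lp
    have k1 := (k (-(min δ L / 2)) (by
      rw [abs_neg, abs_of_pos (by linarith)]; linarith [min_le_left δ L])).2 (by linarith)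
    have k2 := hp (L + -(min δ L / 2)) ⟨by linarith [min_le_right δ L], by linarith⟩
    linarith
  have endx : (γ L).1 = 0 → (T L).1 < 0 := fun e =>
    before (h.d1 mL) e (fun w hw => xp w (Ioo_subset_Ico_self hw)) fun e2 => by
      have := h.unit L mL
      rw [e2, h.ax1 hΓ isOpen_Ioi mL e] at this; simp at this
  have endy : (γ L).2 = 0 → (T L).2 < 0 := fun e =>
    before (h.d2 mL) e yp fun e2 => by
      have := h.unit L mL
      rw [e2, h.ax2 hΓ isOpen_Ioi mL e] at this; simp at this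
  have after : ∃ δ > 0, ∀ w, 0 < w → w < δ → (γ (L + w)).1 < 0 ∨ (γ (L + w)).2 < 0 := by
    rcases mul_eq_zero.1 hL0 with e | e
    · obtain ⟨δ, hδ, k⟩ := RedE_neg (h.d1 mL) e (endx e)
      exact ⟨δ, hδ, fun w h1 h2 => .inl ((k w (by rwa [abs_of_pos h1])).1 h1)⟩
    · obtain ⟨δ, hδ, k⟩ := RedE_neg (h.d2 mL) e (endy e)
      exact ⟨δ, hδ, fun w h1 h2 => .inr ((k w (by rwa [abs_of_pos h1])).1 h1)⟩
  obtain ⟨δ₂, hδ₂, d2⟩ := after
  refine ⟨L, fun u => (γ u).1, fun u => (γ u).2, fun u => (T u).1, fun u => (T u).2, Lp, cX, cY,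
    fun w hw => h.mem w (mI w hw.1), g0, fun w hw => ?_, fun hx => ?_⟩
  · filter_upwards [h.cover hΓ isOpen_Ioi (mI w hw.1) (lt_min hδ₀ hδ₂)] with z hz hzΓ z1 z2
    obtain ⟨v, hv, rfl⟩ := hz hzΓ
    have v1 := abs_lt.1 (hv.trans_le (min_le_left _ _))
    have v2 := abs_lt.1 (hv.trans_le (min_le_right _ _))
    refine ⟨w + v, ⟨?_, ?_⟩, rfl⟩
    · by_contra e
      have e' := not_le.1 e
      have := (d0 (w + v) (abs_lt.2 ⟨by linarith [hw.1], by linarith⟩)).2 e'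
      rw [zero_add] at this
      linarith
    · by_contra e
      have e' := not_le.1 e
      have := d2 (w + v - L) (by linarith) (by linarith [hw.2])
      rw [add_sub_cancel] at this
      rcases this with k | k <;> linarith
  · obtain ⟨w, hw, hw0⟩ := hx
    have xL : (γ L).1 = 0 := by
      rcases hw.2.eq_or_lt with rfl | e
      · exact hw0
      · exact absurd hw0 (xp w ⟨hw.1, e⟩).ne'
    have sL := h.ax1 hΓ isOpen_Ioi mL xL
    have yL : 0 < (γ L).2 := by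
      refine lt_of_le_of_ne ?_ fun e => h.not_origin hΓ isOpen_Ioi mL xL e.symm
      have : L ∈ closure (Ioo 0 L) := by rw [closure_Ioo Lp.ne]; exact right_mem_Icc.2 Lp.le
      exact ContinuousWithinAt.closure_le this continuousWithinAt_const
        (cy L Lp.le).continuousWithinAt fun u hu => (yp u hu).le
    have inj : ∀ p ∈ Icc 0 L, ∀ q ∈ Icc 0 L, p < q → γ p ≠ γ q := fun p hp q hq hpq e => by
      have k := RedE_return hΓ hε h hp.1 hpq e
      rcases (show q - p ≤ L by linarith [hp.1, hq.2]).eq_or_lt with e2 | e2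
      · rw [e2] at k; rw [k, y0] at yL; exact lt_irrefl _ yL
      · have := yp _ ⟨sub_pos.2 hpq, e2⟩
        rw [k, y0] at this; exact lt_irrefl _ this
    have ode := fun w (hw : w ∈ Ioo 0 L) =>
      h.ode hΓ isOpen_Ioi (mI w hw.1.le) (xp w (Ioo_subset_Ico_self hw)) (yp w hw)
    refine ⟨Lp, cX, cY, fun w hw => (h.cont w (mI w hw.1)).fst.continuousWithinAt,
      fun w hw => (h.cont w (mI w hw.1)).snd.continuousWithinAt, fun w hw => h.unit w (mI w hw.1),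
      fun w hw => ⟨xp w (Ioo_subset_Ico_self hw), yp w hw⟩, fun w hw => h.d1 (mI w hw.1.le),
      fun w hw => h.d2 (mI w hw.1.le), fun w hw => ?_, fun w hw => ?_, x0 ▸ ha, y0, T01, T02, xL,
      yL, ?_, sL, fun p hp q hq e1 e2 => ?_⟩
    · exact ((ContinuousLinearMap.fst ℝ ℝ ℝ).hasFDerivAt.comp_hasDerivAt w (ode w hw)).congr_deriv
        (by simp [mul_comm])
    · exact ((ContinuousLinearMap.snd ℝ ℝ ℝ).hasFDerivAt.comp_hasDerivAt w (ode w hw)).congr_deriv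
        (by simp [mul_comm])
    · have k1 := h.unit L mL
      have k2 := endx xL
      rw [sL] at k1
      nlinarith
    · have e : γ p = γ q := Prod.ext e1 e2
      rcases lt_trichotomy p q with k | k | k
      · exact absurd e (inj p hp q hq k)
      · exact k
      · exact absurd e.symm (inj q hq p hp k)

end Pool.Agent.MP_48470b_gt
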