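import Pool.Agent.MP_48470b_gt.RedC
import Pool.Agent.MP_48470b_gt.RedD
import Pool.Agent.MP_48470b_gt.RedE
import Pool.Agent.MP_48470b_gt.Core

open Set
open scoped Topology

noncomputable section

namespace Pool.Agent.MP_48470b_gt

lemma mem_sphere_iff (p : E4) :
    p ∈ Metric.sphere (0 : E4) √6 ↔ √(p 0 ^ 2 + p 1 ^ 2) ^ 2 + √(p 2 ^ 2 + p 3 ^ 2) ^ 2 = 6 := by
  rw [Real.sq_sqrt (by positivity), Real.sq_sqrt (by positivity), mem_sphere_zero_iff_norm,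
    EuclideanSpace.norm_eq, Real.sqrt_inj (by positivity) (by norm_num)]
  simp only [Fin.sum_univ_four, Real.norm_eq_abs, sq_abs]
  constructor <;> intro h <;> linarith

theorem birotational (S : Set E4) (hS : IsShrinker S)
    (hT : Nonempty (S ≃ₜ Metric.sphere (0 : E4) 1)) (hR : ∀ α β, ∀ p ∈ S, rot α β p ∈ S) :
    S = Metric.sphere 0 √6 := by
  obtain ⟨e⟩ := hT
  have cS : IsCompact S := isCompact_iff_compactSpace.2 e.symm.compactSpace
  have c1 : ConnectedSpace (Metric.sphere (0 : E4) 1) := isConnected_iff_connectedSpace.1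
    (isConnected_sphere (by rw [← Module.finrank_eq_rank]; simp) _ zero_le_one)
  have c2 : ConnectedSpace S := e.symm.surjective.connectedSpace e.symm.continuous
  have hΓ := locAll_Gam hS hR
  obtain ⟨⟨p0, hp0⟩⟩ := c2.toNonempty
  obtain ⟨⟨p1, hp1, a0, a1⟩, p2, hp2, b2, b3⟩ :=
    meets_planes ⟨e⟩ hR (exists_offaxis hΓ ((mem_iff_io hR p0).1 hp0))
  have hA : (√(p2 0 ^ 2 + p2 1 ^ 2), (0:ℝ)) ∈ Gam S := by
    simpa [b2, b3] using (mem_iff_io hR p2).1 hp2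
  have ha : 0 < √(p2 0 ^ 2 + p2 1 ^ 2) := by
    refine (Real.sqrt_nonneg _).lt_of_ne fun k => ?_
    obtain ⟨V, G, W, hV, hL⟩ := hΓ _ hA
    have := hL.unit _ hV hA
    rw [hL.ax1 _ hV hA k.symm, hL.ax2 _ hV hA rfl] at this
    simp at this
  obtain ⟨L, x, y, c, s, Lp, cx, cy, mem, st, cov, prof⟩ :=
    exists_profile hΓ (isCompact_Gam cS) ha hA
  let π : S → ℝ × ℝ := fun p => (√(p.1 0 ^ 2 + p.1 1 ^ 2), √(p.1 2 ^ 2 + p.1 3 ^ 2))
  have cπ : Continuous π := by fun_prop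
  have hK : IsCompact ((fun t => (x t, y t)) '' Icc 0 L) :=
    isCompact_Icc.image_of_continuousOn (cx.prodMk cy)
  have clo : IsClopen (π ⁻¹' ((fun t => (x t, y t)) '' Icc 0 L)) := by
    refine ⟨hK.isClosed.preimage cπ, isOpen_iff_mem_nhds.2 ?_⟩
    rintro p ⟨t, ht, hp⟩
    have k := cov t ht
    rw [show (x t, y t) = π p from hp] at k
    filter_upwards [(cπ.tendsto p).eventually k] with q hq
    obtain ⟨u, hu, eq⟩ := hq ((mem_iff_io hR q.1).1 q.2) (Real.sqrt_nonneg _) (Real.sqrt_nonneg _)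
    exact ⟨u, hu, eq.symm⟩
  have all : ∀ p : S, ∃ t ∈ Icc 0 L, (x t, y t) = π p := fun p => by
    have := clo.eq_univ ⟨⟨p2, hp2⟩, 0, ⟨le_rfl, Lp.le⟩, by simp [st, π, b2, b3]⟩
    exact (this ▸ mem_univ p : p ∈ π ⁻¹' ((fun t => (x t, y t)) '' Icc 0 L))
  have P : Prof L x y c s := by
    obtain ⟨t, ht, k⟩ := all ⟨p1, hp1⟩
    exact prof ⟨t, ht, by simpa [π, a0, a1] using congrArg Prod.fst k⟩
  have circ := P.circle
  ext p
  rw [mem_sphere_iff]
  constructor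
  · intro hp
    obtain ⟨t, ht, k⟩ := all ⟨p, hp⟩
    have k1 : x t = √(p 0 ^ 2 + p 1 ^ 2) := congrArg Prod.fst k
    have k2 : y t = √(p 2 ^ 2 + p 3 ^ 2) := congrArg Prod.snd k
    rw [← k1, ← k2]
    exact circ t ht
  · intro hp
    have u0 := Real.sqrt_nonneg (p 0 ^ 2 + p 1 ^ 2)
    have v0 := Real.sqrt_nonneg (p 2 ^ 2 + p 3 ^ 2)
    have x6 := circ 0 ⟨le_rfl, Lp.le⟩
    rw [P.y0] at x6
    obtain ⟨t, ht, k⟩ := intermediate_value_Icc' Lp.le cx (show √(p 0 ^ 2 + p 1 ^ 2) ∈ Icc (x L) (x 0)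
      from ⟨P.xL ▸ u0, abs_le_of_sq_le_sq' (by nlinarith) P.x0.le |>.2⟩)
    have y0 : 0 ≤ y t := by
      rcases ht.1.eq_or_lt with rfl | h1
      · exact P.y0.ge
      rcases ht.2.eq_or_lt with rfl | h2
      · exact P.yL.le
      · exact (P.pos t ⟨h1, h2⟩).2.le
    have k2 : y t = √(p 2 ^ 2 + p 3 ^ 2) := by
      have := circ t ht
      rw [k] at this
      exact (pow_left_inj₀ y0 v0 two_ne_zero).1 (by linarith)
    rw [mem_iff_io hR, ← k, ← k2]
    exact mem t ht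

end Pool.Agent.MP_48470b_gt
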