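import Pool.Agent.MP_48470b_gt.Defs
import Pool.Agent.MP_48470b_gt.Base

/-! The profile set, local data of a plane curve, unit speed arcs. -/

open Set
open scoped Topology ContDiff

noncomputable section

namespace Pool.Agent.MP_48470b_gt

def io (z : ℝ × ℝ) : E4 := !₂[z.1, 0, z.2, 0]

def Gam (S : Set E4) : Set (ℝ × ℝ) := {z | io z ∈ S}

/-- on `V` the set `Γ` is the zero set of `G`, and `W` is a unit tangent field along it -/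
structure Loc (Γ V : Set (ℝ × ℝ)) (G : ℝ × ℝ → ℝ) (W : ℝ × ℝ → ℝ × ℝ) : Prop where
  opn : IsOpen V
  cG : ContDiffOn ℝ 1 G V
  cW : ContDiffOn ℝ 1 W V
  mem : ∀ z ∈ V, z ∈ Γ ↔ G z = 0
  tan : ∀ z ∈ V, fderiv ℝ G z (W z) = 0
  nor : ∀ z ∈ V, z ∈ Γ → fderiv ℝ G z ((W z).2, -(W z).1) ≠ 0
  unit : ∀ z ∈ V, z ∈ Γ → (W z).1 ^ 2 + (W z).2 ^ 2 = 1
  curv : ∀ z ∈ V, z ∈ Γ → 0 < z.1 → 0 < z.2 →
    fderiv ℝ W z (W z) = kap z.1 z.2 (W z).1 (W z).2 • (-(W z).2, (W z).1)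
  ax1 : ∀ z ∈ V, z ∈ Γ → z.1 = 0 → (W z).2 = 0
  ax2 : ∀ z ∈ V, z ∈ Γ → z.2 = 0 → (W z).1 = 0

def LocAll (Γ : Set (ℝ × ℝ)) : Prop := ∀ z ∈ Γ, ∃ V G W, z ∈ V ∧ Loc Γ V G W

/-- a unit speed arc in `Γ` with continuous tangent -/
structure IsArc (Γ : Set (ℝ × ℝ)) (I : Set ℝ) (γ T : ℝ → ℝ × ℝ) : Prop where
  mem : ∀ t ∈ I, γ t ∈ Γ
  der : ∀ t ∈ I, HasDerivAt γ (T t) t
  unit : ∀ t ∈ I, (T t).1 ^ 2 + (T t).2 ^ 2 = 1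
  cont : ∀ t ∈ I, ContinuousAt T t

end Pool.Agent.MP_48470b_gt
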