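import Pool.Agent.MP_48470b_gt.Red0

open Set
open scoped Topology ContDiff

noncomputable section

namespace Pool.Agent.MP_48470b_gt

variable {Γ V : Set (ℝ × ℝ)} {G : ℝ × ℝ → ℝ} {W : ℝ × ℝ → ℝ × ℝ} {I J : Set ℝ}
  {γ T α τ : ℝ → ℝ × ℝ}

theorem Loc.neg (h : Loc Γ V G W) : Loc Γ V G (fun z => -W z) where
  opn := h.opn
  cG := h.cG
  cW := h.cW.neg
  mem := h.mem
  tan z hz := by rw [map_neg, h.tan z hz, neg_zero]
  nor z hz hz' := by
    have e : ((-W z).2, -(-W z).1) = -((W z).2, -(W z).1) := by ext <;> simp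
    rw [e, map_neg]
    exact neg_ne_zero.2 (h.nor z hz hz')
  unit z hz hz' := by simpa using h.unit z hz hz'
  curv z hz hz' h1 h2 := by
    rw [fderiv_fun_neg, _root_.neg_apply, map_neg, neg_neg, h.curv z hz hz' h1 h2]
    ext <;> simp [kap] <;> ring
  ax1 z hz hz' h1 := by simp [h.ax1 z hz hz' h1]
  ax2 z hz hz' h1 := by simp [h.ax2 z hz hz' h1]

theorem IsArc.mono (h : IsArc Γ I γ T) (hJ : J ⊆ I) : IsArc Γ J γ T :=
  ⟨fun t ht => h.mem t (hJ ht), fun t ht => h.der t (hJ ht), fun t ht => h.unit t (hJ ht),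
    fun t ht => h.cont t (hJ ht)⟩

theorem IsArc.shift (h : IsArc Γ I γ T) (a : ℝ) {σ : ℝ} (hσ : σ = 1 ∨ σ = -1) :
    IsArc Γ {u | a + σ * u ∈ I} (fun u => γ (a + σ * u)) (fun u => σ • T (a + σ * u)) := by
  refine ⟨fun t ht => h.mem _ ht, fun t ht => ?_, fun t ht => ?_, fun t ht => ?_⟩
  · have h1 : HasDerivAt (fun u => a + σ * u) σ t := by
      simpa using ((hasDerivAt_id t).const_mul σ).const_add a
    exact (h.der _ ht).scomp t h1
  · have := h.unit _ ht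
    rcases hσ with rfl | rfl <;> simpa using this
  · exact (ContinuousAt.comp (f := fun u => a + σ * u) (h.cont _ ht) (by fun_prop)).const_smul σ

theorem RedA_pm (hL : Loc Γ V G W) (h : IsArc Γ I γ T) (hI : IsOpen I) {t : ℝ} (ht : t ∈ I)
    (hV : γ t ∈ V) : T t = W (γ t) ∨ T t = -W (γ t) := by
  have hG : HasFDerivAt G (fderiv ℝ G (γ t)) (γ t) :=
    ((hL.cG.contDiffAt (hL.opn.mem_nhds hV)).differentiableAt one_ne_zero).hasFDerivAt
  have h1 : HasDerivAt (G ∘ γ) (fderiv ℝ G (γ t) (T t)) t := hG.comp_hasDerivAt t (h.der t ht)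
  have h2 : G ∘ γ =ᶠ[𝓝 t] fun _ => 0 := by
    filter_upwards [hI.mem_nhds ht, (h.der t ht).continuousAt.preimage_mem_nhds
      (hL.opn.mem_nhds hV)] with u hu hu'
    exact (hL.mem _ hu').1 (h.mem u hu)
  have h3 : fderiv ℝ G (γ t) (T t) = 0 :=
    h1.unique ((hasDerivAt_const t (0 : ℝ)).congr_of_eventuallyEq h2)
  have h4 := hL.tan _ hV
  have h5 := hL.nor _ hV (h.mem t ht)
  have h6 := hL.unit _ hV (h.mem t ht)
  have h7 := h.unit t ht
  generalize fderiv ℝ G (γ t) = L at *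
  generalize W (γ t) = w at *
  generalize T t = v at *
  obtain ⟨c, s⟩ := w
  obtain ⟨p, q⟩ := v
  simp only at h5 h6 h7
  have e : ((p, q) : ℝ × ℝ) = (p * c + q * s) • (c, s) + (p * s - q * c) • (s, -c) := by
    ext
    · simp only [Prod.smul_mk, smul_eq_mul, Prod.mk_add_mk]; linear_combination (-p) * h6
    · simp only [Prod.smul_mk, smul_eq_mul, Prod.mk_add_mk]; linear_combination (-q) * h6
  have hb : p * s - q * c = 0 := by
    rw [e, map_add, map_smul, map_smul, h4, smul_zero, zero_add, smul_eq_mul] at h3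
    exact (mul_eq_zero.1 h3).resolve_right h5
  rw [hb, zero_smul, add_zero] at e
  have ha : (p * c + q * s - 1) * (p * c + q * s + 1) = 0 := by
    linear_combination (p ^ 2 + q ^ 2) * h6 + h7 - (p * s - q * c) * hb
  rcases mul_eq_zero.1 ha with h' | h'
  · left; rw [e, sub_eq_zero.1 h', one_smul]
  · right; rw [e, eq_neg_of_add_eq_zero_left h', neg_one_smul]

theorem RedA_loc (hL : Loc Γ V G W) (h : IsArc Γ I γ T) (hI : IsOpen I) {t : ℝ} (ht : t ∈ I)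
    (hV : γ t ∈ V) (he : T t = W (γ t)) : ∀ᶠ u in 𝓝 t, T u = W (γ u) := by
  have hγ := (h.der t ht).continuousAt
  have hW : ContinuousAt (fun u => W (γ u)) t :=
    ContinuousAt.comp (hL.cW.contDiffAt (hL.opn.mem_nhds hV)).continuousAt hγ
  have hT := h.cont t ht
  have hf : ContinuousAt (fun u => (T u).1 * (W (γ u)).1 + (T u).2 * (W (γ u)).2) t :=
    (hT.fst.mul hW.fst).add (hT.snd.mul hW.snd)
  have h0 : 0 < (T t).1 * (W (γ t)).1 + (T t).2 * (W (γ t)).2 := by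
    rw [← he]; nlinarith [h.unit t ht]
  filter_upwards [hI.mem_nhds ht, hγ.preimage_mem_nhds (hL.opn.mem_nhds hV),
    hf.eventually (lt_mem_nhds h0)] with u hu hu' hp
  refine (RedA_pm hL h hI hu hu').resolve_right fun hn => ?_
  rw [hn] at hp
  have := hL.unit _ hu' (h.mem u hu)
  simp only [Prod.fst_neg, Prod.snd_neg] at hp
  nlinarith

theorem RedA_ex (hΓ : LocAll Γ) (h : IsArc Γ I γ T) (hI : IsOpen I) {t : ℝ} (ht : t ∈ I) :
    ∃ V G W, γ t ∈ V ∧ Loc Γ V G W ∧ T t = W (γ t) := by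
  obtain ⟨V, G, W, hV, hL⟩ := hΓ _ (h.mem t ht)
  rcases RedA_pm hL h hI ht hV with e | e
  · exact ⟨V, G, W, hV, hL, e⟩
  · exact ⟨V, G, _, hV, hL.neg, e⟩

/-- near a parameter an arc solves the equation of a local tangent field -/
theorem IsArc.loc (hΓ : LocAll Γ) (h : IsArc Γ I γ T) (hI : IsOpen I) {t : ℝ} (ht : t ∈ I) :
    ∃ V G W, γ t ∈ V ∧ Loc Γ V G W ∧ ∀ᶠ u in 𝓝 t, T u = W (γ u) := by
  obtain ⟨V, G, W, hV, hL, e⟩ := RedA_ex hΓ h hI ht
  exact ⟨V, G, W, hV, hL, RedA_loc hL h hI ht hV e⟩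

theorem IsArc.sign (hΓ : LocAll Γ) (h : IsArc Γ I γ T) (hI : IsOpen I) (h' : IsArc Γ J α τ)
    (hJ : IsOpen J) {t u : ℝ} (ht : t ∈ I) (hu : u ∈ J) (he : γ t = α u) :
    T t = τ u ∨ T t = -τ u := by
  obtain ⟨V, G, W, hV, hL, e⟩ := RedA_ex hΓ h hI ht
  rcases RedA_pm hL h' hJ hu (he ▸ hV) with e' | e'
  · left; rw [e, e', he]
  · right; rw [e, e', he, neg_neg]

theorem RedA_ev (hΓ : LocAll Γ) (h : IsArc Γ I γ T) (h' : IsArc Γ I α τ) (hI : IsOpen I)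
    {t : ℝ} (ht : t ∈ I) (he : γ t = α t) (he' : T t = τ t) :
    ∀ᶠ u in 𝓝 t, γ u = α u ∧ T u = τ u := by
  obtain ⟨V, G, W, hV, hL, e⟩ := RedA_ex hΓ h hI ht
  have h1 := RedA_loc hL h hI ht hV e
  have h2 := RedA_loc hL h' hI ht (he ▸ hV) (by rw [← he', ← he, e])
  obtain ⟨K, s, hs, hK⟩ := (hL.cW.contDiffAt (hL.opn.mem_nhds hV)).exists_lipschitzOnWith
  have h3 : γ =ᶠ[𝓝 t] α := by
    refine ODE_solution_unique_of_eventually (v := fun _ => W) (s := fun _ => s) (K := K)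
      (Filter.Eventually.of_forall fun _ => hK) ?_ ?_ he
    · filter_upwards [h1, hI.mem_nhds ht, (h.der t ht).continuousAt.preimage_mem_nhds hs]
        with u a b c
      exact ⟨a ▸ h.der u b, c⟩
    · filter_upwards [h2, hI.mem_nhds ht,
        (h'.der t ht).continuousAt.preimage_mem_nhds (he ▸ hs)] with u a b c
      exact ⟨a ▸ h'.der u b, c⟩
  filter_upwards [h1, h2, h3] with u a b c
  exact ⟨c, by rw [a, b, c]⟩

theorem IsArc.unique (hΓ : LocAll Γ) (h : IsArc Γ I γ T) (h' : IsArc Γ I α τ) (hI : IsOpen I)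
    (hc : IsPreconnected I) {t₀ : ℝ} (ht₀ : t₀ ∈ I) (he : γ t₀ = α t₀) (he' : T t₀ = τ t₀) :
    ∀ t ∈ I, γ t = α t ∧ T t = τ t := by
  have hu : IsOpen {t | t ∈ I ∧ γ t = α t ∧ T t = τ t} := by
    refine isOpen_iff_mem_nhds.2 fun t ht => ?_
    filter_upwards [hI.mem_nhds ht.1, RedA_ev hΓ h h' hI ht.1 ht.2.1 ht.2.2] with u a b
    exact ⟨a, b⟩
  have := hc.subset_of_closure_inter_subset hu ⟨t₀, ht₀, ht₀, he, he'⟩ (by
    rintro t ⟨ht, htI⟩
    have hf := mem_closure_iff_frequently.1 ht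
    exact ⟨htI, tendsto_nhds_unique_of_frequently_eq (h.der t htI).continuousAt
      (h'.der t htI).continuousAt (hf.mono fun u hu => hu.2.1),
      tendsto_nhds_unique_of_frequently_eq (h.cont t htI) (h'.cont t htI)
        (hf.mono fun u hu => hu.2.2)⟩)
  exact fun t ht => (this ht).2

theorem IsArc.follow (hΓ : LocAll Γ) (h : IsArc Γ I γ T) (hI : IsOpen I) (hIc : I.OrdConnected)
    (h' : IsArc Γ J α τ) (hJ : IsOpen J) (hJc : J.OrdConnected) {a b : ℝ} (ha : a ∈ I)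
    (hb : b ∈ J) (he : γ a = α b) : ∃ σ : ℝ, (σ = 1 ∨ σ = -1) ∧ ∀ u, a + u ∈ I → b + σ * u ∈ J →
      γ (a + u) = α (b + σ * u) ∧ T (a + u) = σ • τ (b + σ * u) := by
  obtain ⟨σ, hσ, e⟩ : ∃ σ : ℝ, (σ = 1 ∨ σ = -1) ∧ T a = σ • τ b := by
    rcases h.sign hΓ hI h' hJ ha hb he with e | e
    · exact ⟨1, Or.inl rfl, by rw [e, one_smul]⟩
    · exact ⟨-1, Or.inr rfl, by rw [e, neg_one_smul]⟩
  refine ⟨σ, hσ, fun u hu hu' => ?_⟩
  have h1 := (h.shift a (Or.inl rfl)).mono (J := {u | a + 1 * u ∈ I} ∩ {u | b + σ * u ∈ J})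
    inter_subset_left
  have h2 := (h'.shift b hσ).mono (J := {u | a + 1 * u ∈ I} ∩ {u | b + σ * u ∈ J})
    inter_subset_right
  have hcv : ∀ {K : Set ℝ}, K.OrdConnected → ∀ c d : ℝ, Convex ℝ {u | c + d * u ∈ K} := by
    intro K hK c d x hx y hy p q hp hq hpq
    have := hK.convex (𝕜 := ℝ) hx hy hp hq hpq
    simp only [smul_eq_mul, mem_ofPred_eq] at this ⊢
    convert this using 1
    linear_combination (-c) * hpq
  have := h1.unique hΓ h2 ((hI.preimage (by fun_prop)).inter (hJ.preimage (by fun_prop)))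
    ((hcv hIc a 1).inter (hcv hJc b σ)).isPreconnected (t₀ := 0) ⟨by simpa using ha,
      by simpa using hb⟩ (by simpa using he) (by simpa using e) u ⟨by simpa using hu, hu'⟩
  simpa using this

theorem IsArc.ode (hΓ : LocAll Γ) (h : IsArc Γ I γ T) (hI : IsOpen I) {t : ℝ} (ht : t ∈ I)
    (h1 : 0 < (γ t).1) (h2 : 0 < (γ t).2) :
    HasDerivAt T (kap (γ t).1 (γ t).2 (T t).1 (T t).2 • (-(T t).2, (T t).1)) t := by
  obtain ⟨V, G, W, hV, hL, e⟩ := h.loc hΓ hI ht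
  have hW : HasFDerivAt W (fderiv ℝ W (γ t)) (γ t) :=
    ((hL.cW.contDiffAt (hL.opn.mem_nhds hV)).differentiableAt one_ne_zero).hasFDerivAt
  have h3 := (hW.comp_hasDerivAt t (h.der t ht)).congr_of_eventuallyEq e
  rw [e.self_of_nhds, hL.curv _ hV (h.mem t ht) h1 h2] at h3
  rw [e.self_of_nhds]
  exact h3

theorem IsArc.ax1 (hΓ : LocAll Γ) (h : IsArc Γ I γ T) (hI : IsOpen I) {t : ℝ} (ht : t ∈ I)
    (h1 : (γ t).1 = 0) : (T t).2 = 0 := by
  obtain ⟨V, G, W, hV, hL, e⟩ := RedA_ex hΓ h hI ht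
  rw [e]; exact hL.ax1 _ hV (h.mem t ht) h1

theorem IsArc.ax2 (hΓ : LocAll Γ) (h : IsArc Γ I γ T) (hI : IsOpen I) {t : ℝ} (ht : t ∈ I)
    (h1 : (γ t).2 = 0) : (T t).1 = 0 := by
  obtain ⟨V, G, W, hV, hL, e⟩ := RedA_ex hΓ h hI ht
  rw [e]; exact hL.ax2 _ hV (h.mem t ht) h1

end Pool.Agent.MP_48470b_gt
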