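import Pool.Agent.MP_48470b_gt.RedA

open Set
open scoped Topology ContDiff

noncomputable section

namespace Pool.Agent.MP_48470b_gt

variable {Γ : Set (ℝ × ℝ)} {I : Set ℝ} {γ T α τ : ℝ → ℝ × ℝ}

theorem exists_arc (hΓ : LocAll Γ) {z : ℝ × ℝ} (hz : z ∈ Γ) :
    ∃ ε > 0, ∃ α τ, IsArc Γ (Ioo (-ε) ε) α τ ∧ α 0 = z := by
  obtain ⟨V, G, W, hV, h⟩ := hΓ z hz
  obtain ⟨α, h0, ε, hε, hα⟩ := (h.cW.contDiffAt (h.opn.mem_nhds hV)
    ).exists_forall_mem_closedBall_exists_eq_forall_mem_Ioo_hasDerivAt₀ 0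
  have h1 : ∀ᶠ t in 𝓝 (0 : ℝ), α t ∈ V ∧ HasDerivAt α (W (α t)) t :=
    ((hα 0 (by simpa using hε)).continuousAt.eventually (h.opn.mem_nhds (h0 ▸ hV))).and
      (Filter.mem_of_superset (Ioo_mem_nhds (by simpa using hε) (by simpa using hε)) hα)
  obtain ⟨e, he, h2⟩ := Metric.eventually_nhds_iff_ball.1 h1
  rw [Real.ball_eq_Ioo, zero_sub, zero_add] at h2
  have h3 : ∀ t ∈ Ioo (-e) e, HasDerivAt (fun t => G (α t)) 0 t := fun t ht => by
    have := ((h.cG.contDiffAt (h.opn.mem_nhds (h2 t ht).1)).differentiableAt one_ne_zero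
      ).hasFDerivAt.comp_hasDerivAt t (h2 t ht).2
    rwa [h.tan _ (h2 t ht).1] at this
  have h4 : ∀ t ∈ Ioo (-e) e, α t ∈ Γ := fun t ht => by
    rw [h.mem _ (h2 t ht).1, isOpen_Ioo.is_const_of_deriv_eq_zero (𝕜 := ℝ)
      (f := fun t => G (α t)) isPreconnected_Ioo
      (fun t ht => (h3 t ht).differentiableAt.differentiableWithinAt) (fun t ht => (h3 t ht).deriv)
      ht (show (0 : ℝ) ∈ Ioo (-e) e by simpa using he), h0]
    exact (h.mem _ hV).1 hz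
  exact ⟨e, he, α, fun t => W (α t), ⟨h4, fun t ht => (h2 t ht).2,
    fun t ht => h.unit _ (h2 t ht).1 (h4 t ht), fun t ht =>
      (h.cW.continuousOn.continuousAt (h.opn.mem_nhds (h2 t ht).1)).comp
        (h2 t ht).2.continuousAt⟩, h0⟩

/-- an arc covers a neighbourhood in `Γ` of each of its points -/
theorem IsArc.cover (hΓ : LocAll Γ) (h : IsArc Γ I γ T) (hI : IsOpen I) {t : ℝ} (ht : t ∈ I)
    {δ : ℝ} (hδ : 0 < δ) : ∀ᶠ z in 𝓝 (γ t), z ∈ Γ → ∃ u, |u| < δ ∧ z = γ (t + u) := by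
  obtain ⟨V, G, W, hV, hL, hW⟩ := h.loc hΓ hI ht
  obtain ⟨w, hw⟩ : ∃ w, w = T t := ⟨_, rfl⟩
  have hw1 : w.1 ^ 2 + w.2 ^ 2 = 1 := hw ▸ h.unit t ht
  have h1 : ∀ᶠ q in 𝓝 (γ t), q ∈ V ∧ fderiv ℝ G q (w.2, -w.1) ≠ 0 := by
    refine Filter.Eventually.and (hL.opn.mem_nhds hV) (ContinuousAt.eventually_ne ?_ ?_)
    · exact ((hL.cG.continuousOn_fderiv_of_isOpen hL.opn le_rfl).continuousAt
        (hL.opn.mem_nhds hV)).clm_apply continuousAt_const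
    · rw [hw, hW.self_of_nhds]; exact hL.nor _ hV (h.mem t ht)
  obtain ⟨ρ, hρ, h2⟩ := Metric.eventually_nhds_iff_ball.1 h1
  have h3 : HasStrictDerivAt (fun u => w.1 * (γ u).1 + w.2 * (γ u).2)
      (w.1 * (T t).1 + w.2 * (T t).2) t := by
    refine hasStrictDerivAt_of_hasDerivAt_of_continuousAt
      (f' := fun u => w.1 * (T u).1 + w.2 * (T u).2) ?_ ?_
    · filter_upwards [hI.mem_nhds ht] with u hu
      exact (((ContinuousLinearMap.fst ℝ ℝ ℝ).hasFDerivAt.comp_hasDerivAt u (h.der u hu)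
        ).const_mul _).add (((ContinuousLinearMap.snd ℝ ℝ ℝ).hasFDerivAt.comp_hasDerivAt u
          (h.der u hu)).const_mul _)
    · have := h.cont t ht
      fun_prop
  have h4 : {u | u ∈ I ∧ γ u ∈ Metric.ball (γ t) ρ ∧ |u - t| < δ} ∈ 𝓝 t :=
    Filter.inter_mem (hI.mem_nhds ht) (Filter.inter_mem
      ((h.der t ht).continuousAt.eventually (Metric.ball_mem_nhds _ hρ))
      (Metric.ball_mem_nhds t hδ))
  have h5 := Filter.image_mem_map (m := fun u => w.1 * (γ u).1 + w.2 * (γ u).2) h4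
  rw [h3.map_nhds_eq (by rw [← hw, ← sq, ← sq, hw1]; exact one_ne_zero)] at h5
  have h6 : ContinuousAt (fun z : ℝ × ℝ => w.1 * z.1 + w.2 * z.2) (γ t) := by fun_prop
  filter_upwards [h6.eventually h5, Metric.ball_mem_nhds _ hρ] with z hz hzb hzΓ
  obtain ⟨u, ⟨hu, hub, huδ⟩, hz⟩ := hz
  refine ⟨u - t, huδ, ?_⟩
  rw [add_sub_cancel]
  obtain ⟨r, hr⟩ : ∃ r : ℝ, z - γ u = r • (w.2, -w.1) := by
    refine ⟨w.2 * (z.1 - (γ u).1) - w.1 * (z.2 - (γ u).2), Prod.ext ?_ ?_⟩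
    · simp only [Prod.fst_sub, Prod.smul_fst, smul_eq_mul]
      linear_combination (-(z.1 - (γ u).1)) * hw1 - w.1 * hz
    · simp only [Prod.snd_sub, Prod.smul_snd, smul_eq_mul]
      linear_combination (-(z.2 - (γ u).2)) * hw1 - w.2 * hz
  have h7 : ∀ s ∈ Icc (0 : ℝ) 1, γ u + s • (z - γ u) ∈ Metric.ball (γ t) ρ := fun s hs =>
    (convex_ball _ _).add_smul_sub_mem hub hzb hs
  have h8 : ∀ s ∈ Icc (0 : ℝ) 1, HasDerivAt (fun s : ℝ => G (γ u + s • (z - γ u)))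
      (fderiv ℝ G (γ u + s • (z - γ u)) (z - γ u)) s := fun s hs =>
    ((hL.cG.contDiffAt (hL.opn.mem_nhds (h2 _ (h7 s hs)).1)).differentiableAt one_ne_zero
      ).hasFDerivAt.comp_hasDerivAt s (by
        simpa using ((hasDerivAt_id s).smul_const (z - γ u)).const_add (γ u))
  obtain ⟨s, hs, h9⟩ := exists_hasDerivAt_eq_zero zero_lt_one
    (fun s hs => (h8 s hs).continuousAt.continuousWithinAt) (by
      simp [(hL.mem _ (h2 _ hub).1).1 (h.mem u hu), (hL.mem _ (h2 _ hzb).1).1 hzΓ])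
    fun s hs => h8 s (Ioo_subset_Icc_self hs)
  have h10 := (h2 _ (h7 s (Ioo_subset_Icc_self hs))).2
  generalize γ u + s • (z - γ u) = q at h9 h10
  rw [hr, map_smul, smul_eq_mul] at h9
  rw [← sub_eq_zero, hr, (mul_eq_zero.1 h9).resolve_right h10, zero_smul]

theorem RedB_glue {ι : Type} (J : ι → Set ℝ) (g s : ι → ℝ → ℝ × ℝ) (ho : ∀ i, IsOpen (J i))
    (h : ∀ i, IsArc Γ (J i) (g i) (s i))
    (hc : ∀ i j, ∀ t ∈ J i, t ∈ J j → g i t = g j t ∧ s i t = s j t) :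
    ∃ γ T, IsArc Γ (⋃ i, J i) γ T ∧ ∀ i, ∀ t ∈ J i, γ t = g i t ∧ T t = s i t := by
  classical
  obtain ⟨γ, T, h1⟩ : ∃ γ T : ℝ → ℝ × ℝ, ∀ i, ∀ t ∈ J i, γ t = g i t ∧ T t = s i t :=
    ⟨fun t => if h : ∃ i, t ∈ J i then g h.choose t else 0,
      fun t => if h : ∃ i, t ∈ J i then s h.choose t else 0, fun i t ht => by
        have h2 : ∃ i, t ∈ J i := ⟨i, ht⟩
        simp only [dif_pos h2]
        exact hc _ _ t h2.choose_spec ht⟩
  refine ⟨γ, T, ⟨fun t ht => ?_, fun t ht => ?_, fun t ht => ?_, fun t ht => ?_⟩, h1⟩ <;>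
    obtain ⟨i, hi⟩ := mem_iUnion.1 ht
  · exact (h1 i t hi).1 ▸ (h i).mem t hi
  · rw [(h1 i t hi).2]
    refine ((h i).der t hi).congr_of_eventuallyEq ?_
    filter_upwards [(ho i).mem_nhds hi] with u hu using (h1 i u hu).1
  · exact (h1 i t hi).2 ▸ (h i).unit t hi
  · refine ((h i).cont t hi).congr ?_
    filter_upwards [(ho i).mem_nhds hi] with u hu using (h1 i u hu).2.symm

theorem RedB_unif (hΓ : LocAll Γ) (hc : IsCompact Γ) :
    ∃ e > 0, ∀ z ∈ Γ, ∃ α τ, IsArc Γ (Ioo (-e) e) α τ ∧ α 0 = z := by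
  have h := hc.eventually_forall_of_forall_eventually (x₀ := (0 : ℝ))
    (P := fun e z => z ∈ Γ → ∃ α τ, IsArc Γ (Ioo (-e) e) α τ ∧ α 0 = z) fun z hz => by
      obtain ⟨ε, hε, α, τ, h, rfl⟩ := exists_arc hΓ hz
      rw [nhds_prod_eq]
      filter_upwards [(gt_mem_nhds (half_pos hε)).prod_mk
        (h.cover hΓ isOpen_Ioo (by simpa using hε) (half_pos hε))] with q hq hq'
      obtain ⟨u, hu, h1⟩ := hq.2 hq'
      refine ⟨_, _, (h.shift u (Or.inl rfl)).mono fun t ht => ?_, by simp [h1]⟩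
      have h2 : q.1 < ε / 2 := hq.1
      rw [abs_lt] at hu
      exact ⟨by linarith [ht.1], by linarith [ht.2]⟩
  obtain ⟨e, h1, h2⟩ := ((h.filter_mono (nhdsWithin_le_nhds (s := Ioi 0))).and
    self_mem_nhdsWithin).exists
  exact ⟨e, h2, fun z hz => h1 z hz hz⟩

theorem RedB_step (hΓ : LocAll Γ) {e a b : ℝ} (he : 0 < e)
    (hu : ∀ z ∈ Γ, ∃ α τ, IsArc Γ (Ioo (-e) e) α τ ∧ α 0 = z) (ha : a < 0) (hb : 0 < b)
    (h : IsArc Γ (Ioo a b) γ T) :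
    ∃ γ' T', IsArc Γ (Ioo a (b + e / 2)) γ' T' ∧ γ' 0 = γ 0 ∧ T' 0 = T 0 := by
  obtain ⟨c, h1, h2, h3⟩ : ∃ c, a < c ∧ c < b ∧ b - e / 2 ≤ c :=
    ⟨max 0 (b - e / 2), lt_max_of_lt_left ha, max_lt hb (by linarith), le_max_right _ _⟩
  obtain ⟨β, s, hβ, h4⟩ := hu _ (h.mem c ⟨h1, h2⟩)
  obtain ⟨σ, hσ, h5⟩ := h.follow hΓ isOpen_Ioo ordConnected_Ioo hβ isOpen_Ioo ordConnected_Ioo
    ⟨h1, h2⟩ (show (0 : ℝ) ∈ Ioo (-e) e by simpa using he) h4.symm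
  have h6 : ∀ t ∈ Ioo (c - e) (c + e), -σ * c + σ * t ∈ Ioo (-e) e := fun t ht => by
    rcases hσ with rfl | rfl <;> exact ⟨by linarith [ht.1, ht.2], by linarith [ht.1, ht.2]⟩
  have h7 : ∀ t ∈ Ioo a b, t ∈ Ioo (c - e) (c + e) →
      γ t = β (-σ * c + σ * t) ∧ T t = σ • s (-σ * c + σ * t) := fun t ht ht' => by
    have e1 : 0 + σ * (t - c) = -σ * c + σ * t := by ring
    have := h5 (t - c) (by rwa [add_sub_cancel]) (e1 ▸ h6 t ht')
    rwa [add_sub_cancel, e1] at this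
  obtain ⟨γ', T', h8, h9⟩ := RedB_glue (Γ := Γ)
    (fun i : Bool => cond i (Ioo a b) (Ioo (c - e) (c + e)))
    (fun i => cond i γ fun t => β (-σ * c + σ * t))
    (fun i => cond i T fun t => σ • s (-σ * c + σ * t))
    (fun i => by cases i <;> exact isOpen_Ioo)
    (fun i => by
      cases i
      · exact (hβ.shift (-σ * c) hσ).mono h6
      · exact h)
    (fun i j t hi hj => by
      cases i <;> cases j
      · exact ⟨rfl, rfl⟩
      · exact ⟨(h7 t hj hi).1.symm, (h7 t hj hi).2.symm⟩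
      · exact h7 t hi hj
      · exact ⟨rfl, rfl⟩)
  refine ⟨γ', T', h8.mono fun t ht => mem_iUnion.2 ?_, h9 true 0 ⟨ha, hb⟩⟩
  by_cases h10 : t < b
  · exact ⟨true, ht.1, h10⟩
  · exact ⟨false, by linarith, by linarith [ht.2]⟩

theorem exists_global (hΓ : LocAll Γ) (hc : IsCompact Γ) {ε : ℝ} (hε : 0 < ε)
    (h : IsArc Γ (Ioo (-ε) ε) α τ) :
    ∃ γ T, IsArc Γ (Ioi (-ε)) γ T ∧ γ 0 = α 0 ∧ T 0 = τ 0 := by
  obtain ⟨e, he, hu⟩ := RedB_unif hΓ hc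
  have hb : ∀ n : ℕ, 0 < ε + n * (e / 2) := fun n => by positivity
  have h1 : ∀ n : ℕ, ∃ g s, IsArc Γ (Ioo (-ε) (ε + n * (e / 2))) g s ∧ g 0 = α 0 ∧ s 0 = τ 0 := by
    intro n
    induction n with
    | zero => exact ⟨α, τ, by simpa using h, rfl, rfl⟩
    | succ n ih =>
      obtain ⟨g, s, h1, h2, h3⟩ := ih
      obtain ⟨g', s', h4, h5, h6⟩ := RedB_step hΓ he hu (neg_lt_zero.2 hε) (hb n) h1
      refine ⟨g', s', ?_, h5.trans h2, h6.trans h3⟩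
      rwa [Nat.cast_succ, add_mul, one_mul, ← add_assoc]
  choose g s h1 h2 h3 using h1
  obtain ⟨γ, T, h4, h5⟩ := RedB_glue _ g s (fun _ => isOpen_Ioo) h1 fun i j t hi hj =>
    ((h1 i).mono (Ioo_subset_Ioo_right (min_le_left _ (ε + j * (e / 2))))).unique hΓ
      ((h1 j).mono (Ioo_subset_Ioo_right (min_le_right _ _))) isOpen_Ioo isPreconnected_Ioo
      (t₀ := 0) ⟨neg_lt_zero.2 hε, lt_min (hb i) (hb j)⟩ ((h2 i).trans (h2 j).symm)
      ((h3 i).trans (h3 j).symm) t ⟨hi.1, lt_min hi.2 hj.2⟩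
  have h6 := h5 0 0 ⟨neg_lt_zero.2 hε, hb 0⟩
  refine ⟨γ, T, h4.mono fun t ht => mem_iUnion.2 ?_, h6.1.trans (h2 0), h6.2.trans (h3 0)⟩
  obtain ⟨n, hn⟩ := exists_nat_gt (t / (e / 2))
  rw [div_lt_iff₀ (half_pos he)] at hn
  exact ⟨n, ht, by linarith⟩

end Pool.Agent.MP_48470b_gt
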