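import Pool.Agent.MP_48470b_gt.Red0

open Set
open scoped Topology ContDiff RealInnerProductSpace

noncomputable section

namespace Pool.Agent.MP_48470b_gt

def ioL : ℝ × ℝ →L[ℝ] E4 := LinearMap.toContinuousLinearMap
  { toFun := io
    map_add' := fun a b => by ext i; fin_cases i <;> simp [io]
    map_smul' := fun a b => by ext i; fin_cases i <;> simp [io] }

lemma ioL_apply (z : ℝ × ℝ) : ioL z = io z := rfl

def rotL (α β : ℝ) : E4 →L[ℝ] E4 := LinearMap.toContinuousLinearMap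
  { toFun := rot α β
    map_add' := fun a b => by ext i; fin_cases i <;> simp [rot] <;> ring
    map_smul' := fun a b => by ext i; fin_cases i <;> simp [rot] <;> ring }

lemma rotL_apply (α β : ℝ) (p : E4) : rotL α β p = rot α β p := rfl

lemma RedC_inner (a b : E4) : ⟪a, b⟫ = a 0 * b 0 + a 1 * b 1 + a 2 * b 2 + a 3 * b 3 := by
  simp [PiLp.inner_apply, Fin.sum_univ_four, mul_comm]

lemma RedC_d1 (q : E4) : HasDerivAt (fun θ => rot θ 0 q) !₂[-q 1, q 0, 0, 0] 0 := by
  have h := (((Real.hasDerivAt_cos 0).smul_const (!₂[q 0, q 1, 0, 0] : E4)).add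
    ((Real.hasDerivAt_sin 0).smul_const (!₂[-q 1, q 0, 0, 0] : E4))).add_const
    (!₂[0, 0, q 2, q 3] : E4)
  refine (h.congr_deriv (by simp)).congr_of_eventuallyEq (.of_forall fun θ => ?_)
  ext i; fin_cases i <;> simp [rot] <;> ring

lemma RedC_d2 (q : E4) : HasDerivAt (fun θ => rot 0 θ q) !₂[0, 0, -q 3, q 2] 0 := by
  have h := (((Real.hasDerivAt_cos 0).smul_const (!₂[0, 0, q 2, q 3] : E4)).add
    ((Real.hasDerivAt_sin 0).smul_const (!₂[0, 0, -q 3, q 2] : E4))).add_const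
    (!₂[q 0, q 1, 0, 0] : E4)
  refine (h.congr_deriv (by simp)).congr_of_eventuallyEq (.of_forall fun θ => ?_)
  ext i; fin_cases i <;> simp [rot] <;> ring

lemma RedC_rot0 (q : E4) : rot 0 0 q = q := by ext i; fin_cases i <;> simp [rot]

lemma RedC_curve {S : Set E4} {φ : E4 → ℝ} {φ' : E4 →L[ℝ] ℝ} {q v : E4} {b : ℝ → E4}
    (hφ : HasFDerivAt φ φ' q) (h0 : ∀ᶠ p in 𝓝 q, p ∈ S → φ p = 0) (hb : HasDerivAt b v 0)
    (b0 : b 0 = q) (hS : ∀ t, b t ∈ S) : φ' v = 0 := by
  have h1 : HasDerivAt (fun t => φ (b t)) (φ' v) 0 := (b0 ▸ hφ).comp_hasDerivAt 0 hb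
  have h2 : (fun t => φ (b t)) =ᶠ[𝓝 0] fun _ => 0 := by
    have : Filter.Tendsto b (𝓝 0) (𝓝 q) := b0 ▸ hb.continuousAt.tendsto
    filter_upwards [this.eventually h0] with t ht using ht (hS t)
  exact h1.unique ((hasDerivAt_const 0 (0:ℝ)).congr_of_eventuallyEq h2)

variable {S U : Set E4} {F : E4 → ℝ}

lemma RedC_grad (F : E4 → ℝ) (q v : E4) : fderiv ℝ F q v = ⟪gradient F q, v⟫ := by
  rw [gradient, InnerProductSpace.toDual_symm_apply]

lemma RedC_nu {q : E4} (h : gradient F q ≠ 0) (v : E4) :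
    fderiv ℝ F q v = ‖gradient F q‖ * ⟪nu F q, v⟫ := by
  rw [RedC_grad, nu, real_inner_smul_left, ← mul_assoc, mul_inv_cancel₀ (norm_ne_zero_iff.2 h),
    one_mul]

lemma RedC_unit {q : E4} (h : gradient F q ≠ 0) : ⟪nu F q, nu F q⟫ = 1 := by
  rw [real_inner_self_eq_norm_sq, nu, norm_smul, norm_inv, norm_norm,
    inv_mul_cancel₀ (norm_ne_zero_iff.2 h), one_pow]

lemma RedC_smooth {q : E4} (hF : ContDiffAt ℝ ∞ F q) (h : gradient F q ≠ 0) :
    ContDiffAt ℝ 1 (nu F) q := by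
  have h1 : ContDiffAt ℝ 1 (fderiv ℝ F) q := hF.fderiv_right (by norm_cast)
  have h2 : ContDiffAt ℝ 1 (gradient F) q :=
    (InnerProductSpace.toDual ℝ E4).symm.toContinuousLinearEquiv.contDiff.contDiffAt.comp q h1
  exact ((h2.norm ℝ h).inv (norm_ne_zero_iff.2 h)).smul h2

/-- the normal at a point fixed by a rotation -/
lemma RedC_fix (hR : ∀ α β, ∀ p ∈ S, rot α β p ∈ S) {q : E4} (hF : ContDiffAt ℝ ∞ F q)
    (hm : ∀ᶠ p in 𝓝 q, p ∈ S ↔ F p = 0) (hq : q ∈ S) (h : gradient F q ≠ 0) {α β : ℝ}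
    (hf : rot α β q = q) :
    ∃ a b : ℝ, (a, b) ≠ 0 ∧ ∀ v, a * ⟪nu F q, v⟫ + b * ⟪nu F q, rot α β v⟫ = 0 := by
  have h1 := hF.hasStrictFDerivAt (by simp)
  have h2 : HasStrictFDerivAt (fun p => F (rotL α β p)) ((fderiv ℝ F q).comp (rotL α β)) q :=
    HasStrictFDerivAt.comp q (g := F) (by rw [rotL_apply, hf]; exact h1)
      (rotL α β).hasStrictFDerivAt
  have F0 : F q = 0 := hm.self_of_nhds.1 hq
  have ht : Filter.Tendsto (rotL α β) (𝓝 q) (𝓝 q) := by
    have := (rotL α β).continuous.tendsto q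
    rwa [rotL_apply, hf] at this
  have he : IsLocalExtrOn (fun p => F (rotL α β p)) {x | F x = F q} q := by
    refine .inl ?_
    filter_upwards [self_mem_nhdsWithin, mem_nhdsWithin_of_mem_nhds hm,
      mem_nhdsWithin_of_mem_nhds (ht.eventually hm)] with p p1 p2 p3
    have : F (rotL α β p) = 0 := p3.1 (hR _ _ _ (p2.2 (p1.trans F0)))
    rw [this, rotL_apply, hf, F0]
  obtain ⟨a, b, hab, e⟩ := he.exists_multipliers_of_hasStrictFDerivAt_1d h1 h2
  refine ⟨a, b, hab, fun v => ?_⟩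
  have := congrArg (fun L : E4 →L[ℝ] ℝ => L v) e
  simp only [add_apply, smul_apply, smul_eq_mul,
    ContinuousLinearMap.comp_apply, rotL_apply, zero_apply, RedC_nu h] at this
  refine mul_left_cancel₀ (norm_ne_zero_iff.2 h) ?_
  linear_combination this

lemma RedC_two {a b u v : ℝ} (h : (a, b) ≠ 0) (h1 : a * u + b * v = 0) (h2 : a * v - b * u = 0) :
    u = 0 ∧ v = 0 := by
  have p : a ^ 2 + b ^ 2 ≠ 0 := fun e => h (Prod.ext (by simp; nlinarith) (by simp; nlinarith))
  exact ⟨mul_left_cancel₀ p (by linear_combination a * h1 - b * h2),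
    mul_left_cancel₀ p (by linear_combination b * h1 + a * h2)⟩

theorem locAll_Gam {S : Set E4} (hS : IsShrinker S) (hR : ∀ α β, ∀ p ∈ S, rot α β p ∈ S) :
    LocAll (Gam S) := by
  intro z0 hz0
  obtain ⟨U, F, hU, hp, hF, hg, hm, hH⟩ := hS _ hz0
  have sF : ∀ q ∈ U, ContDiffAt ℝ ∞ F q := fun q hq => hF.contDiffAt (hU.mem_nhds hq)
  have sN : ∀ q ∈ U, ContDiffAt ℝ 1 (nu F) q := fun q hq => RedC_smooth (sF q hq) (hg q hq)
  have dF : ∀ q ∈ U, HasFDerivAt F (fderiv ℝ F q) q := fun q hq =>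
    ((sF q hq).differentiableAt (by simp)).hasFDerivAt
  have dN : ∀ q ∈ U, HasFDerivAt (nu F) (fderiv ℝ (nu F) q) q := fun q hq =>
    ((sN q hq).differentiableAt (by simp)).hasFDerivAt
  have dNi : ∀ q ∈ U, ∀ i, HasFDerivAt (fun p => nu F p i)
      ((EuclideanSpace.proj i).comp (fderiv ℝ (nu F) q)) q := fun q hq i =>
    (EuclideanSpace.proj (𝕜 := ℝ) i).hasFDerivAt.comp q (dN q hq)
  have dpi : ∀ (q : E4) (i : Fin 4), HasFDerivAt (fun p : E4 => p i)
      (EuclideanSpace.proj (𝕜 := ℝ) i) q := fun q i => (EuclideanSpace.proj (𝕜 := ℝ) i).hasFDerivAt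
  have ev : ∀ q ∈ U, ∀ᶠ p in 𝓝 q, p ∈ S ↔ F p = 0 := fun q hq => by
    filter_upwards [hU.mem_nhds hq] with p hp using hm p hp
  have nz : ∀ q ∈ U, ‖gradient F q‖ ≠ 0 := fun q hq => norm_ne_zero_iff.2 (hg q hq)
  have T1 : ∀ q ∈ U, q ∈ S → nu F q 1 * q 0 - nu F q 0 * q 1 = 0 := fun q hq hs => by
    have := RedC_curve (dF q hq) ((ev q hq).mono fun p h => h.1) (RedC_d1 q) (RedC_rot0 q)
      fun t => hR _ _ _ hs
    rw [RedC_nu (hg q hq), mul_eq_zero, RedC_inner] at this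
    have := this.resolve_left (nz q hq)
    simp at this
    linarith
  have T2 : ∀ q ∈ U, q ∈ S → nu F q 3 * q 2 - nu F q 2 * q 3 = 0 := fun q hq hs => by
    have := RedC_curve (dF q hq) ((ev q hq).mono fun p h => h.1) (RedC_d2 q) (RedC_rot0 q)
      fun t => hR _ _ _ hs
    rw [RedC_nu (hg q hq), mul_eq_zero, RedC_inner] at this
    have := this.resolve_left (nz q hq)
    simp at this
    linarith
  have A1 : ∀ z, io z ∈ U → io z ∈ S → z.1 = 0 → nu F (io z) 0 = 0 ∧ nu F (io z) 1 = 0 := by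
    intro z hq hs e
    obtain ⟨a, b, hab, k⟩ := RedC_fix hR (sF _ hq) (ev _ hq) hs (hg _ hq) (α := Real.pi / 2) (β := 0)
      (by ext i; fin_cases i <;> simp [rot, io, e])
    have k1 := k !₂[1, 0, 0, 0]
    have k2 := k !₂[0, 1, 0, 0]
    simp [RedC_inner, rot] at k1 k2
    exact RedC_two hab (by linarith) (by linarith)
  have A2 : ∀ z, io z ∈ U → io z ∈ S → z.2 = 0 → nu F (io z) 2 = 0 ∧ nu F (io z) 3 = 0 := by
    intro z hq hs e
    obtain ⟨a, b, hab, k⟩ := RedC_fix hR (sF _ hq) (ev _ hq) hs (hg _ hq) (α := 0) (β := Real.pi / 2)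
      (by ext i; fin_cases i <;> simp [rot, io, e])
    have k1 := k !₂[0, 0, 1, 0]
    have k2 := k !₂[0, 0, 0, 1]
    simp [RedC_inner, rot] at k1 k2
    exact RedC_two hab (by linarith) (by linarith)
  have N1 : ∀ z, io z ∈ U → io z ∈ S → nu F (io z) 1 = 0 := fun z hq hs => by
    by_cases e : z.1 = 0
    · exact (A1 z hq hs e).2
    · simpa [io, e] using T1 _ hq hs
  have N3 : ∀ z, io z ∈ U → io z ∈ S → nu F (io z) 3 = 0 := fun z hq hs => by
    by_cases e : z.2 = 0
    · exact (A2 z hq hs e).2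
    · simpa [io, e] using T2 _ hq hs
  have un : ∀ z, io z ∈ U → io z ∈ S → nu F (io z) 2 ^ 2 + nu F (io z) 0 ^ 2 = 1 := fun z hq hs => by
    have := RedC_unit (hg _ hq)
    rw [RedC_inner, N1 z hq hs, N3 z hq hs] at this
    linarith
  have dG : ∀ z, io z ∈ U → ∀ w, fderiv ℝ (fun z => F (io z)) z w =
      ‖gradient F (io z)‖ * (nu F (io z) 0 * w.1 + nu F (io z) 2 * w.2) := fun z hq w => by
    have : HasFDerivAt (fun z => F (io z)) ((fderiv ℝ F (io z)).comp ioL) z :=
      HasFDerivAt.comp z (f := ioL) (dF _ hq) ioL.hasFDerivAt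
    rw [this.fderiv, ContinuousLinearMap.comp_apply, RedC_nu (hg _ hq), RedC_inner, ioL_apply]
    simp [io]
  have sNi : ∀ z, io z ∈ U → ∀ i, ContDiffAt ℝ 1 (fun z => nu F (io z) i) z := fun z hq i =>
    (EuclideanSpace.proj (𝕜 := ℝ) i).contDiff.contDiffAt.comp z
      (ContDiffAt.comp z (f := ioL) (sN _ hq) ioL.contDiff.contDiffAt)
  refine ⟨io ⁻¹' U, fun z => F (io z), fun z => (-nu F (io z) 2, nu F (io z) 0), hp,
    hU.preimage ioL.continuous, fun z hz => ?_, fun z hz => ?_, fun z hz => hm _ hz,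
    fun z hz => ?_, fun z hz hs => ?_, fun z hz hs => ?_, fun z hz hs x0 y0 => ?_,
    fun z hz hs e => (A1 z hz hs e).1, fun z hz hs e => by simp [(A2 z hz hs e).1]⟩
  · exact (ContDiffAt.comp z (f := ioL) ((sF _ hz).of_le (by exact_mod_cast le_top))
      ioL.contDiff.contDiffAt).contDiffWithinAt
  · exact ((sNi z hz 2).neg.prodMk (sNi z hz 0)).contDiffWithinAt
  · rw [dG z hz]; ring
  · rw [dG z hz]
    refine mul_ne_zero (nz _ hz) ?_
    have := un z hz hs
    simp only [neg_neg]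
    nlinarith
  · simpa using un z hz hs
  · have hz : io z ∈ U := hz
    have hs : io z ∈ S := hs
    set M := fderiv ℝ (nu F) (io z) with hM
    have dW : HasFDerivAt (fun z => (-nu F (io z) 2, nu F (io z) 0))
        ((-(((EuclideanSpace.proj 2).comp M).comp ioL)).prod
          (((EuclideanSpace.proj 0).comp M).comp ioL)) z :=
      (HasFDerivAt.comp z (f := ioL) (dNi _ hz 2) ioL.hasFDerivAt).neg.prodMk
        (HasFDerivAt.comp z (f := ioL) (dNi _ hz 0) ioL.hasFDerivAt)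
    have orth : ∀ v, ⟪M v, nu F (io z)⟫ = 0 := fun v => by
      have h1 := (dN _ hz).inner ℝ (dN _ hz)
      have h2 : (fun p => ⟪nu F p, nu F p⟫) =ᶠ[𝓝 (io z)] fun _ => (1:ℝ) := by
        filter_upwards [hU.mem_nhds hz] with p hp using RedC_unit (hg p hp)
      have h3 := congrArg (fun L : E4 →L[ℝ] ℝ => L v)
        (h1.unique ((hasFDerivAt_const (1:ℝ) (io z)).congr_of_eventuallyEq h2))
      simp only [ContinuousLinearMap.comp_apply, ContinuousLinearMap.prod_apply,
        fderivInnerCLM_apply, zero_apply, ← hM] at h3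
      rw [real_inner_comm] at h3
      linarith
    have m1 := RedC_curve (((dNi _ hz 1).mul (dpi _ 0)).sub ((dNi _ hz 0).mul (dpi _ 1)))
      (by filter_upwards [hU.mem_nhds hz] with p hp using T1 p hp) (RedC_d1 _) (RedC_rot0 _)
      fun t => hR _ _ _ hs
    have m2 := RedC_curve (((dNi _ hz 3).mul (dpi _ 2)).sub ((dNi _ hz 2).mul (dpi _ 3)))
      (by filter_upwards [hU.mem_nhds hz] with p hp using T2 p hp) (RedC_d2 _) (RedC_rot0 _)
      fun t => hR _ _ _ hs
    have e1 : (!₂[-io z 1, io z 0, 0, 0] : E4) = z.1 • EuclideanSpace.single 1 1 := by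
      ext i; fin_cases i <;> simp [io]
    have e2 : (!₂[0, 0, -io z 3, io z 2] : E4) = z.2 • EuclideanSpace.single 3 1 := by
      ext i; fin_cases i <;> simp [io]
    rw [e1] at m1
    rw [e2] at m2
    have i0 : io z 0 = z.1 := by simp [io]
    have i1 : io z 1 = 0 := by simp [io]
    have i2 : io z 2 = z.2 := by simp [io]
    have i3 : io z 3 = 0 := by simp [io]
    have H := hH _ hz hs
    have n1 := N1 z hz hs
    have n3 := N3 z hz hs
    set s := nu F (io z) 0 with hs0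
    set c := nu F (io z) 2 with hc0
    have eT : io (-c, s) = (-c) • EuclideanSpace.single 0 1 + s • EuclideanSpace.single 2 1 := by
      ext i; fin_cases i <;> simp [io]
    have o0 := orth (EuclideanSpace.single 0 1)
    have o2 := orth (EuclideanSpace.single 2 1)
    rw [divT, ← hM, orth, Fin.sum_univ_four] at H
    simp [RedC_inner, n1, n3, i0, i1, i2, i3, ← hM, ← hs0, ← hc0] at o0 o2 H m1 m2
    rw [dW.fderiv]
    simp only [ContinuousLinearMap.prod_apply, neg_apply,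
      ContinuousLinearMap.comp_apply, ioL_apply, eT, map_add, map_smul]
    simp [kap]
    have k1 : M (EuclideanSpace.single 1 1) 1 = s * z.1⁻¹ := by
      have := m1.resolve_left x0.ne'
      field_simp
      linarith
    have k2 : M (EuclideanSpace.single 3 1) 3 = c * z.2⁻¹ := by
      have := m2.resolve_left y0.ne'
      field_simp
      linarith
    rw [k1, k2] at H
    exact ⟨by linear_combination o0 - s * H, by linear_combination o2 - c * H⟩

end Pool.Agent.MP_48470b_gt
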