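import Pool.Agent.MP_48470b_gt.Base

/-! Abstract tools for the ordering of polar strands. -/

set_option autoImplicit false

open Real Set Filter Topology

namespace Pool.Agent.MP_48470b_gt

theorem exists_inv {f : ℝ → ℝ} {K : Set ℝ} (hK : IsCompact K) (hc : ContinuousOn f K)
    (hi : InjOn f K) : ∃ g : ℝ → ℝ, ContinuousOn g (f '' K) ∧ (∀ t ∈ K, g (f t) = t) := by
  refine ⟨Function.invFunOn f K, ?_, fun t ht => hi.leftInvOn_invFunOn ht⟩
  rw [continuousOn_iff_isClosed]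
  intro t ht
  refine ⟨f '' (K ∩ t), ((hK.inter_right ht).image_of_continuousOn
    (hc.mono inter_subset_left)).isClosed, ?_⟩
  ext m
  constructor
  · rintro ⟨h1, a, ha, rfl⟩
    rw [mem_preimage, hi.leftInvOn_invFunOn ha] at h1
    exact ⟨⟨a, ⟨ha, h1⟩, rfl⟩, ⟨a, ha, rfl⟩⟩
  · rintro ⟨⟨a, ha, rfl⟩, h2⟩
    refine ⟨?_, h2⟩
    rw [mem_preimage, hi.leftInvOn_invFunOn ha.1]
    exact ha.2

/-- enumeration of a finite set inside an interval -/
theorem exists_enum (S : Finset ℝ) : ∀ L : ℝ, 0 < L → (∀ t ∈ S, t ∈ Ioo 0 L) →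
    ∃ (n : ℕ) (τ : ℕ → ℝ), τ 0 = 0 ∧ τ (n + 1) = L ∧ (∀ k ≤ n, τ k < τ (k + 1)) ∧
      (∀ k, 1 ≤ k → k ≤ n → τ k ∈ S) ∧ (∀ k ≤ n, ∀ t ∈ Ioo (τ k) (τ (k + 1)), t ∉ S) ∧
      (∀ t ∈ S, ∃ k, 1 ≤ k ∧ k ≤ n ∧ τ k = t) := by
  induction S using Finset.induction_on_max with
  | empty =>
    intro L hL _
    refine ⟨0, fun k => if k = 0 then 0 else L, by simp, by simp, ?_, ?_, ?_, ?_⟩
    · intro k hk
      obtain rfl : k = 0 := by omega
      simpa using hL
    · intro k h1 h2; omega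
    · intro k _ t _; simp
    · intro t ht; simp at ht
  | insert a s ha ih =>
    intro L hL hS
    have haL := hS a (Finset.mem_insert_self a s)
    obtain ⟨n, τ, h0, h1, h2, h3, h4, h5⟩ := ih a haL.1
      (fun t ht => ⟨(hS t (Finset.mem_insert_of_mem ht)).1, ha t ht⟩)
    have hmono : ∀ j k, k ≤ j → j ≤ n + 1 → τ k ≤ τ j := by
      intro j
      induction j with
      | zero => intro k hk _; obtain rfl : k = 0 := by omega
                exact le_rfl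
      | succ j ihj =>
        intro k hk hj
        rcases Nat.lt_or_ge k (j + 1) with h | h
        · exact (ihj k (by omega) (by omega)).trans (h2 j (by omega)).le
        · obtain rfl : k = j + 1 := by omega
          exact le_rfl
    refine ⟨n + 1, fun k => if k ≤ n + 1 then τ k else L, by simp [h0], by simp, ?_, ?_, ?_, ?_⟩
    · intro k hk
      rcases Nat.lt_or_ge k (n + 1) with h | h
      · simp only [show k ≤ n + 1 by omega, show k + 1 ≤ n + 1 by omega, if_true]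
        exact h2 k (by omega)
      · obtain rfl : k = n + 1 := by omega
        simp only [le_refl, if_true, show ¬ (n + 1 + 1 ≤ n + 1) by omega, if_false, h1]
        exact haL.2
    · intro k hk1 hk
      simp only [hk, if_true]
      rcases Nat.lt_or_ge k (n + 1) with h | h
      · exact Finset.mem_insert_of_mem (h3 k hk1 (by omega))
      · obtain rfl : k = n + 1 := by omega
        rw [h1]; exact Finset.mem_insert_self a s
    · intro k hk t ht
      rcases Nat.lt_or_ge k (n + 1) with h | h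
      · simp only [show k ≤ n + 1 by omega, show k + 1 ≤ n + 1 by omega, if_true] at ht
        rw [Finset.mem_insert]
        rintro (h6 | h6)
        · have := hmono (n + 1) (k + 1) (by omega) le_rfl
          rw [h1] at this
          linarith [ht.2]
        · exact h4 k (by omega) t ht h6
      · obtain rfl : k = n + 1 := by omega
        simp only [le_refl, if_true, h1] at ht
        rw [Finset.mem_insert]
        rintro (h6 | h6)
        · linarith [ht.1]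
        · linarith [ht.1, ha t h6]
    · intro t ht
      rw [Finset.mem_insert] at ht
      rcases ht with rfl | ht
      · exact ⟨n + 1, by omega, le_rfl, by simp [h1]⟩
      · obtain ⟨k, hk1, hk2, hk3⟩ := h5 t ht
        exact ⟨k, hk1, by omega, by simp [show k ≤ n + 1 by omega, hk3]⟩

/-- if rank-neighbours are index-neighbours there is no interior local minimum -/
theorem path_lemma {n : ℕ} {f : ℕ → ℝ} (hinj : ∀ i ≤ n, ∀ j ≤ n, f i = f j → i = j)
    (hadj : ∀ i ≤ n, ∀ j ≤ n, f i < f j → (∀ k ≤ n, ¬ (f i < f k ∧ f k < f j)) →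
      i + 1 = j ∨ j + 1 = i)
    {k : ℕ} (hk : k + 2 ≤ n) (h1 : f (k + 1) < f k) (h2 : f (k + 1) < f (k + 2)) : False := by
  classical
  have key : ∀ (B : ℕ → Prop) [DecidablePred B] (b : ℕ), b ≤ n → B b → f (k + 1) < f b →
      ¬ B (k + 1) →
      (∀ i j, ¬ B i → B j → (i + 1 = j ∨ j + 1 = i) → i = k + 1 ∧ j = b) →
      ∀ l ≤ n, ¬ (f (k + 1) < f l ∧ f l < f b) := by
    intro B _ b hb hB hfb hnB hstep
    obtain ⟨j0, hj0, hj1⟩ := ((Finset.range (n + 1)).filter (fun j => B j ∧ f (k + 1) < f j)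
      ).exists_min_image f ⟨b, by simp [hB, hfb]; omega⟩
    simp only [Finset.mem_filter, Finset.mem_range] at hj0 hj1
    obtain ⟨i0, hi0, hi1⟩ := ((Finset.range (n + 1)).filter (fun i => f i < f j0)
      ).exists_max_image f ⟨k + 1, by simp [hj0.2.2]; omega⟩
    simp only [Finset.mem_filter, Finset.mem_range] at hi0 hi1
    have hbetween : ∀ l ≤ n, ¬ (f i0 < f l ∧ f l < f j0) := fun l hl h =>
      absurd (hi1 l ⟨by omega, h.2⟩) (not_le.2 h.1)
    have hj := hadj i0 (by omega) j0 (by omega) hi0.2 hbetween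
    have hge := hi1 (k + 1) ⟨by omega, hj0.2.2⟩
    have hnBi : ¬ B i0 := by
      intro hBi
      rcases hge.eq_or_lt with h | h
      · have := hinj (k + 1) (by omega) i0 (by omega) h
        rw [← this] at hBi; exact hnB hBi
      · exact absurd (hj1 i0 ⟨hi0.1, hBi, h⟩) (not_le.2 hi0.2)
    obtain ⟨e1, e2⟩ := hstep i0 j0 hnBi hj0.2.1 hj
    rw [e1, e2] at hbetween
    exact hbetween
  have a1 := key (fun j => k + 1 < j) (k + 2) hk (by omega) h2 (by omega)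
    (fun i j hi hj h => by omega)
  have a2 := key (fun j => j < k + 1) k (by omega) (by omega) h1 (by omega)
    (fun i j hi hj h => by omega)
  rcases lt_trichotomy (f k) (f (k + 2)) with h | h | h
  · exact a1 k (by omega) ⟨h1, h⟩
  · have := hinj k (by omega) (k + 2) hk h
    omega
  · exact a2 (k + 2) hk ⟨h2, h⟩

/-- Abstract polar data: `μ` is the polar parameter, `z` the radial one. -/
structure Ab (L : ℝ) (μ z u v ρ : ℝ → ℝ) (n : ℕ) (τ d : ℕ → ℝ) : Prop where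
  cμ : ContinuousOn μ (Icc 0 L)
  cz : ContinuousOn z (Icc 0 L)
  cu : ContinuousOn u (Icc 0 L)
  cv : ContinuousOn v (Icc 0 L)
  dμ : ∀ t ∈ Ioo 0 L, HasDerivAt μ (ρ t * u t) t
  ρpos : ∀ t ∈ Ioo 0 L, 0 < ρ t
  dz : ∀ t ∈ Ioo 0 L, HasDerivAt z (2 * v t) t
  inj : ∀ t ∈ Icc 0 L, ∀ t' ∈ Icc 0 L, μ t = μ t' → z t = z t' → t = t'
  τ0 : τ 0 = 0
  τL : τ (n + 1) = L
  τlt : ∀ k ≤ n, τ k < τ (k + 1)
  uz : ∀ k, 1 ≤ k → k ≤ n → u (τ k) = 0 ∧ v (τ k) ≠ 0
  une : ∀ k ≤ n, ∀ t ∈ Ioo (τ k) (τ (k + 1)), u t ≠ 0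
  dmem : ∀ k ≤ n, d k ∈ Ioo (τ k) (τ (k + 1))
  dzero : ∀ k ≤ n, μ (d k) = 0
  ext : ∀ e, (e = 0 ∨ e = L) → 0 < μ e → ∀ t ∈ Icc 0 L, t ≠ e → μ t < μ e

namespace Ab

variable {L : ℝ} {μ z u v ρ : ℝ → ℝ} {n : ℕ} {τ d : ℕ → ℝ}

theorem negz (h : Ab L μ z u v ρ n τ d) : Ab L μ (fun t => -z t) u (fun t => -v t) ρ n τ d :=
  ⟨h.cμ, h.cz.neg, h.cu, h.cv.neg, h.dμ, h.ρpos,
    fun t ht => hd (h.dz t ht).neg (fun _ => rfl) (by ring),
    fun t ht t' ht' h1 h2 => h.inj t ht t' ht' h1 (neg_injective h2), h.τ0, h.τL, h.τlt,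
    fun k h1 h2 => ⟨(h.uz k h1 h2).1, neg_ne_zero.2 (h.uz k h1 h2).2⟩, h.une, h.dmem, h.dzero,
    h.ext⟩

theorem τ_lt (h : Ab L μ z u v ρ n τ d) : ∀ j k, k < j → j ≤ n + 1 → τ k < τ j := by
  intro j
  induction j with
  | zero => intro k hk _; omega
  | succ j ihj =>
    intro k hk hj
    rcases Nat.lt_or_ge k j with h1 | h1
    · exact (ihj k h1 (by omega)).trans (h.τlt j (by omega))
    · obtain rfl : k = j := by omega
      exact h.τlt k (by omega)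

theorem τ_le (h : Ab L μ z u v ρ n τ d) {j k : ℕ} (h1 : k ≤ j) (h2 : j ≤ n + 1) : τ k ≤ τ j := by
  rcases h1.eq_or_lt with h3 | h3
  · rw [h3]
  · exact (h.τ_lt j k h3 h2).le

theorem sub (h : Ab L μ z u v ρ n τ d) {k : ℕ} (hk : k ≤ n) :
    Icc (τ k) (τ (k + 1)) ⊆ Icc 0 L :=
  Icc_subset_Icc (h.τ0 ▸ h.τ_le (Nat.zero_le k) (by omega)) (h.τL ▸ h.τ_le (by omega) le_rfl)

theorem sub' (h : Ab L μ z u v ρ n τ d) {k : ℕ} (hk : k ≤ n) :
    Ioo (τ k) (τ (k + 1)) ⊆ Ioo 0 L :=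
  Ioo_subset_Ioo (h.τ0 ▸ h.τ_le (Nat.zero_le k) (by omega)) (h.τL ▸ h.τ_le (by omega) le_rfl)

/-- closed strands meet only when equal or consecutive -/
theorem meet (h : Ab L μ z u v ρ n τ d) {i j : ℕ} (hi : i ≤ n) (hj : j ≤ n) {t : ℝ}
    (h1 : t ∈ Icc (τ i) (τ (i + 1))) (h2 : t ∈ Icc (τ j) (τ (j + 1))) :
    i = j ∨ i + 1 = j ∨ j + 1 = i := by
  by_contra hn
  rcases Nat.lt_or_ge i j with h3 | h3
  · have := h.τ_lt j (i + 1) (by omega) (by omega)
    linarith [h1.2, h2.1]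
  · have := h.τ_lt i (j + 1) (by omega) (by omega)
    linarith [h1.1, h2.2]

theorem meet' (h : Ab L μ z u v ρ n τ d) {i j : ℕ} (hi : i ≤ n) (hj : j ≤ n) {t : ℝ}
    (h1 : t ∈ Ioo (τ i) (τ (i + 1))) (h2 : t ∈ Ioo (τ j) (τ (j + 1))) : i = j := by
  by_contra hn
  rcases Nat.lt_or_ge i j with h3 | h3
  · have := h.τ_le (j := j) (k := i + 1) (by omega) (by omega)
    linarith [h1.2, h2.1]
  · have := h.τ_le (j := i) (k := j + 1) (by omega) (by omega)
    linarith [h1.1, h2.2]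

/-- the strand `k` as a graph over the polar parameter -/
structure Gr (μ u ρ : ℝ → ℝ) (a b d0 : ℝ) (g : ℝ → ℝ) (tl th : ℝ) : Prop where
  ends : (tl = a ∧ th = b) ∨ (tl = b ∧ th = a)
  lo : μ tl < 0
  hi : 0 < μ th
  cg : ContinuousOn g (Icc (μ tl) (μ th))
  gμ : ∀ t ∈ Icc a b, g (μ t) = t
  μmem : ∀ t ∈ Ioo a b, μ t ∈ Ioo (μ tl) (μ th)
  μg : ∀ m ∈ Icc (μ tl) (μ th), μ (g m) = m
  gmem : ∀ m ∈ Icc (μ tl) (μ th), g m ∈ Icc a b
  gmem' : ∀ m ∈ Ioo (μ tl) (μ th), g m ∈ Ioo a b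
  dg : ∀ m ∈ Ioo (μ tl) (μ th), HasDerivAt g (ρ (g m) * u (g m))⁻¹ m
  sgn : ∀ t ∈ Ioo a b, 0 < u t * (th - d0)
  side : ∀ t ∈ Ioo a b, 0 < (th - t) * (th - d0)

theorem graph (h : Ab L μ z u v ρ n τ d) {k : ℕ} (hk : k ≤ n) :
    ∃ g tl th, Gr μ u ρ (τ k) (τ (k + 1)) (d k) g tl th := by
  have hab := h.τlt k hk
  have hd0 := h.dmem k hk
  have hcu : ContinuousOn u (Ioo (τ k) (τ (k + 1))) :=
    h.cu.mono (Ioo_subset_Icc_self.trans (h.sub hk))
  have hcμ := h.cμ.mono (h.sub hk)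
  -- common construction
  have main : ∀ tl th : ℝ, ((tl = τ k ∧ th = τ (k + 1)) ∨ (tl = τ (k + 1) ∧ th = τ k)) →
      InjOn μ (Icc (τ k) (τ (k + 1))) →
      (∀ t ∈ Ioo (τ k) (τ (k + 1)), μ t ∈ Ioo (μ tl) (μ th)) →
      (∀ t ∈ Ioo (τ k) (τ (k + 1)), 0 < u t * (th - d k)) →
      ∃ g, Gr μ u ρ (τ k) (τ (k + 1)) (d k) g tl th := by
    intro tl th he hinj hmem hsgn
    obtain ⟨g, hg1, hg2⟩ := exists_inv isCompact_Icc hcμ hinj
    have htl : tl ∈ Icc (τ k) (τ (k + 1)) := by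
      rcases he with he | he <;> rw [he.1] <;> constructor <;> linarith
    have hth : th ∈ Icc (τ k) (τ (k + 1)) := by
      rcases he with he | he <;> rw [he.2] <;> constructor <;> linarith
    have hsurj : Icc (μ tl) (μ th) ⊆ μ '' Icc (τ k) (τ (k + 1)) :=
      isPreconnected_Icc.intermediate_value htl hth hcμ
    have h0 := hmem (d k) hd0
    rw [h.dzero k hk] at h0
    have hμg : ∀ m ∈ Icc (μ tl) (μ th), μ (g m) = m := fun m hm => by
      obtain ⟨t, ht, rfl⟩ := hsurj hm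
      rw [hg2 t ht]
    have hgm : ∀ m ∈ Icc (μ tl) (μ th), g m ∈ Icc (τ k) (τ (k + 1)) := fun m hm => by
      obtain ⟨t, ht, rfl⟩ := hsurj hm
      rw [hg2 t ht]; exact ht
    have hgm' : ∀ m ∈ Ioo (μ tl) (μ th), g m ∈ Ioo (τ k) (τ (k + 1)) := fun m hm => by
      have h1 := hgm m (Ioo_subset_Icc_self hm)
      have h2 := hμg m (Ioo_subset_Icc_self hm)
      have h3 : g m ≠ tl := fun e => by rw [e] at h2; linarith [hm.1]
      have h4 : g m ≠ th := fun e => by rw [e] at h2; linarith [hm.2]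
      rcases he with he | he
      · exact ⟨lt_of_le_of_ne h1.1 (he.1 ▸ h3.symm), lt_of_le_of_ne h1.2 (he.2 ▸ h4)⟩
      · exact ⟨lt_of_le_of_ne h1.1 (he.2 ▸ h4.symm), lt_of_le_of_ne h1.2 (he.1 ▸ h3)⟩
    refine ⟨g, he, h0.1, h0.2, hg1.mono hsurj, hg2, hmem, hμg, hgm, hgm', fun m hm => ?_, hsgn,
      fun t ht => ?_⟩
    · have hn : Icc (μ tl) (μ th) ∈ 𝓝 m := Icc_mem_nhds hm.1 hm.2
      have ht := hgm' m hm
      exact (h.dμ _ (h.sub' hk ht)).of_local_left_inverse ((hg1.mono hsurj).continuousAt hn)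
        (mul_ne_zero (h.ρpos _ (h.sub' hk ht)).ne' (h.une k hk _ ht))
        (Filter.mem_of_superset hn (fun m' hm' => hμg m' hm'))
    · rcases he with he | he
      · rw [he.2]; exact mul_pos (by linarith [ht.2]) (by linarith [hd0.2])
      · rw [he.2]; exact mul_pos_of_neg_of_neg (by linarith [ht.1]) (by linarith [hd0.1])
  rcases lt_or_gt_of_ne (h.une k hk _ hd0) with hu | hu
  · have hneg := neg_of_ne isPreconnected_Ioo hcu (h.une k hk) hd0 hu
    have hanti : StrictAntiOn μ (Icc (τ k) (τ (k + 1))) := fun a ha b hb hab' =>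
      santi_of_deriv hab' (hcμ.mono (Icc_subset_Icc ha.1 hb.2))
        (fun t ht => h.dμ t (h.sub' hk (Ioo_subset_Ioo ha.1 hb.2 ht)))
        (fun t ht => mul_neg_of_pos_of_neg (h.ρpos t (h.sub' hk (Ioo_subset_Ioo ha.1 hb.2 ht)))
          (hneg t (Ioo_subset_Ioo ha.1 hb.2 ht)))
    obtain ⟨g, hg⟩ := main (τ (k + 1)) (τ k) (Or.inr ⟨rfl, rfl⟩) hanti.injOn
      (fun t ht => ⟨hanti (Ioo_subset_Icc_self ht) ⟨hab.le, le_rfl⟩ ht.2,
        hanti ⟨le_rfl, hab.le⟩ (Ioo_subset_Icc_self ht) ht.1⟩)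
      (fun t ht => mul_pos_of_neg_of_neg (hneg t ht) (by linarith [hd0.1]))
    exact ⟨g, _, _, hg⟩
  · have hpos := pos_of_ne isPreconnected_Ioo hcu (h.une k hk) hd0 hu
    have hmono : StrictMonoOn μ (Icc (τ k) (τ (k + 1))) := fun a ha b hb hab' =>
      smono_of_deriv hab' (hcμ.mono (Icc_subset_Icc ha.1 hb.2))
        (fun t ht => h.dμ t (h.sub' hk (Ioo_subset_Ioo ha.1 hb.2 ht)))
        (fun t ht => mul_pos (h.ρpos t (h.sub' hk (Ioo_subset_Ioo ha.1 hb.2 ht)))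
          (hpos t (Ioo_subset_Ioo ha.1 hb.2 ht)))
    obtain ⟨g, hg⟩ := main (τ k) (τ (k + 1)) (Or.inl ⟨rfl, rfl⟩) hmono.injOn
      (fun t ht => ⟨hmono ⟨le_rfl, hab.le⟩ (Ioo_subset_Icc_self ht) ht.1,
        hmono (Ioo_subset_Icc_self ht) ⟨hab.le, le_rfl⟩ ht.2⟩)
      (fun t ht => mul_pos (hpos t ht) (by linarith [hd0.2]))
    exact ⟨g, _, _, hg⟩

end Ab

end Pool.Agent.MP_48470b_gt
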