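import Pool.Agent.MP_48470b_gt.Snake1

/-! Behaviour of radially adjacent strands at their upper ends. -/

set_option autoImplicit false

open Real Set Filter Topology

namespace Pool.Agent.MP_48470b_gt

namespace Ab

variable {L : ℝ} {μ z u v ρ : ℝ → ℝ} {n : ℕ} {τ d : ℕ → ℝ}

theorem Gr.th_mem {a b d0 : ℝ} {g : ℝ → ℝ} {tl th : ℝ} (G : Gr μ u ρ a b d0 g tl th)
    (hab : a < b) : th ∈ Icc a b := by
  rcases G.ends with he | he <;> rw [he.2] <;> constructor <;> linarith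

theorem Gr.g_th {a b d0 : ℝ} {g : ℝ → ℝ} {tl th : ℝ} (G : Gr μ u ρ a b d0 g tl th)
    (hab : a < b) : g (μ th) = th := G.gμ th (G.th_mem hab)

theorem g_zero (h : Ab L μ z u v ρ n τ d) {k : ℕ} (hk : k ≤ n) {g : ℝ → ℝ} {tl th : ℝ}
    (G : Gr μ u ρ (τ k) (τ (k + 1)) (d k) g tl th) : g 0 = d k := by
  rw [← h.dzero k hk]; exact G.gμ _ (Ioo_subset_Icc_self (h.dmem k hk))

/-- continuity of a composite along a strand -/
theorem comp_cont (h : Ab L μ z u v ρ n τ d) {k : ℕ} (hk : k ≤ n) {g : ℝ → ℝ} {tl th : ℝ}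
    (G : Gr μ u ρ (τ k) (τ (k + 1)) (d k) g tl th) {f : ℝ → ℝ} (hf : ContinuousOn f (Icc 0 L)) :
    ContinuousOn (fun m => f (g m)) (Icc (μ tl) (μ th)) :=
  hf.comp G.cg (fun m hm => h.sub hk (G.gmem m hm))

theorem order (h : Ab L μ z u v ρ n τ d) {i j : ℕ} (hi : i ≤ n) (hj : j ≤ n) (hij : i ≠ j)
    {gi gj : ℝ → ℝ} {tli thi tlj thj : ℝ}
    (Gi : Gr μ u ρ (τ i) (τ (i + 1)) (d i) gi tli thi)
    (Gj : Gr μ u ρ (τ j) (τ (j + 1)) (d j) gj tlj thj) {m m' : ℝ}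
    (hm1 : m ∈ Ioo (μ tli) (μ thi)) (hm2 : m ∈ Ioo (μ tlj) (μ thj))
    (hm1' : m' ∈ Ioo (μ tli) (μ thi)) (hm2' : m' ∈ Ioo (μ tlj) (μ thj))
    (hlt : z (gi m) < z (gj m)) : z (gi m') < z (gj m') := by
  have hI : IsPreconnected (Ioo (μ tli) (μ thi) ∩ Ioo (μ tlj) (μ thj)) := by
    rw [Ioo_inter_Ioo]; exact isPreconnected_Ioo
  have := pos_of_ne (f := fun m => z (gj m) - z (gi m)) hI
    (((h.comp_cont hj Gj h.cz).mono (fun m hm => Ioo_subset_Icc_self hm.2)).sub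
      ((h.comp_cont hi Gi h.cz).mono (fun m hm => Ioo_subset_Icc_self hm.1)))
    (fun m hm h0 => by
      have a1 := Gi.gmem' m hm.1
      have a2 := Gj.gmem' m hm.2
      have e := h.inj _ (h.sub hi (Ioo_subset_Icc_self a1)) _ (h.sub hj (Ioo_subset_Icc_self a2))
        (by rw [Gi.μg m (Ioo_subset_Icc_self hm.1), Gj.μg m (Ioo_subset_Icc_self hm.2)])
        (by linarith)
      rw [e] at a1
      exact hij (h.meet' hi hj a1 a2)) (t0 := m) ⟨hm1, hm2⟩ (by linarith) m' ⟨hm1', hm2'⟩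
  linarith

theorem tend (h : Ab L μ z u v ρ n τ d) {k : ℕ} (hk : k ≤ n) {g : ℝ → ℝ} {tl th : ℝ}
    (G : Gr μ u ρ (τ k) (τ (k + 1)) (d k) g tl th) {f : ℝ → ℝ} (hf : ContinuousOn f (Icc 0 L))
    {β : ℝ} (h0 : 0 < β) (hβ : β ≤ μ th) :
    Tendsto (fun m => f (g m)) (𝓝[<] β) (𝓝 (f (g β))) := by
  have h1 := h.comp_cont hk G hf β ⟨by linarith [G.lo], hβ⟩
  refine h1.tendsto.mono_left ?_
  apply nhdsWithin_le_of_mem
  exact mem_of_superset (Ioo_mem_nhdsLT (G.lo.trans h0))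
    (fun m hm => ⟨hm.1.le, hm.2.le.trans hβ⟩)

theorem near (h : Ab L μ z u v ρ n τ d) {k : ℕ} (hk : k ≤ n) {g : ℝ → ℝ} {tl th : ℝ}
    (G : Gr μ u ρ (τ k) (τ (k + 1)) (d k) g tl th) (hth : th ∈ Ioo 0 L) (hv : v th ≠ 0) :
    ∀ᶠ m in 𝓝[<] μ th, 0 < (z th - z (g m)) * (v th * (th - d k)) := by
  have h1 := (hasDerivAt_iff_tendsto_slope.1 (h.dz th hth)).mul_const (v th)
  have h2 : ∀ᶠ t in 𝓝[≠] th, 0 < slope z th t * v th :=
    h1.eventually (lt_mem_nhds (by nlinarith [sq_pos_of_ne_zero hv]))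
  have hI : ∀ᶠ m in 𝓝[<] μ th, m ∈ Ioo (μ tl) (μ th) := Ioo_mem_nhdsLT (G.lo.trans G.hi)
  have h3 : Tendsto g (𝓝[<] μ th) (𝓝[≠] th) := by
    apply tendsto_nhdsWithin_of_tendsto_nhds_of_eventually_within
    · have := h.tend hk G (f := fun t => t) continuousOn_id G.hi le_rfl
      rwa [G.g_th (h.τlt k hk)] at this
    · filter_upwards [hI] with m hm e
      have := G.μg m (Ioo_subset_Icc_self hm)
      rw [mem_singleton_iff.1 e] at this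
      linarith [hm.2]
  filter_upwards [h3.eventually h2, hI] with m hm1 hm2
  have h4 := G.side _ (G.gmem' m hm2)
  have h5 : th - g m ≠ 0 := fun e => by rw [e] at h4; simp at h4
  have h6 : g m - th ≠ 0 := fun e => h5 (by linarith)
  have h7 : z th - z (g m) = slope z th (g m) * (th - g m) := by
    rw [slope_def_field]; field_simp; ring
  rw [h7]
  nlinarith [mul_pos hm1 h4]

/-- the neighbour across an interior upper end -/
theorem nb (h : Ab L μ z u v ρ n τ d) {i : ℕ} (hi : i ≤ n) {g : ℝ → ℝ} {tl th : ℝ}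
    (G : Gr μ u ρ (τ i) (τ (i + 1)) (d i) g tl th) (hth : th ∈ Ioo 0 L) :
    u th = 0 ∧ v th ≠ 0 ∧ ∃ k ≤ n, (k + 1 = i ∨ i + 1 = k) ∧ (th - d k) * (th - d i) < 0 ∧
      ∃ gk tlk, Gr μ u ρ (τ k) (τ (k + 1)) (d k) gk tlk th := by
  have hdi := h.dmem i hi
  rcases G.ends with he | he
  · have hin : i + 1 ≤ n := by
      by_contra hn
      have : i = n := by omega
      rw [he.2, this, h.τL] at hth
      exact lt_irrefl _ hth.2
    obtain ⟨gk, tlk, thk, Gk⟩ := h.graph hin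
    have hdk := h.dmem _ hin
    have e : thk = th := by
      rcases Gk.ends with hk | hk
      · have := Gk.lo; rw [hk.1, ← he.2] at this; linarith [G.hi]
      · rw [hk.2, he.2]
    rw [e] at Gk
    refine ⟨he.2 ▸ (h.uz _ (by omega) hin).1, he.2 ▸ (h.uz _ (by omega) hin).2, i + 1, hin,
      Or.inr rfl, ?_, gk, tlk, Gk⟩
    rw [he.2]; exact mul_neg_of_neg_of_pos (by linarith [hdk.1]) (by linarith [hdi.2])
  · obtain ⟨k, rfl⟩ : ∃ k, i = k + 1 := by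
      rcases i with _ | k
      · rw [he.2, h.τ0] at hth; exact absurd hth.1 (lt_irrefl _)
      · exact ⟨k, rfl⟩
    have hkn : k ≤ n := by omega
    obtain ⟨gk, tlk, thk, Gk⟩ := h.graph hkn
    have hdk := h.dmem _ hkn
    have e : thk = th := by
      rcases Gk.ends with hk | hk
      · rw [hk.2, he.2]
      · have := Gk.lo; rw [hk.1, ← he.2] at this; linarith [G.hi]
    rw [e] at Gk
    refine ⟨he.2 ▸ (h.uz _ (by omega) hi).1, he.2 ▸ (h.uz _ (by omega) hi).2, k, hkn,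
      Or.inl rfl, ?_, gk, tlk, Gk⟩
    rw [he.2]; exact mul_neg_of_pos_of_neg (by linarith [hdk.2]) (by linarith [hdi.1])

theorem top (h : Ab L μ z u v ρ n τ d) {i j : ℕ} (hi : i ≤ n) (hj : j ≤ n)
    (hnj : ¬ (i + 1 = j ∨ j + 1 = i)) (hlt : z (d i) < z (d j))
    (hadj : ∀ k ≤ n, ¬ (z (d i) < z (d k) ∧ z (d k) < z (d j)))
    {gi gj : ℝ → ℝ} {tli thi tlj thj : ℝ}
    (Gi : Gr μ u ρ (τ i) (τ (i + 1)) (d i) gi tli thi)
    (Gj : Gr μ u ρ (τ j) (τ (j + 1)) (d j) gj tlj thj) (hle : μ thi ≤ μ thj) :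
    u thi = 0 ∧ v thi * (thi - d i) < 0 := by
  have hij : i ≠ j := fun e => by rw [e] at hlt; exact lt_irrefl _ hlt
  have hti := Gi.th_mem (h.τlt i hi)
  have htj := Gj.th_mem (h.τlt j hj)
  have hsep : ∀ t ∈ Icc (τ j) (τ (j + 1)), t ≠ thi := fun t ht e => by
    rw [e] at ht
    rcases h.meet hi hj hti ht with h1 | h1
    · exact hij h1
    · exact hnj h1
  have hth : thi ∈ Ioo 0 L := by
    have h1 := h.sub hi hti
    refine ⟨lt_of_le_of_ne h1.1 (fun e => ?_), lt_of_le_of_ne h1.2 (fun e => ?_)⟩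
    · have := h.ext thi (Or.inl e.symm) Gi.hi thj (h.sub hj htj) (hsep _ htj); linarith
    · have := h.ext thi (Or.inr e) Gi.hi thj (h.sub hj htj) (hsep _ htj); linarith
  obtain ⟨hu, hv, k, hk, hki, hside, gk, tlk, Gk⟩ := h.nb hi Gi hth
  refine ⟨hu, ?_⟩
  by_contra hn
  push Not at hn
  have hd0 : thi - d i ≠ 0 := fun e => by rw [e] at hside; simp at hside
  have hpos : 0 < v thi * (thi - d i) := lt_of_le_of_ne hn (mul_ne_zero hv hd0).symm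
  have hneg : v thi * (thi - d k) < 0 := by
    by_contra hn2
    push Not at hn2
    nlinarith [mul_nonneg hn2 hpos.le, sq_pos_of_ne_zero hv]
  have hik : i ≠ k := by omega
  have hkj : k ≠ j := by
    rintro rfl
    exact hnj (by omega)
  have z0i : (0 : ℝ) ∈ Ioo (μ tli) (μ thi) := ⟨Gi.lo, Gi.hi⟩
  have z0j : (0 : ℝ) ∈ Ioo (μ tlj) (μ thj) := ⟨Gj.lo, Gj.hi⟩
  have z0k : (0 : ℝ) ∈ Ioo (μ tlk) (μ thi) := ⟨Gk.lo, Gk.hi⟩
  have hI : ∀ᶠ m in 𝓝[<] μ thi, m ∈ Ioo 0 (μ thi) := Ioo_mem_nhdsLT Gi.hi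
  have ti := h.tend hi Gi h.cz Gi.hi le_rfl
  have tj := h.tend hj Gj h.cz Gi.hi hle
  have tk := h.tend hk Gk h.cz Gi.hi le_rfl
  rw [Gi.g_th (h.τlt i hi)] at ti
  rw [Gk.g_th (h.τlt k hk)] at tk
  have hle2 : z thi ≤ z (gj (μ thi)) := by
    refine le_of_tendsto_of_tendsto ti tj ?_
    filter_upwards [hI] with m hm
    exact (h.order hi hj hij Gi Gj z0i z0j ⟨Gi.lo.trans hm.1, hm.2⟩
      ⟨Gj.lo.trans hm.1, lt_of_lt_of_le hm.2 hle⟩
      (by rwa [h.g_zero hi Gi, h.g_zero hj Gj])).le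
  have hmj : μ thi ∈ Icc (μ tlj) (μ thj) := ⟨(Gj.lo.trans Gi.hi).le, hle⟩
  have hlt2 : z thi < z (gj (μ thi)) := lt_of_le_of_ne hle2 (fun e =>
    hsep _ (Gj.gmem _ hmj) (h.inj _ (h.sub hj (Gj.gmem _ hmj)) _ (h.sub hi hti)
      (Gj.μg _ hmj) e.symm))
  have hev := tk.eventually_lt tj hlt2
  obtain ⟨m, hm0, hm1, hm2, hm3⟩ :=
    (hI.and ((h.near hi Gi hth hv).and ((h.near hk Gk hth hv).and hev))).exists
  have a1 : z (gi m) < z thi := by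
    by_contra hn2
    push Not at hn2
    nlinarith [mul_nonneg (sub_nonneg.2 hn2) hpos.le]
  have a2 : z thi < z (gk m) := by
    by_contra hn2
    push Not at hn2
    nlinarith [mul_nonneg (sub_nonneg.2 hn2) (neg_nonneg.2 hneg.le)]
  have mi : m ∈ Ioo (μ tli) (μ thi) := ⟨Gi.lo.trans hm0.1, hm0.2⟩
  have mj : m ∈ Ioo (μ tlj) (μ thj) := ⟨Gj.lo.trans hm0.1, lt_of_lt_of_le hm0.2 hle⟩
  have mk : m ∈ Ioo (μ tlk) (μ thi) := ⟨Gk.lo.trans hm0.1, hm0.2⟩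
  have b1 := h.order hi hk hik Gi Gk mi mk z0i z0k (a1.trans a2)
  have b2 := h.order hk hj hkj Gk Gj mk mj z0k z0j hm3
  rw [h.g_zero hi Gi, h.g_zero hk Gk] at b1
  rw [h.g_zero hj Gj, h.g_zero hk Gk] at b2
  exact hadj k hk ⟨b1, b2⟩

theorem up (h : Ab L μ z u v ρ n τ d) {i j : ℕ} (hi : i ≤ n) (hj : j ≤ n)
    (hnj : ¬ (i + 1 = j ∨ j + 1 = i)) (hlt : z (d i) < z (d j))
    (hadj : ∀ k ≤ n, ¬ (z (d i) < z (d k) ∧ z (d k) < z (d j))) :
    ∃ ti ∈ Ioo (τ i) (τ (i + 1)), ∃ tj ∈ Ioo (τ j) (τ (j + 1)),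
      μ ti = μ tj ∧ 0 < μ ti ∧ v ti / u ti < v tj / u tj := by
  obtain ⟨gi, tli, thi, Gi⟩ := h.graph hi
  obtain ⟨gj, tlj, thj, Gj⟩ := h.graph hj
  have T1 : μ thi ≤ μ thj → u thi = 0 ∧ v thi * (thi - d i) < 0 :=
    h.top hi hj hnj hlt hadj Gi Gj
  have T2 : μ thj ≤ μ thi → u thj = 0 ∧ 0 < v thj * (thj - d j) := fun hle => by
    have := h.negz.top hj hi (fun e => hnj (by omega)) (by simpa using hlt)
      (fun k hk e => hadj k hk ⟨by linarith [e.2], by linarith [e.1]⟩) Gj Gi hle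
    exact ⟨this.1, by linarith [this.2]⟩
  have key : ∃ β, 0 < β ∧ β ≤ μ thi ∧ β ≤ μ thj ∧ ∀ᶠ m in 𝓝[<] β,
      (v (gi m) * (thi - d i)) * (u (gj m) * (thj - d j))
        < (v (gj m) * (thj - d j)) * (u (gi m) * (thi - d i)) := by
    have tt : ∀ β, 0 < β → β ≤ μ thi → β ≤ μ thj →
        (v (gi β) * (thi - d i)) * (u (gj β) * (thj - d j))
          < (v (gj β) * (thj - d j)) * (u (gi β) * (thi - d i)) → ∀ᶠ m in 𝓝[<] β,
        (v (gi m) * (thi - d i)) * (u (gj m) * (thj - d j))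
          < (v (gj m) * (thj - d j)) * (u (gi m) * (thi - d i)) := fun β h0 h1 h2 h3 =>
      (((h.tend hi Gi h.cv h0 h1).mul_const _).mul ((h.tend hj Gj h.cu h0 h2).mul_const _)
        ).eventually_lt (((h.tend hj Gj h.cv h0 h2).mul_const _).mul
          ((h.tend hi Gi h.cu h0 h1).mul_const _)) h3
    rcases lt_trichotomy (μ thi) (μ thj) with hc | hc | hc
    · refine ⟨μ thi, Gi.hi, le_rfl, hc.le, tt _ Gi.hi le_rfl hc.le ?_⟩
      obtain ⟨a1, a2⟩ := T1 hc.le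
      rw [Gi.g_th (h.τlt i hi), a1]
      have a3 := Gj.sgn _ (Gj.gmem' _ ⟨Gj.lo.trans Gi.hi, hc⟩)
      nlinarith [mul_pos (neg_pos.2 a2) a3]
    · refine ⟨μ thi, Gi.hi, le_rfl, hc.le, ?_⟩
      obtain ⟨-, a2⟩ := T1 hc.le
      obtain ⟨-, b2⟩ := T2 hc.ge
      have ti := (h.tend hi Gi h.cv Gi.hi le_rfl).mul_const (thi - d i)
      have tj := (h.tend hj Gj h.cv Gi.hi hc.le).mul_const (thj - d j)
      rw [Gi.g_th (h.τlt i hi)] at ti
      have e : gj (μ thi) = thj := by rw [hc]; exact Gj.g_th (h.τlt j hj)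
      rw [e] at tj
      filter_upwards [ti.eventually (gt_mem_nhds a2), tj.eventually (lt_mem_nhds b2),
        Ioo_mem_nhdsLT Gi.hi] with m m1 m2 m3
      have a3 := Gi.sgn _ (Gi.gmem' m ⟨Gi.lo.trans m3.1, m3.2⟩)
      have b3 := Gj.sgn _ (Gj.gmem' m ⟨Gj.lo.trans m3.1, hc ▸ m3.2⟩)
      nlinarith [mul_pos (neg_pos.2 m1) b3, mul_pos m2 a3]
    · refine ⟨μ thj, Gj.hi, hc.le, le_rfl, tt _ Gj.hi hc.le le_rfl ?_⟩
      obtain ⟨a1, a2⟩ := T2 hc.le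
      rw [Gj.g_th (h.τlt j hj), a1]
      have a3 := Gi.sgn _ (Gi.gmem' _ ⟨Gi.lo.trans Gj.hi, hc⟩)
      nlinarith [mul_pos a2 a3]
  obtain ⟨β, h0, h1, h2, h3⟩ := key
  obtain ⟨m, hm1, hm2⟩ := (h3.and (Ioo_mem_nhdsLT h0)).exists
  have mi : m ∈ Ioo (μ tli) (μ thi) := ⟨Gi.lo.trans hm2.1, lt_of_lt_of_le hm2.2 h1⟩
  have mj : m ∈ Ioo (μ tlj) (μ thj) := ⟨Gj.lo.trans hm2.1, lt_of_lt_of_le hm2.2 h2⟩
  have a3 := Gi.sgn _ (Gi.gmem' m mi)
  have b3 := Gj.sgn _ (Gj.gmem' m mj)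
  have ei := Gi.μg m (Ioo_subset_Icc_self mi)
  have ej := Gj.μg m (Ioo_subset_Icc_self mj)
  refine ⟨gi m, Gi.gmem' m mi, gj m, Gj.gmem' m mj, by rw [ei, ej], by rw [ei]; exact hm2.1, ?_⟩
  have si : thi - d i ≠ 0 := fun e => by rw [e] at a3; simp at a3
  have sj : thj - d j ≠ 0 := fun e => by rw [e] at b3; simp at b3
  rw [← mul_div_mul_right _ _ si, ← mul_div_mul_right (v (gj m)) _ sj, div_lt_div_iff₀ a3 b3]
  exact hm1

theorem turn (h : Ab L μ z u v ρ n τ d) {k : ℕ} (hk : k + 1 ≤ n) (hμ : 0 < μ (τ (k + 1))) :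
    0 < v (τ (k + 1)) * (z (d (k + 1)) - z (d k)) := by
  have hk' : k ≤ n := by omega
  obtain ⟨g1, tl1, th1, G1⟩ := h.graph hk'
  obtain ⟨g2, tl2, th2, G2⟩ := h.graph hk
  have e1 : th1 = τ (k + 1) := by
    rcases G1.ends with he | he
    · exact he.2
    · have := G1.lo; rw [he.1] at this; linarith
  have e2 : th2 = τ (k + 1) := by
    rcases G2.ends with he | he
    · have := G2.lo; rw [he.1] at this; linarith
    · exact he.2
  rw [e1] at G1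
  rw [e2] at G2
  have hth : τ (k + 1) ∈ Ioo 0 L :=
    ⟨h.τ0 ▸ h.τ_lt _ _ (by omega) (by omega), h.τL ▸ h.τ_lt _ _ (by omega) le_rfl⟩
  have hv := (h.uz _ (by omega) hk).2
  obtain ⟨m, hm0, hm1, hm2⟩ :=
    ((show ∀ᶠ m in 𝓝[<] μ (τ (k + 1)), m ∈ Ioo 0 (μ (τ (k + 1))) from Ioo_mem_nhdsLT hμ).and
      ((h.near hk' G1 hth hv).and (h.near hk G2 hth hv))).exists
  have d1 := (h.dmem k hk').2
  have d2 := (h.dmem _ hk).1
  have a1 : 0 < (z (τ (k + 1)) - z (g1 m)) * v (τ (k + 1)) := by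
    by_contra hn
    push Not at hn
    nlinarith [mul_nonneg (neg_nonneg.2 hn) (sub_pos.2 d1).le]
  have a2 : 0 < (z (g2 m) - z (τ (k + 1))) * v (τ (k + 1)) := by
    by_contra hn
    push Not at hn
    nlinarith [mul_nonneg (neg_nonneg.2 hn) (sub_pos.2 d2).le]
  have m1 : m ∈ Ioo (μ tl1) (μ (τ (k + 1))) := ⟨G1.lo.trans hm0.1, hm0.2⟩
  have m2 : m ∈ Ioo (μ tl2) (μ (τ (k + 1))) := ⟨G2.lo.trans hm0.1, hm0.2⟩
  have z1 : (0 : ℝ) ∈ Ioo (μ tl1) (μ (τ (k + 1))) := ⟨G1.lo, hμ⟩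
  have z2 : (0 : ℝ) ∈ Ioo (μ tl2) (μ (τ (k + 1))) := ⟨G2.lo, hμ⟩
  rcases lt_or_gt_of_ne hv with hv' | hv'
  · have := h.order hk hk' (by omega) G2 G1 m2 m1 z2 z1 (by nlinarith)
    rw [h.g_zero hk G2, h.g_zero hk' G1] at this
    exact mul_pos_of_neg_of_neg hv' (by linarith)
  · have := h.order hk' hk (by omega) G1 G2 m1 m2 z1 z2 (by nlinarith)
    rw [h.g_zero hk G2, h.g_zero hk' G1] at this
    exact mul_pos hv' (by linarith)

end Ab

end Pool.Agent.MP_48470b_gt
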